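import Pool.Agent.H72.G4.TwoS

/-!
# Removing a boundary vertex without chords
-/

set_option autoImplicit false

namespace Pool.Agent.H72.G4

open Relation Pool.Agent.H13.DA

variable {V : Type*} [DecidableEq V] {T : Finset (V × V × V)}

omit [DecidableEq V] in
theorem adj_dir {a b : V} : Adj T a b ↔ Dir T a b ∨ Dir T b a := Iff.rfl

theorem adj_del (hT : IsCx T) {i j w : V} (h : (j, i, w) ∈ T) (p q : V) :
    Adj T p q ↔ Adj (T \ tri j i w) p q ∨ (p = j ∧ q = i) ∨ (p = i ∧ q = w) ∨ (p = w ∧ q = j) ∨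
      (q = j ∧ p = i) ∨ (q = i ∧ p = w) ∨ (q = w ∧ p = j) := by
  rw [adj_dir, adj_dir, dir_iff hT h p q, dir_iff hT h q p]
  tauto

omit [DecidableEq V] in
theorem head_mem {l m : List V} {x : V} (hr : l ~r m) (h : x ∈ m) : x ∈ l :=
  hr.perm.mem_iff.2 h

theorem peel_aux (n : ℕ) : ∀ T : Finset (V × V × V), T.card ≤ n → Disc T →
    ∀ (v a c : V) (R : List V), IsBd T (v :: a :: (R ++ [c])) → (∀ u ∈ R, ¬ Adj T v u) →
    (T = tri v a c ∧ R = []) ∨ ∃ (T' : Finset (V × V × V)) (P : List V),
      Disc T' ∧ IsBd T' (P ++ a :: (R ++ [c])) ∧ T' ⊆ T ∧ v ∉ verts T' ∧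
      (∀ p ∈ P, p ∉ v :: a :: (R ++ [c])) ∧
      (∀ x y, Adj T x y ↔ Adj T' x y ∨ (x = v ∧ (y = c ∨ y ∈ P ∨ y = a)) ∨
        (y = v ∧ (x = c ∨ x ∈ P ∨ x = a))) := by
  induction n with
  | zero =>
    intro T hn hD v a c R hl _
    exfalso
    have hb : Bd T v a := (hl.iff v a).2 (Or.inl ⟨rfl, rfl⟩)
    obtain ⟨x, hx⟩ := hb.1
    have : T.card ≠ 0 := Finset.card_ne_zero_of_mem hx
    omega
  | succ n ih =>
    intro T hn hD v a c R hl hR
    have hT := hD.cx
    have hnd := hl.nodup
    have hr : (v :: a :: (R ++ [c])) ~r (a :: ((R ++ [c]) ++ [v])) := ⟨1, by simp⟩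
    have hl' := hl.rot hr
    have hva : Bd T v a := (hl.iff v a).2 (Or.inl ⟨rfl, rfl⟩)
    have hcv : Bd T c v := by
      rw [hl.iff]
      have e : v :: a :: (R ++ [c]) = v :: ((a :: R) ++ [c]) := by simp
      rw [e]
      exact cyc_last v c _
    have hcv1 := (bd_dir.1 hcv).1
    have hcv2 := (bd_dir.1 hcv).2
    obtain ⟨⟨w, h⟩, hb⟩ := hva
    obtain ⟨n1, n2, n3⟩ := cx_ne hT h
    obtain ⟨h', h''⟩ := rot3 hT h
    have hT' := sdiff_tri_isCx hT h
    have hcard := card_sdiff_tri hT h
    have hb' : ¬ Dir T a v := fun ⟨c, hc⟩ => hb c hc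
    have mform : ∀ m' : List V, IsBd T (a :: (m' ++ [v])) → R ++ [c] = m' := by
      intro m' hm'
      have e := head_unique (hl'.unique hm') hl'.nodup
      exact List.append_inj_left' e rfl
    have hvc : v ≠ c := by
      rintro rfl
      simp at hnd
    have hac : a ≠ c := by
      rintro rfl
      simp at hnd
    have hca : (v :: a :: (R ++ [c])) = v :: ((a :: R) ++ [c]) := by simp
    have adjvw : Adj T v w := Or.inr ⟨a, h''⟩
    -- if `w` is on the boundary, then `w = c`
    have wc : w ∈ v :: a :: (R ++ [c]) → w = c := by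
      intro hw
      simp only [List.mem_cons, List.mem_append, List.not_mem_nil, or_false] at hw
      rcases hw with hw | hw | hw | hw
      · exact absurd hw n3
      · exact absurd hw n2.symm
      · exact absurd adjvw (hR w hw)
      · exact hw
    rcases disc_cases hD h hb with h0 | ⟨h1, h2, h3, h4⟩ | ⟨h1, h2, h3, h4⟩ | ⟨h1, h2, h3⟩ |
      ⟨X, Y, h1, hdj, h3, h4, h5, h6, h7⟩
    · -- (A)
      left
      have hl2 : IsBd T [a, w, v] := by
        rw [h0]
        exact bdA n1 n2 n3
      have e := mform [w] hl2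
      have e1 : R = [] ∧ c = w := by
        cases R with
        | nil => simpa using e
        | cons r R => simp at e
      rw [e1.2]
      exact ⟨h0, e1.1⟩
    · -- (B1)
      right
      have hwv : Bd T w v := ⟨⟨a, h''⟩, h3⟩
      have ewc : w = c := wc (bd_mem hl hwv).1
      subst ewc
      obtain ⟨l1, hl1⟩ := disc_list h1
      obtain ⟨m2, hm2⟩ := hl1.form h2
      have hm : R ++ [w] = m2 ++ [w] := by
        apply mform
        have := bdB1 hT h hb h3 h4 hm2
        have e : a :: (m2 ++ [w, v]) = a :: ((m2 ++ [w]) ++ [v]) := by simp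
        rw [e] at this
        exact this
      have hm' : R = m2 := List.append_inj_left' hm rfl
      subst hm'
      refine ⟨T \ tri v a w, [], h1, hm2, Finset.sdiff_subset, h4, by simp, ?_⟩
      intro x y
      rw [adj_del hT h]
      have k1 : Adj (T \ tri v a w) w a := Or.inl h2.1
      have k2 : Adj (T \ tri v a w) a w := Or.inr h2.1
      constructor
      · rintro (q | ⟨rfl, rfl⟩ | ⟨rfl, rfl⟩ | ⟨rfl, rfl⟩ | ⟨rfl, rfl⟩ | ⟨rfl, rfl⟩ | ⟨rfl, rfl⟩)
        · exact Or.inl q
        · exact Or.inr (Or.inl ⟨rfl, Or.inr (Or.inr rfl)⟩)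
        · exact Or.inl k2
        · exact Or.inr (Or.inr ⟨rfl, Or.inl rfl⟩)
        · exact Or.inr (Or.inr ⟨rfl, Or.inr (Or.inr rfl)⟩)
        · exact Or.inl k1
        · exact Or.inr (Or.inl ⟨rfl, Or.inl rfl⟩)
      · rintro (q | ⟨rfl, rfl | q | rfl⟩ | ⟨rfl, rfl | q | rfl⟩)
        · exact Or.inl q
        · tauto
        · exact absurd q List.not_mem_nil
        · tauto
        · tauto
        · exact absurd q List.not_mem_nil
        · tauto
    · -- (B2)
      exfalso
      have haw : Bd T a w := ⟨⟨v, h'⟩, h3⟩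
      have ewc : w = c := wc (bd_mem hl haw).2
      subst ewc
      exact hcv2 (dir_mono Finset.sdiff_subset h2.1)
    · -- (C)
      right
      obtain ⟨l1, hl1⟩ := disc_list h1
      obtain ⟨m2, hm2⟩ := hl1.form2 h2 h3 n1.symm
      have hm : R ++ [c] = m2 := mform m2 (bdC hT h hb hm2)
      subst hm
      have hl2 : IsBd (T \ tri v a w) (v :: w :: ((a :: R) ++ [c])) := by
        refine hm2.rot ?_
        have e : a :: ((R ++ [c]) ++ [v, w]) = ((a :: R) ++ [c]) ++ [v, w] := by simp
        rw [e]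
        refine List.isRotated_append.trans ?_
        have e2 : [v, w] ++ ((a :: R) ++ [c]) = v :: w :: ((a :: R) ++ [c]) := by simp
        rw [e2]
      have hnd2 := hl2.nodup
      have hR' : ∀ u ∈ a :: R, ¬ Adj (T \ tri v a w) v u := by
        intro u hu hadj
        rcases List.mem_cons.1 hu with rfl | hu
        · rcases hadj with hd | hd
          · exact dir_gone hT h hd
          · exact hb' (dir_mono Finset.sdiff_subset hd)
        · apply hR u hu
          rcases hadj with hd | hd
          · exact Or.inl (dir_mono Finset.sdiff_subset hd)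
          · exact Or.inr (dir_mono Finset.sdiff_subset hd)
      rcases ih _ (by omega) h1 v w c (a :: R) hl2 hR' with ⟨_, h9⟩ |
        ⟨T', P, k1, k2, k3, k4, k5, k6⟩
      · simp at h9
      · refine ⟨T', P ++ [w], k1, ?_, k3.trans Finset.sdiff_subset, k4, ?_, ?_⟩
        · have e : (P ++ [w]) ++ a :: (R ++ [c]) = P ++ w :: ((a :: R) ++ [c]) := by simp
          rw [e]
          exact k2
        · intro p hp
          rcases List.mem_append.1 hp with hp | hp
          · have := k5 p hp
            simp only [List.mem_cons, List.mem_append, List.not_mem_nil, or_false, not_or]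
              at this ⊢
            tauto
          · rw [List.mem_singleton.1 hp]
            simp only [List.nodup_cons, List.mem_cons, List.mem_append, List.not_mem_nil, or_false,
              not_or] at hnd2
            simp only [List.mem_cons, List.mem_append, List.not_mem_nil, or_false, not_or]
            tauto
        · intro x y
          rw [adj_del hT h]
          have q1 : Adj T' w a := by
            left
            refine ((k2.iff w a).2 ?_).1
            have e : P ++ w :: ((a :: R) ++ [c]) = P ++ w :: (a :: (R ++ [c])) := by simp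
            rw [e]
            cases P with
            | nil => exact Or.inl ⟨rfl, rfl⟩
            | cons p P =>
              change Nx (p :: ((P ++ w :: (a :: (R ++ [c]))) ++ [p])) w a
              have e2 : p :: ((P ++ w :: (a :: (R ++ [c]))) ++ [p]) =
                  (p :: P) ++ w :: (a :: ((R ++ [c]) ++ [p])) := by simp
              rw [e2, nx_append]
              exact Or.inr (Or.inl ⟨rfl, rfl⟩)
          have q2 : Adj T' a w := q1.symm
          have q3 := k6 x y
          simp only [List.mem_append, List.mem_singleton]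
          constructor
          · rintro (q | ⟨rfl, rfl⟩ | ⟨rfl, rfl⟩ | ⟨rfl, rfl⟩ | ⟨rfl, rfl⟩ | ⟨rfl, rfl⟩ |
              ⟨rfl, rfl⟩)
            · rcases q3.1 q with q | ⟨rfl, q | q | q⟩ | ⟨rfl, q | q | q⟩
              · exact Or.inl q
              · exact Or.inr (Or.inl ⟨rfl, Or.inl q⟩)
              · exact Or.inr (Or.inl ⟨rfl, Or.inr (Or.inl (Or.inl q))⟩)
              · exact Or.inr (Or.inl ⟨rfl, Or.inr (Or.inl (Or.inr q))⟩)
              · exact Or.inr (Or.inr ⟨rfl, Or.inl q⟩)
              · exact Or.inr (Or.inr ⟨rfl, Or.inr (Or.inl (Or.inl q))⟩)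
              · exact Or.inr (Or.inr ⟨rfl, Or.inr (Or.inl (Or.inr q))⟩)
            · exact Or.inr (Or.inl ⟨rfl, Or.inr (Or.inr rfl)⟩)
            · exact Or.inl q2
            · exact Or.inr (Or.inr ⟨rfl, Or.inr (Or.inl (Or.inr rfl))⟩)
            · exact Or.inr (Or.inr ⟨rfl, Or.inr (Or.inr rfl)⟩)
            · exact Or.inl q1
            · exact Or.inr (Or.inl ⟨rfl, Or.inr (Or.inl (Or.inr rfl))⟩)
          · rintro (q | ⟨rfl, q | (q | q) | q⟩ | ⟨rfl, q | (q | q) | q⟩)
            · exact Or.inl (q3.2 (Or.inl q))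
            · exact Or.inl (q3.2 (Or.inr (Or.inl ⟨rfl, Or.inl q⟩)))
            · exact Or.inl (q3.2 (Or.inr (Or.inl ⟨rfl, Or.inr (Or.inl q)⟩)))
            · exact Or.inl (q3.2 (Or.inr (Or.inl ⟨rfl, Or.inr (Or.inr q)⟩)))
            · tauto
            · exact Or.inl (q3.2 (Or.inr (Or.inr ⟨rfl, Or.inl q⟩)))
            · exact Or.inl (q3.2 (Or.inr (Or.inr ⟨rfl, Or.inr (Or.inl q)⟩)))
            · exact Or.inl (q3.2 (Or.inr (Or.inr ⟨rfl, Or.inr (Or.inr q)⟩)))
            · tauto
    · -- (D)
      exfalso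
      obtain ⟨l1, hl1⟩ := disc_list h3
      obtain ⟨m1, hm1⟩ := hl1.form h5
      obtain ⟨l2, hl2⟩ := disc_list h4
      obtain ⟨m2, hm2⟩ := hl2.form h6
      have hB := bdD hT h hb h1 h3.cx h4.cx h7 hm1 hm2
      have hw : w ∈ v :: a :: (R ++ [c]) := by
        refine head_mem (hl.unique hB) ?_
        simp
      have ewc := wc hw
      subst ewc
      apply hcv2
      have : Dir (T \ tri v a w) v w := by
        rw [h1]
        exact dir_union.2 (Or.inr h6.1)
      exact dir_mono Finset.sdiff_subset this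

/-- **Removing a chordless boundary vertex.**  The boundary list is `v, a, R, c` (cyclically),
`v` is adjacent to no vertex of `R`.  Either `T` is a single triangle, or `T` without the star of
`v` is a disc with boundary `P, a, R, c`, where `c, P, a` are the neighbours of `v` in order. -/
theorem peel (hD : Disc T) {v a c : V} {R : List V} (hl : IsBd T (v :: a :: (R ++ [c])))
    (hR : ∀ u ∈ R, ¬ Adj T v u) :
    (T = tri v a c ∧ R = []) ∨ ∃ (T' : Finset (V × V × V)) (P : List V),
      Disc T' ∧ IsBd T' (P ++ a :: (R ++ [c])) ∧ T' ⊆ T ∧ v ∉ verts T' ∧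
      (∀ p ∈ P, p ∉ v :: a :: (R ++ [c])) ∧
      (∀ x y, Adj T x y ↔ Adj T' x y ∨ (x = v ∧ (y = c ∨ y ∈ P ∨ y = a)) ∨
        (y = v ∧ (x = c ∨ x ∈ P ∨ x = a))) :=
  peel_aux T.card T le_rfl hD v a c R hl hR

theorem verts_adj (hT : IsCx T) {x : V} : x ∈ verts T ↔ ∃ y, Adj T x y := by
  constructor
  · intro h
    obtain ⟨b, c, h⟩ := mem_verts.1 h
    exact ⟨b, Or.inl ⟨c, h⟩⟩
  · rintro ⟨y, ⟨c, h⟩ | ⟨c, h⟩⟩
    · exact vert1 h
    · exact vert2 hT h

end Pool.Agent.H72.G4
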