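import Pool.Agent.H72.G4.CycL
import Pool.Agent.H72.G4.Peel

/-!
# A cycle in a disc bounds a disc
-/

set_option autoImplicit false

namespace Pool.Agent.H72.G4

open Relation Pool.Agent.H13.DA

variable {V : Type*} [DecidableEq V] {T : Finset (V × V × V)}

/-- a boundary edge of `T0` at a vertex of the subdisc -/
theorem bd_step {T0 X : Finset (V × V × V)} {P : V → Prop} (hX : X ⊆ T0) (cX : IsCx X)
    (cT : IsCx T0)
    (hZ : ∀ x y, Bd X x y → P x ∧ P y) (hp : ∀ v, v ∈ verts X → v ∈ verts (T0 \ X) → P v)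
    {u v : V} (h : Bd T0 u v) : (u ∈ verts X → P u) ∧ (v ∈ verts X → P v) := by
  obtain ⟨⟨c, hc⟩, h2⟩ := h
  by_cases hm : (u, v, c) ∈ X
  · have hb : Bd X u v := ⟨⟨c, hm⟩, fun d hd => h2 d (hX hd)⟩
    exact ⟨fun _ => (hZ u v hb).1, fun _ => (hZ u v hb).2⟩
  · have hu : u ∈ verts (T0 \ X) := vert1 (Finset.mem_sdiff.2 ⟨hc, hm⟩)
    have hm2 : (v, c, u) ∉ X := fun h3 => hm (cX.rot (cX.rot h3))
    have hv : v ∈ verts (T0 \ X) := vert1 (Finset.mem_sdiff.2 ⟨cT.rot hc, hm2⟩)
    exact ⟨fun h => hp u h hu, fun h => hp v h hv⟩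

theorem jordan_aux (n : ℕ) : ∀ T : Finset (V × V × V), T.card ≤ n → Disc T →
    ∀ Z : List V, Z.Nodup → 3 ≤ Z.length → (∀ x y, Cyc Z x y → Adj T x y) →
    ∃ X, X ⊆ T ∧ Disc X ∧ (IsBd X Z ∨ IsBd X Z.reverse) ∧
      ∀ v, v ∈ verts X → v ∈ verts (T \ X) → v ∈ Z := by
  induction n with
  | zero =>
    intro T hn hD
    exfalso
    obtain ⟨a, b, ⟨c, hc⟩, _⟩ := hD.bd
    have : T.card ≠ 0 := Finset.card_ne_zero_of_mem hc
    omega
  | succ n ih =>
    intro T hn hD Z hZn hZ3 hZ
    have hT := hD.cx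
    obtain ⟨l, hl⟩ := disc_list hD
    by_cases hall : ∀ x y, Cyc l x y → Cyc Z x y ∨ Cyc Z y x
    · -- the boundary is the cycle
      refine ⟨T, Finset.Subset.refl _, hD, ?_, ?_⟩
      · rcases cyc_edges hl.nodup hl.len hZn hall with h | h
        · exact Or.inl ⟨hZn, hZ3, fun a b => (hl.iff a b).trans (h a b)⟩
        · refine Or.inr ⟨List.nodup_reverse.2 hZn, by simpa using hZ3, fun a b => ?_⟩
          rw [cyc_reverse]
          exact (hl.iff a b).trans (h a b)
      · intro v _ hv
        rw [Finset.sdiff_self] at hv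
        obtain ⟨b, c, h⟩ := mem_verts.1 hv
        simp at h
    push Not at hall
    obtain ⟨j, i, hji, hn1, hn2⟩ := hall
    have hbd : Bd T j i := (hl.iff j i).2 hji
    obtain ⟨⟨w, h⟩, hb⟩ := hbd
    obtain ⟨n1, n2, n3⟩ := cx_ne hT h
    obtain ⟨h', h''⟩ := rot3 hT h
    have hT' := sdiff_tri_isCx hT h
    have hcard := card_sdiff_tri hT h
    -- the two neighbours of a vertex of `Z`
    have two : ∀ x ∈ Z, ∃ u v, Cyc Z u x ∧ Cyc Z x v ∧ u ≠ v := by
      intro x hx
      obtain ⟨⟨v, hv⟩, ⟨u, hu⟩⟩ := mem_cyc hx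
      refine ⟨u, v, hu, hv, ?_⟩
      rintro rfl
      exact cyc_no2 hZn hZ3 hu hv
    -- `j` (or `i`) is not on `Z`, if its only neighbours are the other two vertices
    have offj : (∀ u, Adj T j u → u = i ∨ u = w) → j ∉ Z := by
      intro hj hjZ
      obtain ⟨u, v, hu, hv, huv⟩ := two j hjZ
      have h1 := hj u (hZ u j hu).symm
      have h2 := hj v (hZ j v hv)
      rcases h1 with rfl | rfl
      · exact hn2 hu
      · rcases h2 with rfl | rfl
        · exact hn1 hv
        · exact huv rfl
    have offi : (∀ u, Adj T i u → u = j ∨ u = w) → i ∉ Z := by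
      intro hi hiZ
      obtain ⟨u, v, hu, hv, huv⟩ := two i hiZ
      have h1 := hi u (hZ u i hu).symm
      have h2 := hi v (hZ i v hv)
      rcases h1 with rfl | rfl
      · exact hn1 hu
      · rcases h2 with rfl | rfl
        · exact hn2 hv
        · exact huv rfl
    -- how to go back from `T minus a triangle` to `T`
    have back : ∀ T0 : Finset (V × V × V), IsCx T0 →
        (∀ v, v ∈ verts (T \ T0) → v ∈ verts T0 → ∃ u, Bd T0 u v ∨ Bd T0 v u) →
        (∃ X, X ⊆ T0 ∧ Disc X ∧ (IsBd X Z ∨ IsBd X Z.reverse) ∧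
          ∀ v, v ∈ verts X → v ∈ verts (T0 \ X) → v ∈ Z) → T0 ⊆ T →
        ∃ X, X ⊆ T ∧ Disc X ∧ (IsBd X Z ∨ IsBd X Z.reverse) ∧
          ∀ v, v ∈ verts X → v ∈ verts (T \ X) → v ∈ Z := by
      rintro T0 cT0 hT0 ⟨X, hX, hXD, hXb, hXv⟩ hsub
      refine ⟨X, hX.trans hsub, hXD, hXb, ?_⟩
      have hZX : ∀ x y, Bd X x y → x ∈ Z ∧ y ∈ Z := by
        intro x y hxy
        rcases hXb with h1 | h1
        · exact bd_mem h1 hxy
        · have := bd_mem h1 hxy
          simpa using this
      intro v hv hv'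
      obtain ⟨b, c, hbc⟩ := mem_verts.1 hv'
      obtain ⟨m1, m2⟩ := Finset.mem_sdiff.1 hbc
      by_cases hm : (v, b, c) ∈ T0
      · exact hXv v hv (vert1 (Finset.mem_sdiff.2 ⟨hm, m2⟩))
      · obtain ⟨u, hu | hu⟩ := hT0 v (vert1 (Finset.mem_sdiff.2 ⟨m1, hm⟩)) (verts_mono hX hv)
        · exact (bd_step hX hXD.cx cT0 hZX hXv hu).2 hv
        · exact (bd_step hX hXD.cx cT0 hZX hXv hu).1 hv
    have vtri : ∀ v, v ∈ verts (T \ (T \ tri j i w)) → v = j ∨ v = i ∨ v = w := by
      intro v hv
      have hs : T \ (T \ tri j i w) ⊆ tri j i w := by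
        intro s hs
        obtain ⟨s1, s2⟩ := Finset.mem_sdiff.1 hs
        by_contra s3
        exact s2 (Finset.mem_sdiff.2 ⟨s1, s3⟩)
      have := verts_mono hs hv
      rw [verts_tri] at this
      simpa using this
    -- edges of `Z` in the smaller complex
    have edge : ∀ x y, Cyc Z x y → Adj (T \ tri j i w) x y ∨ (x = i ∧ y = w) ∨ (x = w ∧ y = i) ∨
        (x = w ∧ y = j) ∨ (x = j ∧ y = w) := by
      intro x y hxy
      rcases (adj_del hT h x y).1 (hZ x y hxy) with h1 | ⟨rfl, rfl⟩ | ⟨rfl, rfl⟩ | ⟨rfl, rfl⟩ |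
        ⟨rfl, rfl⟩ | ⟨rfl, rfl⟩ | ⟨rfl, rfl⟩
      · exact Or.inl h1
      · exact absurd hxy hn1
      · tauto
      · tauto
      · exact absurd hxy hn2
      · tauto
      · tauto
    rcases disc_cases hD h hb with h0 | ⟨h1, h2, h3, h4⟩ | ⟨h1, h2, h3, h4⟩ | ⟨h1, h2, h3⟩ |
      ⟨X, Y, h1, hdj, h3, h4, h5, h6, h7⟩
    · -- (A)
      exfalso
      have hv : ∀ x y, Adj T x y → (x = j ∨ x = i ∨ x = w) ∧ (y = j ∨ y = i ∨ y = w) ∧ x ≠ y := by
        intro x y hxy
        have hne : x ≠ y := by
          rcases hxy with hd | hd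
          · exact dir_ne hT hd
          · exact (dir_ne hT hd).symm
        have k1 : x ∈ verts T := (verts_adj hT).2 ⟨y, hxy⟩
        have k2 : y ∈ verts T := (verts_adj hT).2 ⟨x, hxy.symm⟩
        rw [h0, verts_tri] at k1 k2
        exact ⟨by simpa using k1, by simpa using k2, hne⟩
      have hj : j ∉ Z := offj fun u hu => by
        obtain ⟨_, k2, k3⟩ := hv j u hu
        rcases k2 with rfl | k2 | k2
        · exact absurd rfl k3
        · exact Or.inl k2
        · exact Or.inr k2
      have hi : i ∉ Z := offi fun u hu => by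
        obtain ⟨_, k2, k3⟩ := hv i u hu
        rcases k2 with k2 | rfl | k2
        · exact Or.inl k2
        · exact absurd rfl k3
        · exact Or.inr k2
      have hne : Z ≠ [] := by
        rintro rfl
        simp at hZ3
      obtain ⟨x, hx⟩ := List.exists_mem_of_ne_nil Z hne
      obtain ⟨u, v, hu, hv', huv⟩ := two x hx
      have k1 := hv u x (hZ u x hu)
      have k2 := hv x v (hZ x v hv')
      have m1 := (cyc_mem hu).1
      have m2 := (cyc_mem hv').2
      have q1 : u = w := by
        rcases k1.1 with rfl | rfl | rfl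
        · exact absurd m1 hj
        · exact absurd m1 hi
        · rfl
      have q2 : v = w := by
        rcases k2.2.1 with rfl | rfl | rfl
        · exact absurd m2 hj
        · exact absurd m2 hi
        · rfl
      exact huv (q1.trans q2.symm)
    · -- (B1)
      have hj : j ∉ Z := offj fun u hu => by
        rcases (adj_del hT h j u).1 hu with k | ⟨_, rfl⟩ | ⟨k, _⟩ | ⟨k, _⟩ | ⟨_, k⟩ | ⟨k, k'⟩ |
          ⟨rfl, _⟩
        · exact absurd ((verts_adj hT').2 ⟨u, k⟩) h4
        · exact Or.inl rfl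
        · exact absurd k n1
        · exact absurd k.symm n3
        · exact absurd k n1
        · exact absurd k'.symm n3
        · exact Or.inr rfl
      refine back _ hT' ?_ (ih _ (by omega) h1 Z hZn hZ3 ?_) Finset.sdiff_subset
      · intro v hv hv'
        rcases vtri v hv with rfl | rfl | rfl
        · exact absurd hv' h4
        · exact ⟨w, Or.inl h2⟩
        · exact ⟨i, Or.inr h2⟩
      · intro x y hxy
        rcases edge x y hxy with k | ⟨rfl, rfl⟩ | ⟨rfl, rfl⟩ | ⟨rfl, rfl⟩ | ⟨rfl, rfl⟩
        · exact k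
        · exact Or.inr h2.1
        · exact Or.inl h2.1
        · exact absurd (cyc_mem hxy).2 hj
        · exact absurd (cyc_mem hxy).1 hj
    · -- (B2)
      have hi : i ∉ Z := offi fun u hu => by
        rcases (adj_del hT h i u).1 hu with k | ⟨k, _⟩ | ⟨_, rfl⟩ | ⟨k, _⟩ | ⟨rfl, _⟩ | ⟨_, k⟩ |
          ⟨k, k'⟩
        · exact absurd ((verts_adj hT').2 ⟨u, k⟩) h4
        · exact absurd k.symm n1
        · exact Or.inr rfl
        · exact absurd k n2
        · exact Or.inl rfl
        · exact absurd k n2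
        · exact absurd k'.symm n1
      refine back _ hT' ?_ (ih _ (by omega) h1 Z hZn hZ3 ?_) Finset.sdiff_subset
      · intro v hv hv'
        rcases vtri v hv with rfl | rfl | rfl
        · exact ⟨w, Or.inr h2⟩
        · exact absurd hv' h4
        · exact ⟨j, Or.inl h2⟩
      · intro x y hxy
        rcases edge x y hxy with k | ⟨rfl, rfl⟩ | ⟨rfl, rfl⟩ | ⟨rfl, rfl⟩ | ⟨rfl, rfl⟩
        · exact k
        · exact absurd (cyc_mem hxy).1 hi
        · exact absurd (cyc_mem hxy).2 hi
        · exact Or.inr h2.1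
        · exact Or.inl h2.1
    · -- (C)
      refine back _ hT' ?_ (ih _ (by omega) h1 Z hZn hZ3 ?_) Finset.sdiff_subset
      · intro v hv hv'
        rcases vtri v hv with rfl | rfl | rfl
        · exact ⟨w, Or.inr h3⟩
        · exact ⟨w, Or.inl h2⟩
        · exact ⟨i, Or.inr h2⟩
      · intro x y hxy
        rcases edge x y hxy with k | ⟨rfl, rfl⟩ | ⟨rfl, rfl⟩ | ⟨rfl, rfl⟩ | ⟨rfl, rfl⟩
        · exact k
        · exact Or.inr h2.1
        · exact Or.inl h2.1
        · exact Or.inr h3.1
        · exact Or.inl h3.1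
    · -- (D)
      have hXT : X ⊆ T \ tri j i w := by rw [h1]; exact Finset.subset_union_left
      have hYT : Y ⊆ T \ tri j i w := by rw [h1]; exact Finset.subset_union_right
      have hXc := Finset.card_le_card hXT
      have hYc := Finset.card_le_card hYT
      have hw : ∀ x, x ∈ verts X → x ∈ verts Y → x = w := by
        intro x hx hy
        have : x ∈ verts X ∩ verts Y := Finset.mem_inter.2 ⟨hx, hy⟩
        rw [h7] at this
        simpa using this
      have adjU : ∀ x y, Adj (T \ tri j i w) x y → Adj X x y ∨ Adj Y x y := by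
        intro x y hxy
        rw [h1] at hxy
        rcases hxy with k | k
        · rcases dir_union.1 k with k | k
          · exact Or.inl (Or.inl k)
          · exact Or.inr (Or.inl k)
        · rcases dir_union.1 k with k | k
          · exact Or.inl (Or.inr k)
          · exact Or.inr (Or.inr k)
      have adjv : ∀ {X : Finset (V × V × V)}, IsCx X → ∀ x y, Adj X x y →
          x ∈ verts X ∧ y ∈ verts X := by
        intro X hX x y hxy
        exact ⟨(verts_adj hX).2 ⟨y, hxy⟩, (verts_adj hX).2 ⟨x, hxy.symm⟩⟩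
      have hside := cyc_side (P := Adj X) (Q := Adj Y) (A := fun x => x ∈ verts X)
        (B := fun x => x ∈ verts Y) (w := w) hZn (adjv h3.cx) (adjv h4.cx) hw (by
          intro x y hxy
          rcases edge x y hxy with k | ⟨rfl, rfl⟩ | ⟨rfl, rfl⟩ | ⟨rfl, rfl⟩ | ⟨rfl, rfl⟩
          · exact adjU x y k
          · exact Or.inl (Or.inr h5.1)
          · exact Or.inl (Or.inl h5.1)
          · exact Or.inr (Or.inr h6.1)
          · exact Or.inr (Or.inl h6.1))
      have sub3 : T \ X ⊆ Y ∪ tri j i w := by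
        intro s hs
        obtain ⟨s1, s2⟩ := Finset.mem_sdiff.1 hs
        by_cases ht : s ∈ tri j i w
        · exact Finset.mem_union_right _ ht
        · have : s ∈ X ∪ Y := by rw [← h1]; exact Finset.mem_sdiff.2 ⟨s1, ht⟩
          rcases Finset.mem_union.1 this with k | k
          · exact absurd k s2
          · exact Finset.mem_union_left _ k
      have sub4 : T \ Y ⊆ X ∪ tri j i w := by
        intro s hs
        obtain ⟨s1, s2⟩ := Finset.mem_sdiff.1 hs
        by_cases ht : s ∈ tri j i w
        · exact Finset.mem_union_right _ ht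
        · have : s ∈ X ∪ Y := by rw [← h1]; exact Finset.mem_sdiff.2 ⟨s1, ht⟩
          rcases Finset.mem_union.1 this with k | k
          · exact Finset.mem_union_left _ k
          · exact absurd k s2
      have wX : w ∈ verts X := (dir_verts h3.cx h5.1).1
      have iX : i ∈ verts X := (dir_verts h3.cx h5.1).2
      have jY : j ∈ verts Y := (dir_verts h4.cx h6.1).1
      have wY : w ∈ verts Y := (dir_verts h4.cx h6.1).2
      rcases hside with hs | hs
      · refine back X h3.cx ?_ (ih X (by omega) h3 Z hZn hZ3 hs) (hXT.trans Finset.sdiff_subset)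
        intro v hv hv'
        have := verts_mono sub3 hv
        rw [verts_union, verts_tri] at this
        rcases Finset.mem_union.1 this with k | k
        · rw [hw v hv' k]
          exact ⟨i, Or.inr h5⟩
        · simp only [Finset.mem_insert, Finset.mem_singleton] at k
          rcases k with rfl | rfl | rfl
          · exact absurd (hw _ hv' jY) n3.symm
          · exact ⟨w, Or.inl h5⟩
          · exact ⟨i, Or.inr h5⟩
      · refine back Y h4.cx ?_ (ih Y (by omega) h4 Z hZn hZ3 hs) (hYT.trans Finset.sdiff_subset)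
        intro v hv hv'
        have := verts_mono sub4 hv
        rw [verts_union, verts_tri] at this
        rcases Finset.mem_union.1 this with k | k
        · rw [hw v k hv']
          exact ⟨j, Or.inl h6⟩
        · simp only [Finset.mem_insert, Finset.mem_singleton] at k
          rcases k with rfl | rfl | rfl
          · exact ⟨w, Or.inr h6⟩
          · exact absurd (hw _ iX hv') n2
          · exact ⟨j, Or.inl h6⟩

/-- **Jordan**: every cycle of a disc is the boundary of a subdisc; the subdisc and the rest meet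
only in vertices of the cycle. -/
theorem jordan (hD : Disc T) {Z : List V} (hn : Z.Nodup) (h3 : 3 ≤ Z.length)
    (hZ : ∀ x y, Cyc Z x y → Adj T x y) :
    ∃ X, X ⊆ T ∧ Disc X ∧ (IsBd X Z ∨ IsBd X Z.reverse) ∧
      ∀ v, v ∈ verts X → v ∈ verts (T \ X) → v ∈ Z :=
  jordan_aux T.card T le_rfl hD Z hn h3 hZ

end Pool.Agent.H72.G4
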