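import Pool.Agent.H72.G4.Model
import Pool.Agent.H72.G4.Jordan
import Pool.Agent.H21.G4.Glue

/-!
# The structure of a minimal counterexample: interface for the local arguments
-/

set_option autoImplicit false

namespace Pool.Agent.H72.G4

open Relation Pool.Agent.H13.DA

section defs

variable {V : Type*} [DecidableEq V]

/-- the three vertices are a face -/
def Face (T : Finset (V × V × V)) (x y z : V) : Prop := (x, y, z) ∈ T ∨ (x, z, y) ∈ T

/-- The package `T*`: every vertex is real or a dummy in a directed quad, all edges between real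
vertices are arcs, every triangle of the 1-skeleton is a face or the outer triangle, no inner real
vertex is a source or a sink. -/
structure Ts (T : Finset (V × V × V)) (D : V → V → Prop) (a b c : V) : Prop where
  pl : Pl T D [a, b, c]
  out : Out D a b c
  du : ∀ x, x ∈ verts T → ¬ Re D x → ∃ x1 x2 x3 x4, D x1 x2 ∧ D x2 x3 ∧ D x3 x4 ∧ D x4 x1 ∧
    ∀ y, Adj T x y ↔ y = x1 ∨ y = x2 ∨ y = x3 ∨ y = x4
  re : ∀ x y, Adj T x y → Re D x → Re D y → Ar D x y
  fc : ∀ x y z, Adj T x y → Adj T y z → Adj T z x →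
    Face T x y z ∨ (Tr a b c x ∧ Tr a b c y ∧ Tr a b c z)
  io : ∀ v, Re D v → ¬ Tr a b c v → (∃ u, D u v) ∧ ∃ u, D v u

/-- minimal counterexample without the condition on the carrier -/
structure MCw (T : Finset (V × V × V)) (D : V → V → Prop) (a b c : V) : Prop where
  pl : Pl T D [a, b, c]
  out : Out D a b c
  bad : ¬ Solv D (Tr a b c)
  min1 : ∀ (T' : Finset (V × V × V)) (D' : V → V → Prop) (a' b' c' : V), Pl T' D' [a', b', c'] →
    Out D' a' b' c' → nr D' < nr D → Solv D' (Tr a' b' c')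
  min2 : ∀ (T' : Finset (V × V × V)) (D' : V → V → Prop) (a' b' c' : V), Pl T' D' [a', b', c'] →
    Out D' a' b' c' → nr D' ≤ nr D → na D < na D' → Solv D' (Tr a' b' c')

/-- every 4-cycle through `v` is the union of two faces at `v`, or a quad -/
def Good (T : Finset (V × V × V)) (D : V → V → Prop) (v : V) : Prop :=
  ∀ p a o, Ar D v p → Ar D v a → p ≠ a → ¬ Ar D p a → o ≠ v → Ar D p o → Ar D a o →
    Ar D v o ∨ ∃ d, ¬ Re D d ∧ Adj T d v ∧ Adj T d p ∧ Adj T d a ∧ Adj T d o

/-- the statement of the contraction theorem (row T5) -/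
def FanT (V : Type*) [DecidableEq V] : Prop :=
  ∀ (T : Finset (V × V × V)) (l : List V) (v p : V), Disc T → IsBd T l → v ∈ verts T → v ∉ l →
    Adj T v p → (∀ m, Adj T v m → m ≠ p → Adj T p m → Face T v p m) →
    ∃ T' : Finset (V × V × V), Disc T' ∧ (∀ l, IsBd T l → IsBd T' l) ∧ v ∉ verts T' ∧
      ∀ x y, Adj T' x y ↔ (Adj T x y ∧ x ≠ v ∧ y ≠ v) ∨ (x = p ∧ Adj T v y ∧ y ≠ p) ∨
        (y = p ∧ Adj T v x ∧ x ≠ p)

/-- the digraph with `y` renamed to `x` (see also `Pool.Agent.H21.G4.Ct`) -/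
def Ren (D : V → V → Prop) (y x : V) (u w : V) : Prop :=
  u ≠ y ∧ w ≠ y ∧ u ≠ w ∧ (D u w ∨ (u = x ∧ D y w) ∨ (w = x ∧ D u y))

/-- the digraph without the vertex `v` (see also `Pool.Agent.H21.G4.Del`) -/
def Del (D : V → V → Prop) (v : V) (u w : V) : Prop := u ≠ v ∧ w ≠ v ∧ D u w

end defs

section contract

variable {V : Type*} [DecidableEq V] {T : Finset (V × V × V)} {D : V → V → Prop} {a b c : V}

omit [DecidableEq V] in
theorem ar_symm {x y : V} (h : Ar D x y) : Ar D y x := Or.symm h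

omit [DecidableEq V] in
theorem ar_re {x y : V} (h : Ar D x y) : Re D x ∧ Re D y := ⟨⟨y, h⟩, ⟨x, Or.symm h⟩⟩

theorem Pl.ar_adj {l : List V} (h : Pl T D l) {x y : V} (hxy : Ar D x y) : Adj T x y := by
  rcases hxy with k | k
  · exact h.adj _ _ k
  · exact (h.adj _ _ k).symm

omit [DecidableEq V] in
theorem adj_ne (hT : IsCx T) {x y : V} (h : Adj T x y) : x ≠ y := by
  rcases h with h | h
  · exact dir_ne hT h
  · exact (dir_ne hT h).symm

theorem ar_ne (hT : IsCx T) {l : List V} (h : Pl T D l) {x y : V} (hxy : Ar D x y) : x ≠ y :=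
  adj_ne hT (h.ar_adj hxy)

end contract

end Pool.Agent.H72.G4
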