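import Pool.Agent.H72.G4.Class
import Pool.Agent.H21.G4.P6
import Pool.Agent.H21.G4.P7

/-!
# A good inner vertex with `s + q ≤ 3` is of type `X1` or `Z6`
-/

set_option autoImplicit false

namespace Pool.Agent.H72.G4

open Relation Pool.Agent.H13.DA Pool.Agent.H21.G4 Pool.Agent.H96.G4 Pool.Agent.H42.G4
open Pool.Agent.H80.G4
open CT

variable {V : Type*} [DecidableEq V] {T : Finset (V × V × V)} {D : V → V → Prop} {a b c : V}

/-- type `X1` : in-neighbours `p`, `r`, out-neighbours `s`, `t`, one quad corner `(t, p)` -/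
def X1 (T : Finset (V × V × V)) (D : V → V → Prop) (v p r s t : V) : Prop :=
  (∀ u, Ar D v u ↔ u = p ∨ u = r ∨ u = s ∨ u = t) ∧ D p v ∧ D r v ∧ D v s ∧ D v t ∧
    D r p ∧ D r s ∧ D t s ∧ Face T v p r ∧ Face T v r s ∧ Face T v s t ∧ QC T D v t p

/-- type `Z6` -/
def Z6 (T : Finset (V × V × V)) (D : V → V → Prop) (v x0 y1 x2 y3 x4 y5 : V) : Prop :=
  (∀ u, Ar D v u ↔ u = x0 ∨ u = y1 ∨ u = x2 ∨ u = y3 ∨ u = x4 ∨ u = y5) ∧
    D x0 v ∧ D v y1 ∧ D x2 v ∧ D v y3 ∧ D x4 v ∧ D v y5 ∧ D x0 y1 ∧ D x2 y3 ∧ D x4 y5 ∧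
    Face T v x0 y1 ∧ Face T v x2 y3 ∧ Face T v x4 y5 ∧ QC T D v y1 x2 ∧ QC T D v y3 x4 ∧
    QC T D v y5 x0

/-- no dummy at a neighbour whose two corners are not quads -/
theorem Rot.nodummy (hT : Ts T D a b c) {v : V} (hv : ¬ Tr a b c v) {n : ℕ}
    {x : Fin (n + 1) → V} {w : Fin (n + 1) → CT} (h : Rot T D v n x w) {i : Fin (n + 1)}
    (h1 : w i ≠ q) (h2 : w (i + 1) ≠ q) {d : V} (hd : ¬ Re D d) (hdv : Adj T d v)
    (hdx : Adj T d (x (i + 1))) : False := by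
  have cx := hT.pl.disc.cx
  have k : Ar D v (x (i + 1)) := (h.nb _).2 ⟨i + 1, rfl⟩
  have r : ∀ j, Re D (x j) := fun j => (ar_re ((h.nb _).2 ⟨j, rfl⟩)).2
  rcases hT.fc v (x (i + 1)) d (hT.pl.ar_adj k) hdx.symm hdv with (m | m) | ⟨m, _⟩
  · have := (h.cor (i + 1)).ne_mid h2
    have e := cx.uniq m this
    exact hd (e ▸ r _)
  · have := (h.cor i).ne_mid h1
    have e := cx.uniq (cx.rot (cx.rot m)) (cx.rot (cx.rot this))
    exact hd (e ▸ r _)
  · exact hv m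

/-- a dummy adjacent to `v` and `x i` is at a quad corner of `x i` -/
theorem Rot.dummy_at (hT : Ts T D a b c) {v : V} (hv : ¬ Tr a b c v) {n : ℕ}
    {x : Fin (n + 1) → V} {w : Fin (n + 1) → CT} (h : Rot T D v n x w) {i : Fin (n + 1)}
    {d : V} (hd : ¬ Re D d) (hdv : Adj T d v)
    (hdx : Adj T d (x (i + 1))) : (w i = q ∧ Adj T d (x i)) ∨
      (w (i + 1) = q ∧ Adj T d (x (i + 1 + 1))) := by
  have cx := hT.pl.disc.cx
  have k : Ar D v (x (i + 1)) := (h.nb _).2 ⟨i + 1, rfl⟩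
  have r : ∀ j, Re D (x j) := fun j => (ar_re ((h.nb _).2 ⟨j, rfl⟩)).2
  rcases hT.fc v (x (i + 1)) d (hT.pl.ar_adj k) hdx.symm hdv with (m | m) | ⟨m, _⟩
  · right
    by_cases hw : w (i + 1) = q
    · have hc := h.cor (i + 1)
      rw [hw] at hc
      obtain ⟨⟨d', e1, e2, e3⟩, _⟩ := hc
      have := cx.uniq m e2
      subst this
      exact ⟨hw, Or.inl ⟨v, cx.rot e3⟩⟩
    · have := (h.cor (i + 1)).ne_mid hw
      have e := cx.uniq m this
      exact absurd (r _) (e ▸ hd)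
  · left
    by_cases hw : w i = q
    · have hc := h.cor i
      rw [hw] at hc
      obtain ⟨⟨d', e1, e2, e3⟩, _⟩ := hc
      have := cx.uniq (cx.rot (cx.rot m)) (cx.rot (cx.rot e3))
      subst this
      exact ⟨hw, Or.inr ⟨v, cx.rot e2⟩⟩
    · have := (h.cor i).ne_mid hw
      have e := cx.uniq (cx.rot (cx.rot m)) (cx.rot (cx.rot this))
      exact absurd (r _) (e ▸ hd)
  · exact absurd m hv

theorem hh4 (i : Fin 4) : i ≠ i + 1 + 1 := by revert i; decide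

theorem hh5 (i : Fin 5) : i ≠ i + 1 + 1 := by revert i; decide

theorem nb4 {v : V} {x : Fin 4 → V} {w : Fin 4 → CT} (h : Rot T D v 3 x w) (u : V) :
    Ar D v u ↔ u = x 0 ∨ u = x 1 ∨ u = x 2 ∨ u = x 3 := by
  rw [h.nb]
  constructor
  · rintro ⟨i, rfl⟩
    fin_cases i <;> simp
  · rintro (h | h | h | h) <;> exact ⟨_, h⟩

theorem nb5 {v : V} {x : Fin 5 → V} {w : Fin 5 → CT} (h : Rot T D v 4 x w) (u : V) :
    Ar D v u ↔ u = x 0 ∨ u = x 1 ∨ u = x 2 ∨ u = x 3 ∨ u = x 4 := by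
  rw [h.nb]
  constructor
  · rintro ⟨i, rfl⟩
    fin_cases i <;> simp
  · rintro (h | h | h | h | h) <;> exact ⟨_, h⟩

theorem nb6 {v : V} {x : Fin 6 → V} {w : Fin 6 → CT} (h : Rot T D v 5 x w) (u : V) :
    Ar D v u ↔ u = x 0 ∨ u = x 1 ∨ u = x 2 ∨ u = x 3 ∨ u = x 4 ∨ u = x 5 := by
  rw [h.nb]
  constructor
  · rintro ⟨i, rfl⟩
    fin_cases i <;> simp
  · rintro (h | h | h | h | h | h) <;> exact ⟨_, h⟩

/-- the degree four patterns -/
theorem low4f [Infinite V] (hM : MCw T D a b c) (hT : Ts T D a b c) {v : V}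
    (hv : ¬ Tr a b c v) (hg : Good T D v) {x : Fin 4 → V} {w : Fin 4 → CT}
    (R : Rot T D v 3 x w)
    (h : [w 0, w 1, w 2, w 3] ∈
      [[m, q, m, q], [q, q, m, q], [m, s1, s1, q], [q, s2, s2, m]]) : False := by
  have hF : FanT V := Pool.Agent.H13.G4.fanT
  have as := hT.pl.asymm
  have c0 := R.cor 0
  have c1 := R.cor 1
  have c2 := R.cor 2
  have c3 := R.cor 3
  have f1 : (0 : Fin 4) + 1 = 1 := rfl
  have f2 : (1 : Fin 4) + 1 = 2 := rfl
  have f3 : (2 : Fin 4) + 1 = 3 := rfl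
  have f4 : (3 : Fin 4) + 1 = 0 := rfl
  rw [f1] at c0
  rw [f2] at c1
  rw [f3] at c2
  rw [f4] at c3
  have hN := nb4 R
  have nn : ∀ i j : Fin 4, j ≠ i + 1 → i ≠ j + 1 → ¬ Ar D (x i) (x j) := by
    intro i j h1 h2 h3
    rcases R.adj hT hv h3 with ⟨k, _⟩ | ⟨k, _⟩
    · exact h1 k
    · exact h2 k
  have nq : ∀ i : Fin 4, w i = q → ¬ Ar D (x i) (x (i + 1)) := by
    intro i h1 h3
    rcases R.adj hT hv h3 with ⟨_, k⟩ | ⟨k, _⟩
    · exact k h1
    · exact absurd k (hh4 i)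
  have n02 : ¬ Ar D (x 0) (x 2) := nn 0 2 (by decide) (by decide)
  have n13 : ¬ Ar D (x 1) (x 3) := nn 1 3 (by decide) (by decide)
  simp only [List.mem_cons, List.cons.injEq, List.not_mem_nil, or_false, and_true] at h
  rcases h with ⟨w0, w1, w2, w3⟩ | ⟨w0, w1, w2, w3⟩ | ⟨w0, w1, w2, w3⟩ | ⟨w0, w1, w2, w3⟩
  · -- P5
    rw [w0] at c0; rw [w1] at c1; rw [w2] at c2; rw [w3] at c3
    have n12 := nq 1 w1
    have n30 := nq 3 w3
    rw [f2] at n12
    rw [f4] at n30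
    obtain ⟨_, ⟨a1, a2, a3⟩ | ⟨a1, a2, a3⟩⟩ := c0
    · have b3 : D (x 2) v := by
        rcases c1.2 with ⟨k, _⟩ | ⟨_, k⟩
        · exact absurd k (as _ _ a2)
        · exact k
      obtain ⟨_, ⟨d1, d2, d3⟩ | ⟨d1, d2, d3⟩⟩ := c2
      · exact red_P5 hF hM hT hv hg hN a1 a2 d1 d2 a3 d3 n02 (fun k => n30 (ar_symm k)) n12 n13
      · exact as _ _ b3 d1
    · have b3 : D v (x 2) := by
        rcases c1.2 with ⟨_, k⟩ | ⟨k, _⟩
        · exact k
        · exact absurd k (as _ _ a2)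
      obtain ⟨_, ⟨d1, d2, d3⟩ | ⟨d1, d2, d3⟩⟩ := c2
      · exact as _ _ b3 d1
      · refine red_P5 hF hM hT hv hg (x1 := x 1) (x2 := x 0) (x3 := x 3) (x4 := x 2) ?_
          a2 a1 d2 d1 a3 d3 n13 n12 (fun k => n30 (ar_symm k)) n02
        intro u
        rw [hN]
        tauto
  · -- P7
    rw [w0] at c0; rw [w1] at c1; rw [w2] at c2; rw [w3] at c3
    have n01 := nq 0 w0
    have n12 := nq 1 w1
    have n30 := nq 3 w3
    rw [f1] at n01
    rw [f2] at n12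
    rw [f4] at n30
    obtain ⟨⟨d, e1, e2, e3⟩, ⟨a1, a2⟩ | ⟨a1, a2⟩⟩ := c0
    · have b3 : D (x 2) v := by
        rcases c1.2 with ⟨k, _⟩ | ⟨_, k⟩
        · exact absurd k (as _ _ a2)
        · exact k
      obtain ⟨_, ⟨d1, d2, d3⟩ | ⟨d1, d2, d3⟩⟩ := c2
      · have cx := hT.pl.disc.cx
        exact red_P7 hM hT hv hg hN a1 a2 d1 d2 d3 n01 n02 (fun k => n30 (ar_symm k)) n12 n13
          (fun k => absurd (R.inj k) (by decide)) e1 (Or.inl ⟨_, cx.rot (cx.rot e2)⟩)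
          (Or.inr ⟨_, cx.rot e2⟩) (Or.inl ⟨_, cx.rot e3⟩)
      · exact as _ _ b3 d1
    · have b3 : D v (x 2) := by
        rcases c1.2 with ⟨_, k⟩ | ⟨k, _⟩
        · exact k
        · exact absurd k (as _ _ a2)
      obtain ⟨_, ⟨d1, d2, d3⟩ | ⟨d1, d2, d3⟩⟩ := c2
      · exact as _ _ b3 d1
      · have cx := hT.pl.disc.cx
        refine red_P7 hM hT hv hg (x1 := x 1) (x2 := x 0) (x3 := x 3) (x4 := x 2) ?_
          a2 a1 d2 d1 d3 (fun k => n01 (ar_symm k)) n13 n12 (fun k => n30 (ar_symm k)) n02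
          (fun k => absurd (R.inj k) (by decide)) e1 (Or.inl ⟨_, cx.rot (cx.rot e2)⟩)
          (Or.inl ⟨_, cx.rot e3⟩) (Or.inr ⟨_, cx.rot e2⟩)
        intro u
        rw [hN]
        tauto
  · -- C4
    have hnd : ∀ d, ¬ Re D d → Adj T d v → Adj T d (x 0) → ¬ Adj T d (x 2) := by
      intro d k1 k2 _ k4
      have k4' : Adj T d (x (1 + 1)) := k4
      exact R.nodummy hT hv (i := 1) (by rw [w1]; decide) (by rw [f2, w2]; decide) k1 k2 k4'
    rw [w0] at c0; rw [w1] at c1; rw [w2] at c2; rw [w3] at c3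
    have n30 := nq 3 w3
    rw [f4] at n30
    obtain ⟨_, ⟨a1, a2, a3⟩ | ⟨a1, a2, a3⟩⟩ := c0
    · obtain ⟨_, ⟨_, b2, b3⟩ | ⟨b1, _, _⟩⟩ := c1
      · obtain ⟨_, ⟨_, d2, d3⟩ | ⟨d1, _, _⟩⟩ := c2
        · exact red_C4 hF hM hT hv hg hN a1 a2 b2 d2 a3 b3 d3 n02 (fun k => n30 (ar_symm k))
            n13 hnd
        · exact as _ _ b2 d1
      · exact as _ _ a2 b1
    · obtain ⟨_, ⟨b1, _, _⟩ | ⟨_, b2, b3⟩⟩ := c1
      · exact as _ _ a2 b1
      · obtain ⟨_, ⟨d1, _, _⟩ | ⟨_, d2, d3⟩⟩ := c2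
        · exact as _ _ b2 d1
        · refine red_C4 (D := Rev D) hF (mcw_rev.2 hM) (ts_rev.2 hT) hv (good_rev.2 hg)
            (fun u => ar_rev.trans (hN u)) a1 a2 b2 d2 a3 b3 d3
            (fun k => n02 (ar_rev.1 k)) (fun k => n30 (ar_symm (ar_rev.1 k)))
            (fun k => n13 (ar_rev.1 k)) ?_
          intro d k1
          exact hnd d (fun k => k1 (re_rev.2 k))
  · -- C4 mirrored
    have hnd : ∀ d, ¬ Re D d → Adj T d v → Adj T d (x 0) → ¬ Adj T d (x 2) := by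
      intro d k1 k2 _ k4
      have k4' : Adj T d (x (1 + 1)) := k4
      exact R.nodummy hT hv (i := 1) (by rw [w1]; decide) (by rw [f2, w2]; decide) k1 k2 k4'
    rw [w0] at c0; rw [w1] at c1; rw [w2] at c2; rw [w3] at c3
    have n01 := nq 0 w0
    rw [f1] at n01
    obtain ⟨_, ⟨a1, a2, a3⟩ | ⟨a1, a2, a3⟩⟩ := c3
    · -- x3 in, x0 out
      obtain ⟨_, ⟨_, b2, _⟩ | ⟨b1, b2, b3⟩⟩ := c2
      · exact as _ _ b2 a1
      · obtain ⟨_, ⟨_, d2, _⟩ | ⟨d1, d2, d3⟩⟩ := c1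
        · exact as _ _ d2 b1
        · refine red_C4 (D := Rev D) hF (mcw_rev.2 hM) (ts_rev.2 hT) hv (good_rev.2 hg)
            (x1 := x 0) (x2 := x 3) (x3 := x 2) (x4 := x 1)
            (fun u => ar_rev.trans ((hN u).trans (by tauto))) a2 a1 b1 d1 a3 b3 d3
            (fun k => n02 (ar_rev.1 k)) (fun k => n01 (ar_rev.1 k))
            (fun k => n13 (ar_symm (ar_rev.1 k))) ?_
          intro d k1
          exact hnd d (fun k => k1 (re_rev.2 k))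
    · obtain ⟨_, ⟨b1, b2, b3⟩ | ⟨_, b2, _⟩⟩ := c2
      · obtain ⟨_, ⟨d1, d2, d3⟩ | ⟨_, d2, _⟩⟩ := c1
        · refine red_C4 hF hM hT hv hg (x1 := x 0) (x2 := x 3) (x3 := x 2) (x4 := x 1)
            (fun u => (hN u).trans (by tauto)) a2 a1 b1 d1 a3 b3 d3 n02 n01
            (fun k => n13 (ar_symm k)) hnd
        · exact as _ _ b1 d2
      · exact as _ _ a1 b2
/-- the type `X1` -/
theorem low4x (hT : Ts T D a b c) {v : V} {x : Fin 4 → V} {w : Fin 4 → CT}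
    (R : Rot T D v 3 x w) (h : [w 0, w 1, w 2, w 3] = [s2, m, s1, q]) :
    ∃ p r s t, X1 T D v p r s t := by
  have as := hT.pl.asymm
  have c0 := R.cor 0
  have c1 := R.cor 1
  have c2 := R.cor 2
  have c3 := R.cor 3
  have f1 : (0 : Fin 4) + 1 = 1 := rfl
  have f2 : (1 : Fin 4) + 1 = 2 := rfl
  have f3 : (2 : Fin 4) + 1 = 3 := rfl
  have f4 : (3 : Fin 4) + 1 = 0 := rfl
  rw [f1] at c0
  rw [f2] at c1
  rw [f3] at c2
  rw [f4] at c3
  have hN := nb4 R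
  simp only [List.cons.injEq, and_true] at h
  obtain ⟨w0, w1, w2, w3⟩ := h
  have q3 := c3
  rw [w3] at q3
  have qc := q3.qc
  rw [w0] at c0; rw [w1] at c1; rw [w2] at c2
  obtain ⟨t0, ⟨a1, a2, a3⟩ | ⟨a1, a2, a3⟩⟩ := c0
  · -- x0, x1 out
    obtain ⟨t1, ⟨b1, b2, b3⟩ | ⟨b1, b2, b3⟩⟩ := c1
    · exact absurd b1 (as _ _ a2)
    · obtain ⟨t2, ⟨d1, d2, d3⟩ | ⟨d1, d2, d3⟩⟩ := c2
      · exact absurd d1 (as _ _ b2)
      · refine ⟨x 3, x 2, x 1, x 0, fun u => (hN u).trans (by tauto), d2, d1, a2, a1, d3, b3,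
          a3, Or.inr t2, Or.inr t1, Or.inr t0, qc.symm⟩
  · obtain ⟨t1, ⟨b1, b2, b3⟩ | ⟨b1, b2, b3⟩⟩ := c1
    · obtain ⟨t2, ⟨d1, d2, d3⟩ | ⟨d1, d2, d3⟩⟩ := c2
      · exact ⟨x 0, x 1, x 2, x 3, hN, a1, a2, b2, d2, a3, b3, d3, Or.inl t0, Or.inl t1,
          Or.inl t2, qc⟩
      · exact absurd d1 (as _ _ b2)
    · exact absurd b1 (as _ _ a2)

/-- the degree five patterns -/
theorem low5 [Infinite V] (hM : MCw T D a b c) (hT : Ts T D a b c) {v : V}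
    (hv : ¬ Tr a b c v) (hg : Good T D v) {x : Fin 5 → V} {w : Fin 5 → CT}
    (R : Rot T D v 4 x w)
    (h : [w 0, w 1, w 2, w 3, w 4] ∈ [[m, q, m, s1, q], [q, s2, m, q, m]]) : False := by
  have hF : FanT V := Pool.Agent.H13.G4.fanT
  have as := hT.pl.asymm
  have c0 := R.cor 0
  have c1 := R.cor 1
  have c2 := R.cor 2
  have c3 := R.cor 3
  have c4 := R.cor 4
  have f1 : (0 : Fin 5) + 1 = 1 := rfl
  have f2 : (1 : Fin 5) + 1 = 2 := rfl
  have f3 : (2 : Fin 5) + 1 = 3 := rfl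
  have f4 : (3 : Fin 5) + 1 = 4 := rfl
  have f5 : (4 : Fin 5) + 1 = 0 := rfl
  rw [f1] at c0
  rw [f2] at c1
  rw [f3] at c2
  rw [f4] at c3
  rw [f5] at c4
  have hN := nb5 R
  have nn : ∀ i j : Fin 5, j ≠ i + 1 → i ≠ j + 1 → ¬ Ar D (x i) (x j) := by
    intro i j h1 h2 h3
    rcases R.adj hT hv h3 with ⟨k, _⟩ | ⟨k, _⟩
    · exact h1 k
    · exact h2 k
  have nq : ∀ i : Fin 5, w i = q → ¬ Ar D (x i) (x (i + 1)) := by
    intro i h1 h3
    rcases R.adj hT hv h3 with ⟨_, k⟩ | ⟨k, _⟩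
    · exact k h1
    · exact absurd k (hh5 i)
  have n02 : ¬ Ar D (x 0) (x 2) := nn 0 2 (by decide) (by decide)
  have n03 : ¬ Ar D (x 0) (x 3) := nn 0 3 (by decide) (by decide)
  have n13 : ¬ Ar D (x 1) (x 3) := nn 1 3 (by decide) (by decide)
  have n14 : ¬ Ar D (x 1) (x 4) := nn 1 4 (by decide) (by decide)
  have n24 : ¬ Ar D (x 2) (x 4) := nn 2 4 (by decide) (by decide)
  simp only [List.mem_cons, List.cons.injEq, List.not_mem_nil, or_false, and_true] at h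
  rcases h with ⟨w0, w1, w2, w3, w4⟩ | ⟨w0, w1, w2, w3, w4⟩
  · have n12 := nq 1 w1
    have n40 := nq 4 w4
    rw [f2] at n12
    rw [f5] at n40
    have hnd : ∀ d, ¬ Re D d → Adj T d v → Adj T d (x 2) → ¬ Adj T d (x 4) := by
      intro d k1 k2 k3 k4
      have k3' : Adj T d (x (1 + 1)) := k3
      have k4' : Adj T d (x (3 + 1)) := k4
      rcases R.dummy_at hT hv k1 k2 k3' with ⟨_, g1⟩ | ⟨g1, _⟩
      · rcases R.dummy_at hT hv k1 k2 k4' with ⟨g2, _⟩ | ⟨_, g2⟩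
        · rw [w3] at g2; exact absurd g2 (by decide)
        · have g2' : Adj T d (x 0) := g2
          -- x 0, x 1, x 2, x 4 all adjacent to d
          obtain ⟨s, t, o, z1, z2, z3, z4, z5, z6⟩ := quad_two hT k1 k2
          have in2 : ∀ i j : Fin 5, Adj T d (x i) → Adj T d (x j) → D (x i) v → D (x j) v →
              i = j := fun i j u1 u2 u3 u4 => R.inj (dummy_in hT k1 k2 u1 u2 u3 u4)
          have out2 : ∀ i j : Fin 5, Adj T d (x i) → Adj T d (x j) → D v (x i) → D v (x j) →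
              i = j := fun i j u1 u2 u3 u4 => R.inj (dummy_out hT k1 k2 u1 u2 u3 u4)
          rcases (hN (x 0)).2 (Or.inl rfl) with u0 | u0 <;>
          rcases (hN (x 1)).2 (by simp) with u1 | u1 <;>
          rcases (hN (x 2)).2 (by simp) with u2 | u2 <;>
          first
          | exact absurd (out2 0 1 g2' g1 u0 u1) (by decide)
          | exact absurd (out2 0 2 g2' k3 u0 u2) (by decide)
          | exact absurd (out2 1 2 g1 k3 u1 u2) (by decide)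
          | exact absurd (in2 0 1 g2' g1 u0 u1) (by decide)
          | exact absurd (in2 0 2 g2' k3 u0 u2) (by decide)
          | exact absurd (in2 1 2 g1 k3 u1 u2) (by decide)
      · rw [f2, w2] at g1; exact absurd g1 (by decide)
    rw [w0] at c0; rw [w1] at c1; rw [w2] at c2; rw [w3] at c3; rw [w4] at c4
    obtain ⟨_, ⟨a1, a2, a3⟩ | ⟨a1, a2, a3⟩⟩ := c0
    · have b3 : D (x 2) v := by
        rcases c1.2 with ⟨k, _⟩ | ⟨_, k⟩
        · exact absurd k (as _ _ a2)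
        · exact k
      obtain ⟨_, ⟨d1, d2, d3⟩ | ⟨d1, d2, d3⟩⟩ := c2
      · obtain ⟨_, ⟨_, e2, e3⟩ | ⟨e1, _, _⟩⟩ := c3
        · exact red_P6 hF hM hT hv hg hN a1 a2 d1 d2 e2 a3 d3 e3 n02 n03
            (fun k => n40 (ar_symm k)) n12 n13 n14 n24 hnd
        · exact as _ _ d2 e1
      · exact as _ _ b3 d1
    · have b3 : D v (x 2) := by
        rcases c1.2 with ⟨_, k⟩ | ⟨k, _⟩
        · exact k
        · exact absurd k (as _ _ a2)
      obtain ⟨_, ⟨d1, d2, d3⟩ | ⟨d1, d2, d3⟩⟩ := c2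
      · exact as _ _ b3 d1
      · obtain ⟨_, ⟨e1, _, _⟩ | ⟨_, e2, e3⟩⟩ := c3
        · exact as _ _ d2 e1
        · refine red_P6 (D := Rev D) hF (mcw_rev.2 hM) (ts_rev.2 hT) hv (good_rev.2 hg)
            (fun u => ar_rev.trans (hN u)) a1 a2 d1 d2 e2 a3 d3 e3
            (fun k => n02 (ar_rev.1 k)) (fun k => n03 (ar_rev.1 k))
            (fun k => n40 (ar_symm (ar_rev.1 k))) (fun k => n12 (ar_rev.1 k))
            (fun k => n13 (ar_rev.1 k)) (fun k => n14 (ar_rev.1 k))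
            (fun k => n24 (ar_rev.1 k)) ?_
          intro d k1
          exact hnd d (fun k => k1 (re_rev.2 k))
  · -- mirrored: q s2 m q m ; y1 = x0, y2 = x4, y3 = x3, y4 = x2, y5 = x1
    have n01 := nq 0 w0
    have n34 := nq 3 w3
    rw [f1] at n01
    rw [f4] at n34
    have hnd : ∀ d, ¬ Re D d → Adj T d v → Adj T d (x 3) → ¬ Adj T d (x 1) := by
      intro d k1 k2 k3 k4
      have k3' : Adj T d (x (2 + 1)) := k3
      have k4' : Adj T d (x (0 + 1)) := k4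
      rcases R.dummy_at hT hv k1 k2 k3' with ⟨g1, _⟩ | ⟨_, g1⟩
      · rw [w2] at g1; exact absurd g1 (by decide)
      · rcases R.dummy_at hT hv k1 k2 k4' with ⟨_, g2⟩ | ⟨g2, _⟩
        · have g1' : Adj T d (x 4) := g1
          have in2 : ∀ i j : Fin 5, Adj T d (x i) → Adj T d (x j) → D (x i) v → D (x j) v →
              i = j := fun i j u1 u2 u3 u4 => R.inj (dummy_in hT k1 k2 u1 u2 u3 u4)
          have out2 : ∀ i j : Fin 5, Adj T d (x i) → Adj T d (x j) → D v (x i) → D v (x j) →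
              i = j := fun i j u1 u2 u3 u4 => R.inj (dummy_out hT k1 k2 u1 u2 u3 u4)
          rcases (hN (x 0)).2 (Or.inl rfl) with u0 | u0 <;>
          rcases (hN (x 3)).2 (by simp) with u1 | u1 <;>
          rcases (hN (x 4)).2 (by simp) with u2 | u2 <;>
          first
          | exact absurd (out2 0 3 g2 k3 u0 u1) (by decide)
          | exact absurd (out2 0 4 g2 g1' u0 u2) (by decide)
          | exact absurd (out2 3 4 k3 g1' u1 u2) (by decide)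
          | exact absurd (in2 0 3 g2 k3 u0 u1) (by decide)
          | exact absurd (in2 0 4 g2 g1' u0 u2) (by decide)
          | exact absurd (in2 3 4 k3 g1' u1 u2) (by decide)
        · rw [f1, w1] at g2; exact absurd g2 (by decide)
    rw [w0] at c0; rw [w1] at c1; rw [w2] at c2; rw [w3] at c3; rw [w4] at c4
    obtain ⟨_, ⟨a1, a2, a3⟩ | ⟨a1, a2, a3⟩⟩ := c4
    · -- x4 in, x0 out
      have b3 : D v (x 3) := by
        rcases c3.2 with ⟨_, k⟩ | ⟨k, _⟩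
        · exact absurd k (as _ _ a1)
        · exact k
      obtain ⟨_, ⟨d1, d2, d3⟩ | ⟨d1, d2, d3⟩⟩ := c2
      · -- x2 in, x3 out
        obtain ⟨_, ⟨_, e2, _⟩ | ⟨e1, e2, e3⟩⟩ := c1
        · exact as _ _ e2 d1
        · refine red_P6 (D := Rev D) hF (mcw_rev.2 hM) (ts_rev.2 hT) hv (good_rev.2 hg)
            (x1 := x 0) (x2 := x 4) (x3 := x 3) (x4 := x 2) (x5 := x 1)
            (fun u => ar_rev.trans ((hN u).trans (by tauto))) a2 a1 d2 d1 e1 a3 d3 e3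
            (fun k => n03 (ar_rev.1 k)) (fun k => n02 (ar_rev.1 k))
            (fun k => n01 (ar_rev.1 k)) (fun k => n34 (ar_symm (ar_rev.1 k)))
            (fun k => n24 (ar_symm (ar_rev.1 k))) (fun k => n14 (ar_symm (ar_rev.1 k)))
            (fun k => n13 (ar_symm (ar_rev.1 k))) ?_
          intro d k1
          exact hnd d (fun k => k1 (re_rev.2 k))
      · exact as _ _ b3 d2
    · -- x4 out, x0 in
      obtain ⟨_, ⟨d1, d2, d3⟩ | ⟨d1, d2, d3⟩⟩ := c2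
      · exfalso
        rcases c3.2 with ⟨k, _⟩ | ⟨_, k⟩
        · exact as _ _ d2 k
        · exact as _ _ a1 k
      · obtain ⟨_, ⟨e1, e2, e3⟩ | ⟨_, e2, _⟩⟩ := c1
        · refine red_P6 hF hM hT hv hg
            (x1 := x 0) (x2 := x 4) (x3 := x 3) (x4 := x 2) (x5 := x 1)
            (fun u => (hN u).trans (by tauto)) a2 a1 d2 d1 e1 a3 d3 e3
            n03 n02 n01 (fun k => n34 (ar_symm k)) (fun k => n24 (ar_symm k))
            (fun k => n14 (ar_symm k)) (fun k => n13 (ar_symm k)) hnd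
        · exact as _ _ d1 e2

/-- the degree six pattern -/
theorem low6 (hT : Ts T D a b c) {v : V} {x : Fin 6 → V} {w : Fin 6 → CT}
    (R : Rot T D v 5 x w)
    (h : [w 0, w 1, w 2, w 3, w 4, w 5] = [m, q, m, q, m, q]) :
    ∃ x0 y1 x2 y3 x4 y5, Z6 T D v x0 y1 x2 y3 x4 y5 := by
  have as := hT.pl.asymm
  have c0 := R.cor 0
  have c1 := R.cor 1
  have c2 := R.cor 2
  have c3 := R.cor 3
  have c4 := R.cor 4
  have c5 := R.cor 5
  have f1 : (0 : Fin 6) + 1 = 1 := rfl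
  have f2 : (1 : Fin 6) + 1 = 2 := rfl
  have f3 : (2 : Fin 6) + 1 = 3 := rfl
  have f4 : (3 : Fin 6) + 1 = 4 := rfl
  have f5 : (4 : Fin 6) + 1 = 5 := rfl
  have f6 : (5 : Fin 6) + 1 = 0 := rfl
  rw [f1] at c0
  rw [f2] at c1
  rw [f3] at c2
  rw [f4] at c3
  rw [f5] at c4
  rw [f6] at c5
  have hN := nb6 R
  simp only [List.cons.injEq, and_true] at h
  obtain ⟨w0, w1, w2, w3, w4, w5⟩ := h
  rw [w0] at c0; rw [w1] at c1; rw [w2] at c2; rw [w3] at c3; rw [w4] at c4; rw [w5] at c5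
  have q1 := c1.qc
  have q3 := c3.qc
  have q5 := c5.qc
  have next : ∀ y z, ((D y v ∧ D v z) ∨ (D v y ∧ D z v)) →
      (D v y → D z v) ∧ (D y v → D v z) := by
    rintro y z (⟨k1, k2⟩ | ⟨k1, k2⟩)
    · exact ⟨fun k => absurd k (as _ _ k1), fun _ => k2⟩
    · exact ⟨fun _ => k2, fun k => absurd k (as _ _ k1)⟩
  obtain ⟨t0, ⟨a1, a2, a3⟩ | ⟨a1, a2, a3⟩⟩ := c0
  · have b1 := (next _ _ c1.2).1 a2
    obtain ⟨t2, ⟨d1, d2, d3⟩ | ⟨d1, d2, d3⟩⟩ := c2
    · have b2 := (next _ _ c3.2).1 d2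
      obtain ⟨t4, ⟨e1, e2, e3⟩ | ⟨e1, e2, e3⟩⟩ := c4
      · exact ⟨x 0, x 1, x 2, x 3, x 4, x 5, hN, a1, a2, d1, d2, e1, e2, a3, d3, e3,
          Or.inl t0, Or.inl t2, Or.inl t4, q1, q3, q5⟩
      · exact absurd b2 (as _ _ e1)
    · exact absurd b1 (as _ _ d1)
  · have b1 := (next _ _ c1.2).2 a2
    obtain ⟨t2, ⟨d1, d2, d3⟩ | ⟨d1, d2, d3⟩⟩ := c2
    · exact absurd b1 (as _ _ d1)
    · have b2 := (next _ _ c3.2).2 d2
      obtain ⟨t4, ⟨e1, e2, e3⟩ | ⟨e1, e2, e3⟩⟩ := c4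
      · exact absurd b2 (as _ _ e1)
      · exact ⟨x 1, x 0, x 5, x 4, x 3, x 2, fun u => (hN u).trans (by tauto), a2, a1, e2, e1,
          d2, d1, a3, e3, d3, Or.inr t0, Or.inr t4, Or.inr t2, q5.symm, q3.symm, q1.symm⟩

end Pool.Agent.H72.G4
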