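import Pool.Agent.H72.G4.Low

/-!
# A good inner vertex with `s + q ≤ 3` is of type `X1` or `Z6`
-/

set_option autoImplicit false

namespace Pool.Agent.H72.G4

open Relation Pool.Agent.H13.DA Pool.Agent.H21.G4 Pool.Agent.H96.G4 Pool.Agent.H42.G4
open Pool.Agent.H80.G4
open CT

variable {V : Type*} [DecidableEq V] {T : Finset (V × V × V)} {D : V → V → Prop} {a b c : V}

theorem par4 (hT : Ts T D a b c) {v : V} {x : Fin 4 → V} {w : Fin 4 → CT}
    (R : Rot T D v 3 x w) : par [w 0, w 1, w 2, w 3] = false := by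
  have c0 := (R.cor 0).ch hT
  have c1 := (R.cor 1).ch hT
  have c2 := (R.cor 2).ch hT
  have c3 := (R.cor 3).ch hT
  have f1 : (0 : Fin 4) + 1 = 1 := rfl
  have f2 : (1 : Fin 4) + 1 = 2 := rfl
  have f3 : (2 : Fin 4) + 1 = 3 := rfl
  have f4 : (3 : Fin 4) + 1 = 0 := rfl
  rw [f1] at c0
  rw [f2] at c1
  rw [f3] at c2
  rw [f4] at c3
  simp only [par, List.foldr_cons, List.foldr_nil, c0, c1, c2, c3]
  cases Dn D v (x 0) <;> cases Dn D v (x 1) <;> cases Dn D v (x 2) <;> cases Dn D v (x 3) <;> rfl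

theorem par5 (hT : Ts T D a b c) {v : V} {x : Fin 5 → V} {w : Fin 5 → CT}
    (R : Rot T D v 4 x w) : par [w 0, w 1, w 2, w 3, w 4] = false := by
  have c0 := (R.cor 0).ch hT
  have c1 := (R.cor 1).ch hT
  have c2 := (R.cor 2).ch hT
  have c3 := (R.cor 3).ch hT
  have c4 := (R.cor 4).ch hT
  have f1 : (0 : Fin 5) + 1 = 1 := rfl
  have f2 : (1 : Fin 5) + 1 = 2 := rfl
  have f3 : (2 : Fin 5) + 1 = 3 := rfl
  have f4 : (3 : Fin 5) + 1 = 4 := rfl
  have f5 : (4 : Fin 5) + 1 = 0 := rfl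
  rw [f1] at c0
  rw [f2] at c1
  rw [f3] at c2
  rw [f4] at c3
  rw [f5] at c4
  simp only [par, List.foldr_cons, List.foldr_nil, c0, c1, c2, c3, c4]
  cases Dn D v (x 0) <;> cases Dn D v (x 1) <;> cases Dn D v (x 2) <;> cases Dn D v (x 3) <;>
    cases Dn D v (x 4) <;> rfl

theorem par6 (hT : Ts T D a b c) {v : V} {x : Fin 6 → V} {w : Fin 6 → CT}
    (R : Rot T D v 5 x w) : par [w 0, w 1, w 2, w 3, w 4, w 5] = false := by
  have c0 := (R.cor 0).ch hT
  have c1 := (R.cor 1).ch hT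
  have c2 := (R.cor 2).ch hT
  have c3 := (R.cor 3).ch hT
  have c4 := (R.cor 4).ch hT
  have c5 := (R.cor 5).ch hT
  have f1 : (0 : Fin 6) + 1 = 1 := rfl
  have f2 : (1 : Fin 6) + 1 = 2 := rfl
  have f3 : (2 : Fin 6) + 1 = 3 := rfl
  have f4 : (3 : Fin 6) + 1 = 4 := rfl
  have f5 : (4 : Fin 6) + 1 = 5 := rfl
  have f6 : (5 : Fin 6) + 1 = 0 := rfl
  rw [f1] at c0
  rw [f2] at c1
  rw [f3] at c2
  rw [f4] at c3
  rw [f5] at c4
  rw [f6] at c5
  simp only [par, List.foldr_cons, List.foldr_nil, c0, c1, c2, c3, c4, c5]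
  cases Dn D v (x 0) <;> cases Dn D v (x 1) <;> cases Dn D v (x 2) <;> cases Dn D v (x 3) <;>
    cases Dn D v (x 4) <;> cases Dn D v (x 5) <;> rfl

theorem cnt4 (w : Fin 4 → CT) : cnt [w 0, w 1, w 2, w 3] =
    (Finset.univ.filter (fun i => (w i).ct = true)).card := by
  rw [Finset.card_filter, Fin.sum_univ_four]
  unfold cnt
  cases h0 : (w 0).ct <;> cases h1 : (w 1).ct <;> cases h2 : (w 2).ct <;>
    cases h3 : (w 3).ct <;> simp [List.filter_cons, h0, h1, h2, h3]

theorem cnt5 (w : Fin 5 → CT) : cnt [w 0, w 1, w 2, w 3, w 4] =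
    (Finset.univ.filter (fun i => (w i).ct = true)).card := by
  rw [Finset.card_filter, Fin.sum_univ_five]
  unfold cnt
  cases h0 : (w 0).ct <;> cases h1 : (w 1).ct <;> cases h2 : (w 2).ct <;>
    cases h3 : (w 3).ct <;> cases h4 : (w 4).ct <;> simp [List.filter_cons, h0, h1, h2, h3, h4]

theorem cnt6 (w : Fin 6 → CT) : cnt [w 0, w 1, w 2, w 3, w 4, w 5] =
    (Finset.univ.filter (fun i => (w i).ct = true)).card := by
  rw [Finset.card_filter, Fin.sum_univ_six]
  unfold cnt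
  cases h0 : (w 0).ct <;> cases h1 : (w 1).ct <;> cases h2 : (w 2).ct <;>
    cases h3 : (w 3).ct <;> cases h4 : (w 4).ct <;> cases h5 : (w 5).ct <;>
    simp [List.filter_cons, h0, h1, h2, h3, h4, h5]

/-- **Classification, word form**: a good inner real vertex with `s + q ≤ 3` has the word of
`X1` or of `Z6` (for a suitable start of the rotation). -/
theorem low_word [Infinite V] (hM : MCw T D a b c) (hT : Ts T D a b c) {v : V}
    (hv : ¬ Tr a b c v) (hvr : Re D v) (hg : Good T D v) (h3 : sv T D v + qv T D v ≤ 3) :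
    (∃ (x : Fin 4 → V) (w : Fin 4 → CT), Rot T D v 3 x w ∧
      [w 0, w 1, w 2, w 3] = [s2, m, s1, q]) ∨
    (∃ (x : Fin 6 → V) (w : Fin 6 → CT), Rot T D v 5 x w ∧
      [w 0, w 1, w 2, w 3, w 4, w 5] = [m, q, m, q, m, q]) := by
  have hF : FanT V := Pool.Agent.H13.G4.fanT
  obtain ⟨n, x, w, R⟩ := exists_rot hT hv hvr
  have hdeg := R.deg_le hM hT hv hg
  have hcv := R.cover hM hT hv hg
  have hct := R.cnt_le hT h3
  have hn : n ≤ 5 := by
    by_contra hn
    have : qv T D v = 3 ∧ sv T D v = 0 ∨ n + 1 ≤ 6 := by omega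
    omega
  have hcov : ∀ i, cov (w i) (w (i + 1)) = true := by
    intro i
    unfold cov
    rcases hcv i with h | h
    · rw [h]; rfl
    · rw [h]; exact Bool.or_true _
  interval_cases n
  · exact (red_deg3 hF hM hT hv hvr (x := x 0) (y := x 0) (z := x 0) (fun u hu => by
      obtain ⟨i, rfl⟩ := (R.nb u).1 hu
      fin_cases i; simp)).elim
  · exact (red_deg3 hF hM hT hv hvr (x := x 0) (y := x 1) (z := x 1) (fun u hu => by
      obtain ⟨i, rfl⟩ := (R.nb u).1 hu
      fin_cases i <;> simp)).elim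
  · exact (red_deg3 hF hM hT hv hvr (x := x 0) (y := x 1) (z := x 2) (fun u hu => by
      obtain ⟨i, rfl⟩ := (R.nb u).1 hu
      fin_cases i <;> simp)).elim
  · -- degree four
    have k := words4_aux (w 0) (w 1) (w 2) (w 3)
      (by simp only [Bool.and_eq_true]; exact ⟨⟨⟨hcov 0, hcov 1⟩, hcov 2⟩, hcov 3⟩)
      (by rw [cnt4]; exact decide_eq_true hct) (par4 hT R)
    obtain ⟨j, hj⟩ := pat4 w (of_decide_eq_true k)
    have R' := R.shift j
    rw [show ([[m, q, m, q], [q, q, m, q], [m, s1, s1, q], [q, s2, s2, m], [s2, m, s1, q]] :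
      List (List CT)) = [[m, q, m, q], [q, q, m, q], [m, s1, s1, q], [q, s2, s2, m]] ++
      [[s2, m, s1, q]] from rfl, List.mem_append] at hj
    rcases hj with hj | hj
    · exfalso
      refine low4f hM hT hv hg R' ?_
      simpa only [add_zero] using hj
    · left
      rw [List.mem_singleton] at hj
      exact ⟨_, _, R', by simpa only [add_zero] using hj⟩
  · -- degree five
    have k := words5_aux (w 0) (w 1) (w 2) (w 3) (w 4)
      (by simp only [Bool.and_eq_true]; exact ⟨⟨⟨⟨hcov 0, hcov 1⟩, hcov 2⟩, hcov 3⟩, hcov 4⟩)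
      (by rw [cnt5]; exact decide_eq_true hct) (par5 hT R)
    obtain ⟨j, hj⟩ := pat5 w (of_decide_eq_true k)
    exfalso
    refine low5 hM hT hv hg (R.shift j) ?_
    simpa only [add_zero] using hj
  · -- degree six
    have k := words6_aux (w 0) (w 1) (w 2) (w 3) (w 4) (w 5)
      (by
        simp only [Bool.and_eq_true]
        exact ⟨⟨⟨⟨⟨hcov 0, hcov 1⟩, hcov 2⟩, hcov 3⟩, hcov 4⟩, hcov 5⟩)
      (by rw [cnt6]; exact decide_eq_true hct) (par6 hT R)
    obtain ⟨j, hj⟩ := pat6 w (of_decide_eq_true k)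
    right
    exact ⟨_, _, R.shift j, by simpa only [add_zero] using hj⟩

/-- **Classification**: a good inner real vertex with `s + q ≤ 3` is `X1` or `Z6`. -/
theorem low_class [Infinite V] (hM : MCw T D a b c) (hT : Ts T D a b c) {v : V}
    (hv : ¬ Tr a b c v) (hvr : Re D v) (hg : Good T D v) (h3 : sv T D v + qv T D v ≤ 3) :
    (∃ p r s t, X1 T D v p r s t) ∨ ∃ x0 y1 x2 y3 x4 y5, Z6 T D v x0 y1 x2 y3 x4 y5 := by
  rcases low_word hM hT hv hvr hg h3 with ⟨x, w, R, h⟩ | ⟨x, w, R, h⟩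
  · exact Or.inl (low4x hT R h)
  · exact Or.inr (low6 hT R h)

end Pool.Agent.H72.G4
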