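import Pool.Agent.H96.G4.Five
import Pool.Agent.H32.G4.Ear
import Pool.Agent.H72.G4.LowC

/-!
# The common form of the path contraction rows
-/

set_option autoImplicit false

namespace Pool.Agent.H72.G4

open Relation Pool.Agent.H13.DA Pool.Agent.H21.G4 Pool.Agent.H96.G4 Pool.Agent.H32.G4
open Pool.Agent.H13.G4

variable {V : Type*} [DecidableEq V]

/-- inner real vertex of the region -/
def In (X : Finset (V × V × V)) (D : V → V → Prop) (Z : List V) (v : V) : Prop :=
  v ∈ verts X ∧ Re D v ∧ v ∉ Z

/-- the quad corner `j` of the rotation `x` at `u` is not open for a path contraction: if all four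
corners of the quad are inner, the two far edges are not both short in a real triangle -/
def PCok (T X : Finset (V × V × V)) (D : V → V → Prop) (Z : List V) (u : V) {n : ℕ}
    (x : Fin (n + 1) → V) (j : Fin (n + 1)) : Prop :=
  ∀ f d, ¬ Re D d → (∀ y, Adj T d y ↔ y = u ∨ y = x j ∨ y = f ∨ y = x (j + 1)) →
    ((D u (x j) ∧ D (x j) f ∧ D f (x (j + 1)) ∧ D (x (j + 1)) u) ∨
      (D (x j) u ∧ D f (x j) ∧ D (x (j + 1)) f ∧ D u (x (j + 1)))) →
    In X D Z (x j) → In X D Z f → In X D Z (x (j + 1)) →
    Sh T D (x j) f → Sh T D f (x (j + 1)) → False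

end Pool.Agent.H72.G4
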