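import Pool.Agent.H72.G4.Struct

/-!
# No contractible arc in a minimal counterexample
-/

set_option autoImplicit false

namespace Pool.Agent.H72.G4

open Relation Pool.Agent.H13.DA Pool.Agent.H21.G4

variable {V : Type*} [DecidableEq V] {T : Finset (V × V × V)} {D : V → V → Prop} {a b c : V}

/-- a common neighbour of the ends of an edge with an inner end is an apex of the edge -/
theorem Ts.common (hT : Ts T D a b c) {x y p r u : V} (hy : ¬ Tr a b c y)
    (h1 : (x, y, p) ∈ T) (h2 : (y, x, r) ∈ T) (hx : Adj T x u) (hyu : Adj T y u) :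
    u = p ∨ u = r := by
  have cx := hT.pl.disc.cx
  rcases hT.fc x y u (Or.inl ⟨p, h1⟩) hyu hx.symm with (h | h) | ⟨_, h, _⟩
  · exact Or.inl (cx.uniq h h1)
  · exact Or.inr (cx.uniq (cx.rot (cx.rot h)) h2)
  · exact absurd h hy

theorem ren_pl (hF : FanT V) (hT : Ts T D a b c) {x y p r : V} (hy : ¬ Tr a b c y)
    (hyr : Re D y) (hg : Good T D y)
    (h1 : (x, y, p) ∈ T) (h2 : (y, x, r) ∈ T) (hp : Re D p) (hr : Re D r) (hxy : Ar D x y)
    (sp : D p x ↔ D p y) (sr : D r x ↔ D r y) :
    ∃ T' : Finset (V × V × V), Pl T' (Ct D y x) [a, b, c] := by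
  have cx := hT.pl.disc.cx
  have hyv : y ∈ verts T := hT.pl.re_mem hyr
  have hyl : y ∉ [a, b, c] := by
    intro h
    apply hy
    simpa [Tr] using h
  have hyx : Adj T y x := Or.inr ⟨p, h1⟩
  have xy : x ≠ y := adj_ne cx hyx.symm
  have com : ∀ u, Ar D x u → Ar D y u → (D u x ↔ D u y) := by
    intro u hu1 hu2
    rcases hT.common hy h1 h2 (hT.pl.ar_adj hu1) (hT.pl.ar_adj hu2) with rfl | rfl
    · exact sp
    · exact sr
  -- the same with the other direction
  have com' : ∀ u, Ar D x u → Ar D y u → (D x u ↔ D y u) := by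
    intro u hu1 hu2
    have h := com u hu1 hu2
    constructor
    · intro h3
      rcases hu2 with h4 | h4
      · exact h4
      · exact absurd (h.2 h4) (hT.pl.asymm _ _ h3)
    · intro h3
      rcases hu1 with h4 | h4
      · exact h4
      · exact absurd (h.1 h4) (hT.pl.asymm _ _ h3)
  obtain ⟨T', d1, d2, d3, d4⟩ := hF T [a, b, c] y x hT.pl.disc hT.pl.bd hyv hyl hyx (by
    intro m hm1 hm2 hm3
    rcases hT.fc y x m hyx hm3 hm1.symm with h | ⟨h, _⟩
    · exact h
    · exact absurd h hy)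
  -- no dummy at the edge `x y`
  have nod : ∀ d, ¬ Re D d → Adj T d x → Adj T d y → False := by
    intro d hd hdx hdy
    rcases hT.common hy h1 h2 hdx.symm hdy.symm with rfl | rfl
    · exact hd hp
    · exact hd hr
  have key : ∀ w z, (D x w ∨ D y w) → D w z → (D z x ∨ D z y) → False := by
    rintro w z (k1 | k1) k2 (k3 | k3)
    · exact hT.pl.tri _ _ _ k1 k2 k3
    · -- x → w → z → y
      by_cases hxz : Ar D x z
      · have := (com z hxz (Or.inr k3)).2 k3
        exact hT.pl.tri _ _ _ k1 k2 this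
      · have hxz' : x ≠ z := by
          rintro rfl
          exact hT.pl.asymm _ _ k1 k2
        have hwy : w ≠ y := by
          rintro rfl
          exact hT.pl.asymm _ _ k2 k3
        rcases hg x z w (ar_symm hxy) (Or.inr k3) hxz' hxz hwy (Or.inl k1) (Or.inr k2) with
          h5 | ⟨d, e1, e2, e3, e4, e5⟩
        · have := (com' w (Or.inl k1) h5).1 k1
          exact hT.pl.tri _ _ _ this k2 k3
        · exact nod d e1 e3 e2
    · -- y → w → z → x
      by_cases hxw : Ar D x w
      · have := (com' w hxw (Or.inl k1)).2 k1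
        exact hT.pl.tri _ _ _ this k2 k3
      · have hxw' : x ≠ w := by
          rintro rfl
          exact hT.pl.asymm _ _ k2 k3
        have hzy : z ≠ y := by
          rintro rfl
          exact hT.pl.asymm _ _ k1 k2
        rcases hg x w z (ar_symm hxy) (Or.inl k1) hxw' hxw hzy (Or.inr k3) (Or.inl k2) with
          h5 | ⟨d, e1, e2, e3, e4, e5⟩
        · have := (com z (Or.inr k3) h5).1 k3
          exact hT.pl.tri _ _ _ k1 k2 this
        · exact nod d e1 e3 e2
    · exact hT.pl.tri _ _ _ k1 k2 k3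
  refine ⟨T', d1, d2 _ hT.pl.bd, ?_, ?_, ?_⟩
  · rintro u w ⟨hu, hw, huw, h | ⟨rfl, h⟩ | ⟨rfl, h⟩⟩
    · exact (d4 u w).2 (Or.inl ⟨hT.pl.adj _ _ h, hu, hw⟩)
    · exact (d4 u w).2 (Or.inr (Or.inl ⟨rfl, hT.pl.adj _ _ h, huw.symm⟩))
    · exact (d4 u w).2 (Or.inr (Or.inr ⟨rfl, (hT.pl.adj _ _ h).symm, huw⟩))
  · rintro u w ⟨hu, hw, huw, h⟩ ⟨_, _, _, h'⟩
    rcases h with h | ⟨rfl, h⟩ | ⟨rfl, h⟩
    · rcases h' with h' | ⟨rfl, h'⟩ | ⟨rfl, h'⟩
      · exact hT.pl.asymm _ _ h h'
      · -- w = x : D u x, D y u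
        have := (com u (Or.inr h) (Or.inl h')).1 h
        exact hT.pl.asymm _ _ h' this
      · -- u = x : D x w, D w y
        have := (com w (Or.inl h) (Or.inr h')).2 h'
        exact hT.pl.asymm _ _ h this
    · rcases h' with h' | ⟨rfl, h'⟩ | ⟨_, h'⟩
      · -- u = x : D y w, D w x
        have := (com w (Or.inr h') (Or.inl h)).1 h'
        exact hT.pl.asymm _ _ h this
      · exact huw rfl
      · exact hT.pl.asymm _ _ h h'
    · rcases h' with h' | ⟨_, h'⟩ | ⟨rfl, h'⟩
      · -- w = x : D u y, D x u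
        have := (com u (Or.inl h') (Or.inr h)).2 h
        exact hT.pl.asymm _ _ h' this
      · exact hT.pl.asymm _ _ h' h
      · exact huw rfl
  · rintro u w z ⟨hu, hw, huw, h⟩ ⟨_, hz, hwz, h'⟩ ⟨_, _, hzu, h''⟩
    by_cases e1 : u = x
    · subst e1
      refine key w z ?_ ?_ ?_
      · rcases h with h | ⟨_, h⟩ | ⟨h, _⟩
        · exact Or.inl h
        · exact Or.inr h
        · exact absurd h.symm huw
      · rcases h' with h | ⟨h, _⟩ | ⟨h, _⟩
        · exact h
        · exact absurd h.symm huw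
        · exact absurd h hzu
      · rcases h'' with h | ⟨h, _⟩ | ⟨_, h⟩
        · exact Or.inl h
        · exact absurd h hzu
        · exact Or.inr h
    by_cases e2 : w = x
    · subst e2
      refine key z u ?_ ?_ ?_
      · rcases h' with h | ⟨_, h⟩ | ⟨h, _⟩
        · exact Or.inl h
        · exact Or.inr h
        · exact absurd h.symm hwz
      · rcases h'' with h | ⟨h, _⟩ | ⟨h, _⟩
        · exact h
        · exact absurd h.symm hwz
        · exact absurd h e1
      · rcases h with h | ⟨h, _⟩ | ⟨_, h⟩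
        · exact Or.inl h
        · exact absurd h e1
        · exact Or.inr h
    by_cases e3 : z = x
    · subst e3
      refine key u w ?_ ?_ ?_
      · rcases h'' with h | ⟨_, h⟩ | ⟨h, _⟩
        · exact Or.inl h
        · exact Or.inr h
        · exact absurd h e1
      · rcases h with h | ⟨h, _⟩ | ⟨h, _⟩
        · exact h
        · exact absurd h e1
        · exact absurd h e2
      · rcases h' with h | ⟨h, _⟩ | ⟨_, h⟩
        · exact Or.inl h
        · exact absurd h e2
        · exact Or.inr h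
    have g1 : D u w := by
      rcases h with h | ⟨h, _⟩ | ⟨h, _⟩
      · exact h
      · exact absurd h e1
      · exact absurd h e2
    have g2 : D w z := by
      rcases h' with h | ⟨h, _⟩ | ⟨h, _⟩
      · exact h
      · exact absurd h e2
      · exact absurd h e3
    have g3 : D z u := by
      rcases h'' with h | ⟨h, _⟩ | ⟨h, _⟩
      · exact h
      · exact absurd h e3
      · exact absurd h e1
    exact hT.pl.tri _ _ _ g1 g2 g3

theorem nr_ren (hfin : {x | Re D x}.Finite) {x y : V} (hy : Re D y) (hxy : Ar D x y) :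
    nr (Ct D y x) < nr D := by
  refine Set.ncard_lt_ncard ?_ hfin
  refine ⟨?_, fun h => ?_⟩
  · rintro u ⟨w, h | h⟩
    · obtain ⟨_, _, _, k | ⟨rfl, _⟩ | ⟨_, k⟩⟩ := h
      · exact ⟨w, Or.inl k⟩
      · exact ⟨y, hxy⟩
      · exact ⟨y, Or.inl k⟩
    · obtain ⟨_, _, _, k | ⟨_, k⟩ | ⟨rfl, _⟩⟩ := h
      · exact ⟨w, Or.inr k⟩
      · exact ⟨y, Or.inr k⟩
      · exact ⟨y, hxy⟩
  · have hy' := h hy
    obtain ⟨w, k | k⟩ := hy'
    · exact k.1 rfl
    · exact k.2.1 rfl

/-- **No contractible arc**: an arc `x y` with `y` inner and good, on two real triangles whose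
apexes are not mid vertices, does not exist in a minimal counterexample. -/
theorem no_contract (hF : FanT V)
    (hM : MCw T D a b c) (hT : Ts T D a b c) {x y p r : V} (hy : ¬ Tr a b c y)
    (hg : Good T D y)
    (h1 : (x, y, p) ∈ T) (h2 : (y, x, r) ∈ T) (hp : Re D p) (hr : Re D r) (hxy : Ar D x y)
    (sp : D p x ↔ D p y) (sr : D r x ↔ D r y) : False := by
  have cx := hT.pl.disc.cx
  have hyr : Re D y := (ar_re hxy).2
  obtain ⟨T', hT'⟩ := ren_pl hF hT hy hyr hg h1 h2 hp hr hxy sp sr
  have hne : ∀ u w, Tr a b c u → Tr a b c w → Ar D u w → Ar (Ct D y x) u w := by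
    intro u w hu hw huw
    have e1 : u ≠ y := fun h => hy (h ▸ hu)
    have e2 : w ≠ y := fun h => hy (h ▸ hw)
    have e3 : u ≠ w := adj_ne cx (hT.pl.ar_adj huw)
    rcases huw with h | h
    · exact Or.inl ⟨e1, e2, e3, Or.inl h⟩
    · exact Or.inr ⟨e2, e1, e3.symm, Or.inl h⟩
  have ta : Tr a b c a := Or.inl rfl
  have tb : Tr a b c b := Or.inr (Or.inl rfl)
  have tc : Tr a b c c := Or.inr (Or.inr rfl)
  have hO : Out (Ct D y x) a b c := ⟨hne _ _ ta tb hT.out.1, hne _ _ tb tc hT.out.2.1,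
    hne _ _ tc ta hT.out.2.2⟩
  have hs := hM.min1 T' _ a b c hT' hO (nr_ren hT.pl.re_fin hyr hxy)
  have hout : ∀ u w, Tr a b c u → Tr a b c w → u ≠ w → Ar D u w := by
    obtain ⟨o1, o2, o3⟩ := hT.out
    rintro u w (rfl | rfl | rfl) (rfl | rfl | rfl) huw
    · exact absurd rfl huw
    · exact o1
    · exact ar_symm o3
    · exact ar_symm o1
    · exact absurd rfl huw
    · exact o2
    · exact o3
    · exact ar_symm o2
    · exact absurd rfl huw
  refine hM.bad (solv_contract (ar_ne cx hT.pl hxy).symm hy hT.pl.asymm ?_ hs)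
  intro z hx hz hzx
  have hxz : Ar D x z := hout x z hx hz hzx.symm
  have com : ∀ u, Ar D x u → Ar D y u → (D u x ↔ D u y) := by
    intro u hu1 hu2
    rcases hT.common hy h1 h2 (hT.pl.ar_adj hu1) (hT.pl.ar_adj hu2) with rfl | rfl
    · exact sp
    · exact sr
  constructor
  · intro h
    rcases hxz with k | k
    · exact k
    · exact absurd ((com z (Or.inr k) (Or.inl h)).1 k) (hT.pl.asymm _ _ h)
  · intro h
    exact (com z hxz (Or.inr h)).2 h

end Pool.Agent.H72.G4
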