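import Mathlib.Order.Extension.Linear
import Mathlib.Tactic

/-!
# Strict total orders: amalgamation and insertion of one element
-/

set_option autoImplicit false

namespace Pool.Agent.H72.G4

variable {W : Type*}

/-- a strict total order -/
structure STO (r : W → W → Prop) : Prop where
  irr : ∀ x, ¬ r x x
  tr : ∀ x y z, r x y → r y z → r x z
  tot : ∀ x y, r x y ∨ x = y ∨ r y x

theorem STO.asymm {r : W → W → Prop} (h : STO r) {x y : W} (h1 : r x y) : ¬ r y x :=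
  fun h2 => h.irr x (h.tr x y x h1 h2)

theorem STO.not {r : W → W → Prop} (h : STO r) {x y : W} (hn : x ≠ y) : ¬ r x y ↔ r y x := by
  constructor
  · intro h1
    rcases h.tot x y with h2 | h2 | h2
    · exact absurd h2 h1
    · exact absurd h2 hn
    · exact h2
  · exact fun h1 h2 => h.asymm h1 h2

/-- a transitive irreflexive relation extends to a strict total order -/
theorem exists_sto (r : W → W → Prop) (hi : ∀ x, ¬ r x x) (ht : ∀ x y z, r x y → r y z → r x z) :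
    ∃ t : W → W → Prop, STO t ∧ ∀ x y, r x y → t x y := by
  have hp : IsPartialOrder W (fun x y => x = y ∨ r x y) :=
    { refl := fun x => Or.inl rfl
      trans := by
        rintro x y z (rfl | h1) (rfl | h2)
        · exact Or.inl rfl
        · exact Or.inr h2
        · exact Or.inr h1
        · exact Or.inr (ht _ _ _ h1 h2)
      antisymm := by
        rintro x y (h1 | h1) (h2 | h2)
        · exact h1
        · exact h1
        · exact h2.symm
        · exact absurd (ht _ _ _ h1 h2) (hi x) }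
  obtain ⟨s, hs, hrs⟩ := extend_partialOrder (fun x y => x = y ∨ r x y)
  refine ⟨fun x y => s x y ∧ x ≠ y, ⟨fun x h => h.2 rfl, ?_, ?_⟩, ?_⟩
  · rintro x y z ⟨h1, h2⟩ ⟨h3, h4⟩
    refine ⟨hs.trans x y z h1 h3, ?_⟩
    rintro rfl
    exact h2 (hs.antisymm x y h1 h3)
  · intro x y
    by_cases hxy : x = y
    · exact Or.inr (Or.inl hxy)
    · rcases hs.total x y with h | h
      · exact Or.inl ⟨h, hxy⟩
      · exact Or.inr (Or.inr ⟨h, fun e => hxy e.symm⟩)
  · intro x y h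
    refine ⟨hrs x y (Or.inr h), ?_⟩
    rintro rfl
    exact hi x h

/-- **Amalgamation**: two strict total orders which agree on `A ∩ B`. -/
theorem amal {r s : W → W → Prop} (hr : STO r) (hs : STO s) (A B : W → Prop)
    (h : ∀ x y, A x → B x → A y → B y → (r x y ↔ s x y)) :
    ∃ t : W → W → Prop, STO t ∧ (∀ x y, A x → A y → (t x y ↔ r x y)) ∧
      (∀ x y, B x → B y → (t x y ↔ s x y)) := by
  let a : W → W → Prop := fun x y => A x ∧ A y ∧ r x y
  let b : W → W → Prop := fun x y => B x ∧ B y ∧ s x y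
  let R : W → W → Prop := fun x y => a x y ∨ b x y ∨ (∃ c, a x c ∧ b c y) ∨ ∃ c, b x c ∧ a c y
  have taa : ∀ x y z, a x y → a y z → a x z := fun x y z h1 h2 =>
    ⟨h1.1, h2.2.1, hr.tr _ _ _ h1.2.2 h2.2.2⟩
  have tbb : ∀ x y z, b x y → b y z → b x z := fun x y z h1 h2 =>
    ⟨h1.1, h2.2.1, hs.tr _ _ _ h1.2.2 h2.2.2⟩
  have ab : ∀ x y, a x y → B x → B y → b x y := fun x y h1 h2 h3 =>
    ⟨h2, h3, (h x y h1.1 h2 h1.2.1 h3).1 h1.2.2⟩
  have ba : ∀ x y, b x y → A x → A y → a x y := fun x y h1 h2 h3 =>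
    ⟨h2, h3, (h x y h2 h1.1 h3 h1.2.1).2 h1.2.2⟩
  have Ra : ∀ x y, R x y → A x → A y → a x y := by
    rintro x y (h1 | h1 | ⟨c, h1, h2⟩ | ⟨c, h1, h2⟩) hx hy
    · exact h1
    · exact ba x y h1 hx hy
    · exact taa _ _ _ h1 (ba _ _ h2 h1.2.1 hy)
    · exact taa _ _ _ (ba _ _ h1 hx h2.1) h2
  have Rb : ∀ x y, R x y → B x → B y → b x y := by
    rintro x y (h1 | h1 | ⟨c, h1, h2⟩ | ⟨c, h1, h2⟩) hx hy
    · exact ab x y h1 hx hy
    · exact h1
    · exact tbb _ _ _ (ab _ _ h1 hx h2.1) h2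
    · exact tbb _ _ _ h1 (ab _ _ h2 h1.2.1 hy)
  have Rt : ∀ x y z, R x y → R y z → R x z := by
    rintro x y z (h1 | h1 | ⟨c, h1, h2⟩ | ⟨c, h1, h2⟩) (h3 | h3 | ⟨d, h3, h4⟩ | ⟨d, h3, h4⟩)
    · exact Or.inl (taa _ _ _ h1 h3)
    · exact Or.inr (Or.inr (Or.inl ⟨y, h1, h3⟩))
    · exact Or.inr (Or.inr (Or.inl ⟨d, taa _ _ _ h1 h3, h4⟩))
    · exact Or.inl (taa _ _ _ h1 (taa _ _ _ (ba _ _ h3 h1.2.1 h4.1) h4))
    · exact Or.inr (Or.inr (Or.inr ⟨y, h1, h3⟩))
    · exact Or.inr (Or.inl (tbb _ _ _ h1 h3))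
    · exact Or.inr (Or.inl (tbb _ _ _ h1 (tbb _ _ _ (ab _ _ h3 h1.2.1 h4.1) h4)))
    · exact Or.inr (Or.inr (Or.inr ⟨d, tbb _ _ _ h1 h3, h4⟩))
    · exact Or.inl (taa _ _ _ h1 (taa _ _ _ (ba _ _ h2 h1.2.1 h3.1) h3))
    · exact Or.inr (Or.inr (Or.inl ⟨c, h1, tbb _ _ _ h2 h3⟩))
    · exact Or.inr (Or.inr (Or.inl ⟨d, taa _ _ _ h1 (taa _ _ _ (ba _ _ h2 h1.2.1 h3.1) h3), h4⟩))
    · refine Or.inl (taa _ _ _ h1 (taa _ _ _ (ba _ _ (tbb _ _ _ h2 h3) h1.2.1 h4.1) h4))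
    · exact Or.inr (Or.inr (Or.inr ⟨c, h1, taa _ _ _ h2 h3⟩))
    · exact Or.inr (Or.inl (tbb _ _ _ h1 (tbb _ _ _ (ab _ _ h2 h1.2.1 h3.1) h3)))
    · refine Or.inr (Or.inl (tbb _ _ _ h1 (tbb _ _ _ (ab _ _ (taa _ _ _ h2 h3) h1.2.1 h4.1) h4)))
    · exact Or.inr (Or.inr (Or.inr ⟨d, tbb _ _ _ h1 (tbb _ _ _ (ab _ _ h2 h1.2.1 h3.1) h3), h4⟩))
  have Ri : ∀ x, ¬ R x x := by
    rintro x (h1 | h1 | ⟨c, h1, h2⟩ | ⟨c, h1, h2⟩)
    · exact hr.irr x h1.2.2
    · exact hs.irr x h1.2.2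
    · exact hr.irr x (taa _ _ _ h1 (ba _ _ h2 h1.2.1 h1.1)).2.2
    · exact hs.irr x (tbb _ _ _ h1 (ab _ _ h2 h1.2.1 h1.1)).2.2
  obtain ⟨t, ht, hRt⟩ := exists_sto R Ri Rt
  refine ⟨t, ht, ?_, ?_⟩
  · intro x y hx hy
    constructor
    · intro h1
      rcases hr.tot x y with h2 | h2 | h2
      · exact h2
      · exact absurd (h2 ▸ h1) (ht.irr y)
      · exact absurd (hRt y x (Or.inl ⟨hy, hx, h2⟩)) (ht.asymm h1)
    · exact fun h1 => hRt x y (Or.inl ⟨hx, hy, h1⟩)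
  · intro x y hx hy
    constructor
    · intro h1
      rcases hs.tot x y with h2 | h2 | h2
      · exact h2
      · exact absurd (h2 ▸ h1) (ht.irr y)
      · exact absurd (hRt y x (Or.inr (Or.inl ⟨hy, hx, h2⟩))) (ht.asymm h1)
    · exact fun h1 => hRt x y (Or.inr (Or.inl ⟨hx, hy, h1⟩))

/-- **Insertion**: move `v` to the position above exactly the elements of the lower set `P`. -/
theorem insert_at {r : W → W → Prop} (hr : STO r) (v : W) (P : W → Prop)
    (hP : ∀ x y, x ≠ v → y ≠ v → P y → r x y → P x) :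
    ∃ t : W → W → Prop, STO t ∧ (∀ x y, x ≠ v → y ≠ v → (t x y ↔ r x y)) ∧
      (∀ x, x ≠ v → (t x v ↔ P x)) ∧ ∀ x, x ≠ v → (t v x ↔ ¬ P x) := by
  classical
  refine ⟨fun x y => if x = v then (y ≠ v ∧ ¬ P y) else if y = v then P x else r x y,
    ⟨?_, ?_, ?_⟩, ?_, ?_, ?_⟩
  · intro x
    by_cases hx : x = v
    · simp [hx]
    · simp only [hx, if_false]
      exact hr.irr x
  · intro x y z
    by_cases hx : x = v <;> by_cases hy : y = v <;> by_cases hz : z = v <;>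
      simp only [hx, hy, hz, if_true, if_false, ne_eq, not_true, false_and, not_false_eq_true,
        true_and, IsEmpty.forall_iff, implies_true]
    · intro h1 h2
      exact absurd h2 h1
    · intro h1 h2 h3
      exact h1 (hP y z hy hz h3 h2)
    · intro h1 h2
      rcases hr.tot x z with h3 | h3 | h3
      · exact h3
      · exact absurd (h3 ▸ h1) h2
      · exact absurd (hP z x hz hx h1 h3) h2
    · intro h1 h2
      exact hP x y hx hy h2 h1
    · exact hr.tr x y z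
  · intro x y
    by_cases hx : x = v <;> by_cases hy : y = v <;>
      simp only [hx, hy, if_true, if_false, ne_eq, not_true, false_and, not_false_eq_true,
        true_and, or_true, true_or, false_or, or_false]
    · tauto
    · tauto
    · exact hr.tot x y
  · intro x y hx hy
    simp [hx, hy]
  · intro x hx
    simp [hx]
  · intro x hx
    simp [hx]

end Pool.Agent.H72.G4
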