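import Pool.Agent.H72.G4.Edge
import Pool.Agent.H72.G4.Ord

/-!
# The class of digraphs carried by a disc, exact orders, minimal counterexample

`V = ℕ` in the final induction (we need new vertices), the definitions are general.

* `Ex O x y` : the arc `x → y` is backward in exactly one of the three orders.
* `Pl T D l` : the disc `T` has boundary list `l`, every arc of `D` is an edge of `T`, `D` has no
  directed cycle of length two or three.  Edges of `T` without an arc (null edges) and vertices of
  `T` without an arc (fakes) are allowed.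
* `Re D x` : `x` is real, that is, on an arc.
* `Solv D S` : every triple of strict total orders exact on the arcs inside `S` is extended by
  a triple of orders exact on all arcs.
* `MC T D a b c` : minimal counterexample for (fewest real vertices, then most arcs, then fewest
  triangles of the carrier).
-/

set_option autoImplicit false

namespace Pool.Agent.H72.G4

open Relation Pool.Agent.H13.DA

section defs

variable {V : Type*}

/-- the arc `x → y` is backward in exactly one of the three orders -/
def Ex (O : Fin 3 → V → V → Prop) (x y : V) : Prop := ∃ i, O i y x ∧ ∀ j, j ≠ i → O j x y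

/-- there is an arc between `x` and `y` -/
def Ar (D : V → V → Prop) (x y : V) : Prop := D x y ∨ D y x

/-- `x` is real: it is on an arc -/
def Re (D : V → V → Prop) (x : V) : Prop := ∃ y, Ar D x y

/-- a digraph without directed cycles of length two and three carried by a disc -/
structure Pl (T : Finset (V × V × V)) (D : V → V → Prop) (l : List V) : Prop where
  disc : Disc T
  bd : IsBd T l
  adj : ∀ x y, D x y → Adj T x y
  asymm : ∀ x y, D x y → ¬ D y x
  tri : ∀ x y z, D x y → D y z → ¬ D z x

/-- every exact triple of orders on `S` extends -/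
def Solv (D : V → V → Prop) (S : V → Prop) : Prop :=
  ∀ O : Fin 3 → V → V → Prop, (∀ i, STO (O i)) → (∀ x y, S x → S y → D x y → Ex O x y) →
    ∃ O' : Fin 3 → V → V → Prop, (∀ i, STO (O' i)) ∧ (∀ x y, D x y → Ex O' x y) ∧
      ∀ i x y, S x → S y → (O' i x y ↔ O i x y)

/-- the number of real vertices -/
noncomputable def nr (D : V → V → Prop) : ℕ := Set.ncard {x | Re D x}

/-- the number of arcs -/
noncomputable def na (D : V → V → Prop) : ℕ := Set.ncard {p : V × V | D p.1 p.2}

/-- the outer triangle carries three arcs -/
def Out (D : V → V → Prop) (a b c : V) : Prop := Ar D a b ∧ Ar D b c ∧ Ar D c a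

/-- the three vertices -/
def Tr (a b c : V) (x : V) : Prop := x = a ∨ x = b ∨ x = c

/-- minimal counterexample -/
structure MC (T : Finset (V × V × V)) (D : V → V → Prop) (a b c : V) : Prop where
  pl : Pl T D [a, b, c]
  out : Out D a b c
  bad : ¬ Solv D (Tr a b c)
  min1 : ∀ (T' : Finset (V × V × V)) (D' : V → V → Prop) (a' b' c' : V), Pl T' D' [a', b', c'] →
    Out D' a' b' c' → nr D' < nr D → Solv D' (Tr a' b' c')
  min2 : ∀ (T' : Finset (V × V × V)) (D' : V → V → Prop) (a' b' c' : V), Pl T' D' [a', b', c'] →
    Out D' a' b' c' → nr D' ≤ nr D → na D < na D' → Solv D' (Tr a' b' c')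
  min3 : ∀ (T' : Finset (V × V × V)) (D' : V → V → Prop) (a' b' c' : V), Pl T' D' [a', b', c'] →
    Out D' a' b' c' → nr D' ≤ nr D → na D ≤ na D' → T'.card < T.card → Solv D' (Tr a' b' c')

end defs

section basics

variable {V : Type*} [DecidableEq V] {T : Finset (V × V × V)} {D : V → V → Prop}

theorem Pl.re_mem {l : List V} (h : Pl T D l) {x : V} (hx : Re D x) : x ∈ verts T := by
  obtain ⟨y, hy | hy⟩ := hx
  · exact (verts_adj h.disc.cx).2 ⟨y, h.adj _ _ hy⟩
  · exact (verts_adj h.disc.cx).2 ⟨y, (h.adj _ _ hy).symm⟩

theorem Pl.re_fin {l : List V} (h : Pl T D l) : {x | Re D x}.Finite :=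
  (verts T).finite_toSet.subset fun _ hx => h.re_mem hx

theorem Pl.ar_fin {l : List V} (h : Pl T D l) : {p : V × V | D p.1 p.2}.Finite := by
  refine (h.re_fin.prod h.re_fin).subset ?_
  rintro ⟨x, y⟩ hxy
  exact ⟨⟨y, Or.inl hxy⟩, ⟨x, Or.inr hxy⟩⟩

theorem Pl.na_le {l : List V} (h : Pl T D l) : na D ≤ nr D * nr D := by
  unfold na nr
  rw [← Set.ncard_prod]
  refine Set.ncard_le_ncard ?_ (h.re_fin.prod h.re_fin)
  rintro ⟨x, y⟩ hxy
  exact ⟨⟨y, Or.inl hxy⟩, ⟨x, Or.inr hxy⟩⟩

/-- if the theorem fails there is a minimal counterexample -/
theorem exists_MC {V : Type*} [DecidableEq V] (h : ¬ ∀ (T : Finset (V × V × V))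
    (D : V → V → Prop) (a b c : V), Pl T D [a, b, c] → Out D a b c → Solv D (Tr a b c)) :
    ∃ (T : Finset (V × V × V)) (D : V → V → Prop) (a b c : V), MC T D a b c := by
  classical
  have key : ∀ (N : ℕ) (T : Finset (V × V × V)) (D : V → V → Prop) (a b c : V),
      ∀ (A : ℕ), nr D * nr D - na D ≤ A → ∀ (B : ℕ), T.card ≤ B → nr D ≤ N →
      Pl T D [a, b, c] → Out D a b c → ¬ Solv D (Tr a b c) →
      ∃ (T : Finset (V × V × V)) (D : V → V → Prop) (a b c : V), MC T D a b c := by
    intro N
    induction N using Nat.strong_induction_on with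
    | _ N ihN =>
      intro T D a b c A
      induction A using Nat.strong_induction_on generalizing T D a b c with
      | _ A ihA =>
        intro hA B
        induction B using Nat.strong_induction_on generalizing T D a b c with
        | _ B ihB =>
          intro hB hN hP hO hS
          by_contra hcon
          apply hcon
          refine ⟨T, D, a, b, c, hP, hO, hS, ?_, ?_, ?_⟩
          · intro T' D' a' b' c' hP' hO' hlt
            by_contra hS'
            exact hcon (ihN (nr D') (by omega) T' D' a' b' c' _ le_rfl _ le_rfl le_rfl hP' hO' hS')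
          · intro T' D' a' b' c' hP' hO' hle hlt
            by_contra hS'
            rcases lt_or_eq_of_le hle with h1 | h1
            · exact hcon (ihN (nr D') (by omega) T' D' a' b' c' _ le_rfl _ le_rfl le_rfl
                hP' hO' hS')
            · have h2 := hP.na_le
              have h3 := hP'.na_le
              rw [h1] at h3
              exact hcon (ihA (nr D' * nr D' - na D') (by rw [h1]; omega) T' D' a' b' c' le_rfl
                _ le_rfl (by omega) hP' hO' hS')
          · intro T' D' a' b' c' hP' hO' hle hge hlt
            by_contra hS'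
            rcases lt_or_eq_of_le hle with h1 | h1
            · exact hcon (ihN (nr D') (by omega) T' D' a' b' c' _ le_rfl _ le_rfl le_rfl
                hP' hO' hS')
            · exact hcon (ihB T'.card (by omega) T' D' a' b' c' (by rw [h1]; omega) le_rfl
                (by omega) hP' hO' hS')
  push Not at h
  obtain ⟨T, D, a, b, c, h1, h2, h3⟩ := h
  exact key _ T D a b c _ le_rfl _ le_rfl le_rfl h1 h2 h3

end basics

end Pool.Agent.H72.G4
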