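import Pool.Agent.H72.G4.Contr

/-!
# Deleting a vertex and adding arcs: the frame of all reductions of one vertex
-/

set_option autoImplicit false

namespace Pool.Agent.H72.G4

open Relation Pool.Agent.H13.DA Pool.Agent.H21.G4

variable {V : Type*} [DecidableEq V] {T : Finset (V × V × V)} {D : V → V → Prop} {a b c : V}

/-- `D` without `v`, with the new arcs `A` -/
def Fil (D : V → V → Prop) (v : V) (A : V → V → Prop) (x y : V) : Prop :=
  H21.G4.Del D v x y ∨ A x y

/-- the cuts for the insertion of `v` -/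
def Cuts (D : V → V → Prop) (v : V) (O : Fin 3 → V → V → Prop) : Prop :=
  ∃ P : Fin 3 → V → Prop, (∀ i x y, x ≠ v → y ≠ v → P i y → O i x y → P i x) ∧
    (∀ x, D x v → ∃ i, ¬ P i x ∧ ∀ j, j ≠ i → P j x) ∧
    (∀ x, D v x → ∃ i, P i x ∧ ∀ j, j ≠ i → ¬ P j x)

/-- **Deletion with new arcs, general form.** -/
theorem del_fill_gen (hM : MCw T D a b c) {v : V} {A : V → V → Prop}
    {T' : Finset (V × V × V)} (hv : ¬ Tr a b c v) (hvr : Re D v)
    (hP : Pl T' (Fil D v A) [a, b, c])
    (hA : ∀ x y, A x y → Re D x ∧ Re D y ∧ x ≠ v ∧ y ≠ v)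
    (hext : ∀ O : Fin 3 → V → V → Prop, (∀ i, STO (O i)) →
      (∀ x y, Fil D v A x y → Ex O x y) → Cuts D v O) : False := by
  have hTr : ∀ u, Tr a b c u → u ≠ v := fun u hu h => hv (h ▸ hu)
  have ta : Tr a b c a := Or.inl rfl
  have tb : Tr a b c b := Or.inr (Or.inl rfl)
  have tc : Tr a b c c := Or.inr (Or.inr rfl)
  have hne : ∀ u w, Tr a b c u → Tr a b c w → Ar D u w → Ar (Fil D v A) u w := by
    rintro u w hu hw (h | h)
    · exact Or.inl (Or.inl ⟨h, hTr u hu, hTr w hw⟩)
    · exact Or.inr (Or.inl ⟨h, hTr w hw, hTr u hu⟩)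
  have hO : Out (Fil D v A) a b c := ⟨hne _ _ ta tb hM.out.1, hne _ _ tb tc hM.out.2.1,
    hne _ _ tc ta hM.out.2.2⟩
  have cx := hM.pl.disc.cx
  have hout : ∀ u w, Tr a b c u → Tr a b c w → u ≠ w → Ar D u w := by
    obtain ⟨o1, o2, o3⟩ := hM.out
    rintro u w (rfl | rfl | rfl) (rfl | rfl | rfl) huw
    · exact absurd rfl huw
    · exact o1
    · exact ar_symm o3
    · exact ar_symm o1
    · exact absurd rfl huw
    · exact o2
    · exact o3
    · exact ar_symm o2
    · exact absurd rfl huw
  have hlt : nr (Fil D v A) < nr D := by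
    refine Set.ncard_lt_ncard ?_ hM.pl.re_fin
    refine ⟨?_, fun h => ?_⟩
    · rintro u ⟨w, (h | h) | (h | h)⟩
      · exact ⟨w, Or.inl h.1⟩
      · exact (hA _ _ h).1
      · exact ⟨w, Or.inr h.1⟩
      · exact (hA _ _ h).2.1
    · obtain ⟨w, (k | k) | (k | k)⟩ := h hvr
      · exact k.2.1 rfl
      · exact (hA _ _ k).2.2.1 rfl
      · exact k.2.2 rfl
      · exact (hA _ _ k).2.2.2 rfl
  have hs := hM.min1 T' _ a b c hP hO hlt
  apply hM.bad
  intro O hOs hE
  obtain ⟨O1, b1, b2, b3⟩ := hs O hOs (by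
    rintro x y hx hy (h | h)
    · exact hE x y hx hy h.1
    · rcases eq_or_ne x y with rfl | hxy
      · exact absurd (Or.inr h) (hP.asymm x x (Or.inr h))
      · rcases hout x y hx hy hxy with k | k
        · exact hE x y hx hy k
        · exact absurd (Or.inl ⟨k, hTr y hy, hTr x hx⟩) (hP.asymm x y (Or.inr h)))
  obtain ⟨P, p1, p2, p3⟩ := hext O1 b1 b2
  obtain ⟨O2, c1, c2, c3⟩ := insert_ex (D := D) (S := Tr a b c) b1
    (fun h => hM.pl.asymm v v h h) (fun x y h => b2 x y (Or.inl h)) hv P p1 p2 p3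
  exact ⟨O2, c1, c2, fun i x y hx hy => (c3 i x y hx hy).trans (b3 i x y hx hy)⟩

/-- the fan at `v` towards a neighbour exists in `T*` -/
theorem Ts.fan (hF : FanT V) (hT : Ts T D a b c) {v p : V} (hv : ¬ Tr a b c v)
    (hvr : Re D v) (hp : Adj T v p) :
    ∃ T' : Finset (V × V × V), Disc T' ∧ (∀ l, IsBd T l → IsBd T' l) ∧ v ∉ verts T' ∧
      ∀ x y, Adj T' x y ↔ (Adj T x y ∧ x ≠ v ∧ y ≠ v) ∨ (x = p ∧ Adj T v y ∧ y ≠ p) ∨
        (y = p ∧ Adj T v x ∧ x ≠ p) := by
  refine hF T [a, b, c] v p hT.pl.disc hT.pl.bd (hT.pl.re_mem hvr) ?_ hp ?_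
  · intro h
    apply hv
    simpa [Tr] using h
  · intro m hm1 hm2 hm3
    rcases hT.fc v p m hp hm3 hm1.symm with h | ⟨h, _⟩
    · exact h
    · exact absurd h hv

/-- **Deletion with new arcs at one neighbour `p` of `v` (star fill).** -/
theorem del_fill (hF : FanT V) (hM : MCw T D a b c) (hT : Ts T D a b c) {v p : V}
    {A : V → V → Prop} (hv : ¬ Tr a b c v) (hvr : Re D v) (hp : Ar D v p)
    (hA : ∀ x y, A x y → (x = p ∧ Ar D v y ∧ y ≠ p) ∨ (y = p ∧ Ar D v x ∧ x ≠ p))
    (has : ∀ x y, Fil D v A x y → ¬ Fil D v A y x)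
    (htri : ∀ x y z, Fil D v A x y → Fil D v A y z → ¬ Fil D v A z x)
    (hext : ∀ O : Fin 3 → V → V → Prop, (∀ i, STO (O i)) →
      (∀ x y, Fil D v A x y → Ex O x y) → Cuts D v O) : False := by
  have cx := hT.pl.disc.cx
  obtain ⟨T', d1, d2, d3, d4⟩ := hT.fan hF hv hvr (hT.pl.ar_adj hp)
  have hpv : p ≠ v := (ar_ne cx hT.pl hp).symm
  refine del_fill_gen hM (T' := T') (A := A) hv hvr ⟨d1, d2 _ hT.pl.bd, ?_, has, htri⟩ ?_ hext
  · rintro x y (h | h)
    · exact (d4 x y).2 (Or.inl ⟨hT.pl.adj _ _ h.1, h.2.1, h.2.2⟩)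
    · rcases hA x y h with ⟨rfl, h1, h2⟩ | ⟨rfl, h1, h2⟩
      · exact (d4 _ y).2 (Or.inr (Or.inl ⟨rfl, hT.pl.ar_adj h1, h2⟩))
      · exact (d4 x _).2 (Or.inr (Or.inr ⟨rfl, hT.pl.ar_adj h1, h2⟩))
  · intro x y h
    rcases hA x y h with ⟨rfl, h1, h2⟩ | ⟨rfl, h1, h2⟩
    · exact ⟨(ar_re hp).2, (ar_re h1).2, hpv, (ar_ne cx hT.pl h1).symm⟩
    · exact ⟨(ar_re h1).2, (ar_re hp).2, (ar_ne cx hT.pl h1).symm, hpv⟩

/-- **No directed triangle with one new arc** across a good vertex: common neighbours of two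
non-adjacent neighbours `p`, `q` of `v` are neighbours of `v` or complete a quad with `v`. -/
theorem good_common (hT : Ts T D a b c) {v p q o : V} (hg : Good T D v)
    (h1 : Ar D v p) (h2 : Ar D v q) (hpq : p ≠ q) (hn : ¬ Ar D p q) (ho : o ≠ v)
    (h3 : Ar D p o) (h4 : Ar D q o) :
    Ar D v o ∨ (D p v ∧ D v q ∧ D q o ∧ D o p) ∨ (D q v ∧ D v p ∧ D p o ∧ D o q) := by
  rcases hg p q o h1 h2 hpq hn ho h3 h4 with h | ⟨d, e1, e2, e3, e4, e5⟩
  · exact Or.inl h
  · right
    have cx := hT.pl.disc.cx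
    have hd : d ∈ verts T := (verts_adj cx).2 ⟨v, e2⟩
    obtain ⟨x1, x2, x3, x4, f1, f2, f3, f4, f5⟩ := hT.du d hd e1
    have g1 := (f5 v).1 e2
    have g2 := (f5 p).1 e3
    have g3 := (f5 q).1 e4
    have g4 := (f5 o).1 e5
    have nv : ∀ x, ¬ D x x := fun x h => hT.pl.asymm x x h h
    have vp : v ≠ p := ar_ne cx hT.pl h1
    have vq : v ≠ q := ar_ne cx hT.pl h2
    have po : p ≠ o := ar_ne cx hT.pl h3
    have qo : q ≠ o := ar_ne cx hT.pl h4
    have n13 : ¬ Ar D x1 x3 := by
      rintro (h | h)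
      · exact hT.pl.tri _ _ _ h f3 f4
      · exact hT.pl.tri _ _ _ f1 f2 h
    have n24 : ¬ Ar D x2 x4 := by
      rintro (h | h)
      · exact hT.pl.tri _ _ _ h f4 f1
      · exact hT.pl.tri _ _ _ f2 f3 h
    rcases g1 with rfl | rfl | rfl | rfl
    · rcases g2 with rfl | rfl | rfl | rfl
      · exact absurd rfl vp
      · rcases g3 with rfl | rfl | rfl | rfl
        · exact absurd rfl vq
        · exact absurd rfl hpq
        · exact absurd h2 n13
        · rcases g4 with rfl | rfl | rfl | rfl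
          · exact absurd rfl ho
          · exact absurd rfl po
          · exact Or.inr ⟨f4, f1, f2, f3⟩
          · exact absurd rfl qo
      · exact absurd h1 n13
      · rcases g3 with rfl | rfl | rfl | rfl
        · exact absurd rfl vq
        · rcases g4 with rfl | rfl | rfl | rfl
          · exact absurd rfl ho
          · exact absurd rfl qo
          · exact Or.inl ⟨f4, f1, f2, f3⟩
          · exact absurd rfl po
        · exact absurd h2 n13
        · exact absurd rfl hpq
    · rcases g2 with rfl | rfl | rfl | rfl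
      · rcases g3 with rfl | rfl | rfl | rfl
        · exact absurd rfl hpq
        · exact absurd rfl vq
        · rcases g4 with rfl | rfl | rfl | rfl
          · exact absurd rfl po
          · exact absurd rfl ho
          · exact absurd rfl qo
          · exact Or.inl ⟨f1, f2, f3, f4⟩
        · exact absurd h2 n24
      · exact absurd rfl vp
      · rcases g3 with rfl | rfl | rfl | rfl
        · rcases g4 with rfl | rfl | rfl | rfl
          · exact absurd rfl qo
          · exact absurd rfl ho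
          · exact absurd rfl po
          · exact Or.inr ⟨f1, f2, f3, f4⟩
        · exact absurd rfl vq
        · exact absurd rfl hpq
        · exact absurd h2 n24
      · exact absurd h1 n24
    · rcases g2 with rfl | rfl | rfl | rfl
      · exact absurd (ar_symm h1) n13
      · rcases g3 with rfl | rfl | rfl | rfl
        · exact absurd (ar_symm h2) n13
        · exact absurd rfl hpq
        · exact absurd rfl vq
        · rcases g4 with rfl | rfl | rfl | rfl
          · exact Or.inl ⟨f2, f3, f4, f1⟩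
          · exact absurd rfl po
          · exact absurd rfl ho
          · exact absurd rfl qo
      · exact absurd rfl vp
      · rcases g3 with rfl | rfl | rfl | rfl
        · exact absurd (ar_symm h2) n13
        · rcases g4 with rfl | rfl | rfl | rfl
          · exact Or.inr ⟨f2, f3, f4, f1⟩
          · exact absurd rfl qo
          · exact absurd rfl ho
          · exact absurd rfl po
        · exact absurd rfl vq
        · exact absurd rfl hpq
    · rcases g2 with rfl | rfl | rfl | rfl
      · rcases g3 with rfl | rfl | rfl | rfl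
        · exact absurd rfl hpq
        · exact absurd (ar_symm h2) n24
        · rcases g4 with rfl | rfl | rfl | rfl
          · exact absurd rfl po
          · exact Or.inr ⟨f3, f4, f1, f2⟩
          · exact absurd rfl qo
          · exact absurd rfl ho
        · exact absurd rfl vq
      · exact absurd (ar_symm h1) n24
      · rcases g3 with rfl | rfl | rfl | rfl
        · rcases g4 with rfl | rfl | rfl | rfl
          · exact absurd rfl qo
          · exact Or.inl ⟨f3, f4, f1, f2⟩
          · exact absurd rfl po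
          · exact absurd rfl ho
        · exact absurd (ar_symm h2) n24
        · exact absurd rfl hpq
        · exact absurd rfl vq
      · exact absurd rfl vp

end Pool.Agent.H72.G4
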