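import Pool.Agent.H72.G4.Side

/-!
# Cyclic lists: closure, reversal, inclusion
-/

set_option autoImplicit false

namespace Pool.Agent.H72.G4

open Relation Pool.Agent.H13.DA

variable {V : Type*}

theorem nx_closed {P : V → Prop} : ∀ (l : List V) (x : V), P x →
    (∀ a b, Nx (x :: l) a b → P a → P b) → ∀ y ∈ x :: l, P y := by
  intro l
  induction l with
  | nil =>
    intro x hx _ y hy
    simp only [List.mem_cons, List.not_mem_nil, or_false] at hy
    rw [hy]
    exact hx
  | cons z l ih =>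
    intro x hx h y hy
    rcases List.mem_cons.1 hy with rfl | hy
    · exact hx
    · exact ih z (h x z (Or.inl ⟨rfl, rfl⟩) hx) (fun a b hab => h a b (Or.inr hab)) y hy

/-- a property which holds at one place of a cycle and is passed on holds everywhere -/
theorem cyc_closed {P : V → Prop} {Z : List V} {x : V} (hx : x ∈ Z) (hP : P x)
    (h : ∀ a b, Cyc Z a b → P a → P b) : ∀ y ∈ Z, P y := by
  obtain ⟨m, hm⟩ := rot_head hx
  intro y hy
  refine nx_closed m x hP ?_ y (hm.perm.mem_iff.1 hy)
  intro a b hab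
  exact h a b ((cyc_rot hm a b).2 (cyc_nx hab))

theorem cyc_no2 {Z : List V} (hn : Z.Nodup) (h3 : 3 ≤ Z.length) {x y : V} (h : Cyc Z x y) :
    ¬ Cyc Z y x := by
  intro h2
  obtain ⟨m, hm⟩ := rot_head (cyc_mem h).1
  have hn' := hm.nodup_iff.1 hn
  have hl : (x :: m).length = Z.length := hm.perm.length_eq.symm
  rw [cyc_rot hm] at h h2
  match m, hn', hl, h, h2 with
  | [], hn', hl, h, h2 =>
    simp only [List.length_cons, List.length_nil] at hl
    omega
  | [z], hn', hl, h, h2 =>
    simp only [List.length_cons, List.length_nil] at hl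
    omega
  | z :: w :: m, hn', hl, h, h2 =>
    have e1 : y = z := cyc_unique hn' h (Or.inl ⟨rfl, rfl⟩)
    subst e1
    have e2 : x = w := cyc_unique hn' h2 (Or.inr (Or.inl ⟨rfl, rfl⟩))
    subst e2
    simp at hn'

theorem nx_snoc (l : List V) (x y a b : V) :
    Nx (l ++ [x, y]) a b ↔ Nx (l ++ [x]) a b ∨ (a = x ∧ b = y) := by
  have e : l ++ [x, y] = l ++ x :: [y] := rfl
  rw [e, nx_append, nx_two]

theorem nx_reverse (l : List V) (a b : V) : Nx l.reverse a b ↔ Nx l b a := by
  induction l with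
  | nil => exact Iff.rfl
  | cons x l ih =>
    cases l with
    | nil => simp [Nx]
    | cons y l =>
      have e : (x :: y :: l).reverse = l.reverse ++ [y, x] := by simp
      have e2 : l.reverse ++ [y] = (y :: l).reverse := by simp
      rw [e, nx_snoc, e2, ih]
      change _ ↔ (b = x ∧ a = y) ∨ Nx (y :: l) b a
      tauto

theorem cyc_reverse (Z : List V) (a b : V) : Cyc Z.reverse a b ↔ Cyc Z b a := by
  cases Z with
  | nil => exact Iff.rfl
  | cons x m =>
    have hr : (x :: m).reverse ~r (x :: m.reverse) := by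
      have e : (x :: m).reverse = m.reverse ++ [x] := by simp
      have e2 : x :: m.reverse = [x] ++ m.reverse := rfl
      rw [e, e2]
      exact List.isRotated_append
    rw [cyc_rot hr]
    change Nx (x :: (m.reverse ++ [x])) a b ↔ Nx (x :: (m ++ [x])) b a
    have e3 : x :: (m.reverse ++ [x]) = (x :: (m ++ [x])).reverse := by simp
    rw [e3, nx_reverse]

/-- a cycle contained in another one is equal to it -/
theorem cyc_sub {l Z : List V} (hn : Z.Nodup) (hl : l ≠ [])
    (h : ∀ x y, Cyc l x y → Cyc Z x y) : ∀ x y, Cyc l x y ↔ Cyc Z x y := by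
  obtain ⟨x0, hx0⟩ := List.exists_mem_of_ne_nil l hl
  have hx0Z : x0 ∈ Z := by
    obtain ⟨b, hb⟩ := (mem_cyc hx0).1
    exact (cyc_mem (h _ _ hb)).1
  have hall : ∀ y ∈ Z, y ∈ l := by
    refine cyc_closed (P := fun y => y ∈ l) hx0Z hx0 ?_
    intro a b hab ha
    obtain ⟨b', hb'⟩ := (mem_cyc ha).1
    rw [cyc_unique hn hab (h _ _ hb')]
    exact (cyc_mem hb').2
  intro x y
  refine ⟨h x y, fun hxy => ?_⟩
  obtain ⟨y', hy'⟩ := (mem_cyc (hall x (cyc_mem hxy).1)).1
  rw [cyc_unique hn hxy (h _ _ hy')]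
  exact hy'

/-- a cycle whose edges are edges of another cycle, up to direction, is the other cycle up to
direction -/
theorem cyc_edges {l Z : List V} (hnl : l.Nodup) (h3 : 3 ≤ l.length) (hn : Z.Nodup)
    (h : ∀ x y, Cyc l x y → Cyc Z x y ∨ Cyc Z y x) :
    (∀ x y, Cyc l x y ↔ Cyc Z x y) ∨ (∀ x y, Cyc l x y ↔ Cyc Z y x) := by
  have hl : l ≠ [] := by
    rintro rfl
    simp at h3
  have key : ∀ Z : List V, Z.Nodup → (∀ x y, Cyc l x y → Cyc Z x y ∨ Cyc Z y x) →
      (∃ x y, Cyc l x y ∧ Cyc Z x y) → ∀ x y, Cyc l x y ↔ Cyc Z x y := by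
    intro Z hn h h1
    refine cyc_sub hn hl ?_
    obtain ⟨x0, y0, h1, h2⟩ := h1
    have := cyc_closed (P := fun x => ∀ y, Cyc l x y → Cyc Z x y) (cyc_mem h1).1
      (fun y hy => by rw [cyc_unique hnl hy h1]; exact h2)
      (fun a b hab ha y hy => by
        rcases h b y hy with h3 | h3
        · exact h3
        · exfalso
          have h4 := ha b hab
          have h5 := cyc_unique' hn h4 h3
          subst h5
          exact cyc_no2 hnl (by assumption) hab hy)
    exact fun x y hxy => this x (cyc_mem hxy).1 y hxy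
  obtain ⟨x0, hx0⟩ := List.exists_mem_of_ne_nil l hl
  obtain ⟨y0, hy0⟩ := (mem_cyc hx0).1
  rcases h _ _ hy0 with h1 | h1
  · exact Or.inl (key Z hn h ⟨x0, y0, hy0, h1⟩)
  · right
    have := key Z.reverse (List.nodup_reverse.2 hn)
      (fun x y hxy => by
        rw [cyc_reverse, cyc_reverse]
        exact (h x y hxy).symm)
      ⟨x0, y0, hy0, by rw [cyc_reverse]; exact h1⟩
    intro x y
    rw [this, cyc_reverse]

/-- two sides meeting in one vertex: a cycle is on one side -/
theorem cyc_side {P Q : V → V → Prop} {A B : V → Prop} {w : V} {Z : List V} (hn : Z.Nodup)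
    (hP : ∀ x y, P x y → A x ∧ A y) (hQ : ∀ x y, Q x y → B x ∧ B y)
    (hAB : ∀ x, A x → B x → x = w) (h : ∀ x y, Cyc Z x y → P x y ∨ Q x y) :
    (∀ x y, Cyc Z x y → P x y) ∨ (∀ x y, Cyc Z x y → Q x y) := by
  -- choose the start
  have start : Z = [] ∨ ∃ z m, Z ~r z :: m ∧ w ∉ m := by
    by_cases hw : w ∈ Z
    · obtain ⟨m, hm⟩ := rot_head hw
      exact Or.inr ⟨w, m, hm, (List.nodup_cons.1 (hm.nodup_iff.1 hn)).1⟩
    · cases Z with
      | nil => exact Or.inl rfl
      | cons z m => exact Or.inr ⟨z, m, List.IsRotated.refl _, fun h => hw (by simp [h])⟩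
  rcases start with rfl | ⟨z, m, hm, hw⟩
  · exact Or.inl fun x y hxy => hxy.elim
  -- one step
  have step : ∀ (P Q : V → V → Prop) (A B : V → Prop), (∀ x y, P x y → A x ∧ A y) →
      (∀ x y, Q x y → B x ∧ B y) → (∀ x, A x → B x → x = w) →
      (∀ x y, Cyc (z :: m) x y → P x y ∨ Q x y) → (∀ y, Cyc (z :: m) z y → P z y) →
      ∀ x y, Cyc (z :: m) x y → P x y := by
    intro P Q A B hP hQ hAB h h0
    cases m with
    | nil =>
      intro x y hxy
      have : x = z := by simpa using (cyc_mem hxy).1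
      subst this
      exact h0 y hxy
    | cons y0 m =>
      have hA : ∀ x ∈ y0 :: m, A x := by
        refine nx_closed m y0 ((hP _ _ (h0 y0 (Or.inl ⟨rfl, rfl⟩))).2) ?_
        intro a b hab ha
        have hab' : Cyc (z :: y0 :: m) a b := cyc_nx (Or.inr hab)
        rcases h a b hab' with h1 | h1
        · exact (hP _ _ h1).2
        · have := hAB a ha (hQ _ _ h1).1
          exact absurd ((nx_mem hab).1) (this ▸ hw)
      intro x y hxy
      rcases List.mem_cons.1 (cyc_mem hxy).1 with rfl | hx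
      · exact h0 y hxy
      · rcases h x y hxy with h1 | h1
        · exact h1
        · have := hAB x (hA x hx) (hQ _ _ h1).1
          exact absurd hx (this ▸ hw)
  have hz : z ∈ z :: m := by simp
  obtain ⟨y0, hy0⟩ := (mem_cyc hz).1
  have hn' := hm.nodup_iff.1 hn
  have h' : ∀ x y, Cyc (z :: m) x y → P x y ∨ Q x y := fun x y hxy => h x y ((cyc_rot hm x y).2 hxy)
  rcases h' z y0 hy0 with h1 | h1
  · left
    intro x y hxy
    exact step P Q A B hP hQ hAB h' (fun y hy => by rw [cyc_unique hn' hy hy0]; exact h1) x y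
      ((cyc_rot hm x y).1 hxy)
  · right
    intro x y hxy
    exact step Q P B A hQ hP (fun x hb ha => hAB x ha hb) (fun x y hxy => (h' x y hxy).symm)
      (fun y hy => by rw [cyc_unique hn' hy hy0]; exact h1) x y ((cyc_rot hm x y).1 hxy)

end Pool.Agent.H72.G4
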