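import Pool.Agent.H72.G4.WordsB
import Pool.Agent.H42.G4.Red4
import Pool.Agent.H80.G4.Deg3

/-!
# The positive vertices
-/

set_option autoImplicit false

namespace Pool.Agent.H72.G4

open Relation Pool.Agent.H13.DA Pool.Agent.H21.G4 Pool.Agent.H96.G4
open CT

variable {V : Type*} [DecidableEq V] {T : Finset (V × V × V)} {D : V → V → Prop} {a b c : V}

/-- a quad corner at `v` between `x` and `y` -/
def QC (T : Finset (V × V × V)) (D : V → V → Prop) (v x y : V) : Prop :=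
  ∃ d, ¬ Re D d ∧ Face T v x d ∧ Face T v d y

theorem face_symm {x y z : V} (h : Face T x y z) : Face T x z y := Or.symm h

theorem QC.symm {v x y : V} (h : QC T D v x y) : QC T D v y x := by
  obtain ⟨d, h1, h2, h3⟩ := h
  exact ⟨d, h1, face_symm h3, face_symm h2⟩

theorem Cor.qc {v x y : V} (h : Cor T D v x y q) : QC T D v x y := by
  obtain ⟨⟨d, h1, h2, h3⟩, _⟩ := h
  exact ⟨d, h1, Or.inl h2, Or.inl h3⟩

/-- the direction of the spoke -/
noncomputable def Dn (D : V → V → Prop) (v x : V) : Bool := by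
  classical exact decide (D v x)

theorem dn_true {v x : V} (h : D v x) : Dn D v x = true := by
  unfold Dn
  simp [h]

theorem dn_false (hT : Ts T D a b c) {v x : V} (h : D x v) : Dn D v x = false := by
  unfold Dn
  simp [hT.pl.asymm _ _ h]

theorem Cor.ch (hT : Ts T D a b c) {v x y : V} {t : CT} (h : Cor T D v x y t) :
    t.ch = xor (Dn D v x) (Dn D v y) := by
  cases t
  · obtain ⟨_, ⟨h1, h2⟩ | ⟨h1, h2⟩⟩ := h
    · rw [dn_false hT h1, dn_true h2]; rfl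
    · rw [dn_true h1, dn_false hT h2]; rfl
  · obtain ⟨_, ⟨h1, h2, _⟩ | ⟨h1, h2, _⟩⟩ := h
    · rw [dn_true h1, dn_true h2]; rfl
    · rw [dn_false hT h1, dn_false hT h2]; rfl
  · obtain ⟨_, ⟨h1, h2, _⟩ | ⟨h1, h2, _⟩⟩ := h
    · rw [dn_true h1, dn_true h2]; rfl
    · rw [dn_false hT h1, dn_false hT h2]; rfl
  · obtain ⟨_, ⟨h1, h2, _⟩ | ⟨h1, h2, _⟩⟩ := h
    · rw [dn_false hT h1, dn_true h2]; rfl
    · rw [dn_true h1, dn_false hT h2]; rfl

/-- the rotation, started elsewhere -/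
theorem Rot.shift {v : V} {n : ℕ} {x : Fin (n + 1) → V} {w : Fin (n + 1) → CT}
    (h : Rot T D v n x w) (k : Fin (n + 1)) :
    Rot T D v n (fun i => x (k + i)) (fun i => w (k + i)) where
  inj := fun i j hij => by simpa using h.inj hij
  nb := by
    intro u
    rw [h.nb]
    constructor
    · rintro ⟨i, rfl⟩
      exact ⟨i - k, by simp⟩
    · rintro ⟨i, rfl⟩
      exact ⟨k + i, rfl⟩
  cor := by
    intro i
    have := h.cor (k + i)
    rw [add_assoc] at this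
    exact this
  nx := by
    intro i y h1 h2
    have := h.nx (k + i) y h1 h2
    rw [add_assoc] at this
    exact this

theorem pat4 (w : Fin 4 → CT) (h : [w 0, w 1, w 2, w 3] ∈ lst4) :
    ∃ k : Fin 4, [w k, w (k + 1), w (k + 2), w (k + 3)] ∈
      [[m, q, m, q], [q, q, m, q], [m, s1, s1, q], [q, s2, s2, m], [s2, m, s1, q]] := by
  simp only [lst4, List.mem_cons, List.cons.injEq, List.not_mem_nil, or_false, and_true] at h
  have e1 : ((1 : Fin 4) + 1) = 2 ∧ ((1 : Fin 4) + 2) = 3 ∧ ((1 : Fin 4) + 3) = 0 := by decide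
  have e2 : ((2 : Fin 4) + 1) = 3 ∧ ((2 : Fin 4) + 2) = 0 ∧ ((2 : Fin 4) + 3) = 1 := by decide
  have e3 : ((3 : Fin 4) + 1) = 0 ∧ ((3 : Fin 4) + 2) = 1 ∧ ((3 : Fin 4) + 3) = 2 := by decide
  rcases h with h | h | h | h | h | h | h | h | h | h | h | h | h | h | h | h | h | h <;>
  obtain ⟨h0, h1, h2, h3⟩ := h <;>
  first
  | exact ⟨0, by simp only [zero_add, h0, h1, h2, h3]; decide⟩
  | exact ⟨1, by rw [e1.1, e1.2.1, e1.2.2, h0, h1, h2, h3]; decide⟩
  | exact ⟨2, by rw [e2.1, e2.2.1, e2.2.2, h0, h1, h2, h3]; decide⟩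
  | exact ⟨3, by rw [e3.1, e3.2.1, e3.2.2, h0, h1, h2, h3]; decide⟩

theorem pat5 (w : Fin 5 → CT) (h : [w 0, w 1, w 2, w 3, w 4] ∈ lst5) :
    ∃ k : Fin 5, [w k, w (k + 1), w (k + 2), w (k + 3), w (k + 4)] ∈
      [[m, q, m, s1, q], [q, s2, m, q, m]] := by
  simp only [lst5, List.mem_cons, List.cons.injEq, List.not_mem_nil, or_false, and_true] at h
  have e1 : ((1 : Fin 5) + 1) = 2 ∧ ((1 : Fin 5) + 2) = 3 ∧ ((1 : Fin 5) + 3) = 4 ∧
    ((1 : Fin 5) + 4) = 0 := by decide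
  have e2 : ((2 : Fin 5) + 1) = 3 ∧ ((2 : Fin 5) + 2) = 4 ∧ ((2 : Fin 5) + 3) = 0 ∧
    ((2 : Fin 5) + 4) = 1 := by decide
  have e3 : ((3 : Fin 5) + 1) = 4 ∧ ((3 : Fin 5) + 2) = 0 ∧ ((3 : Fin 5) + 3) = 1 ∧
    ((3 : Fin 5) + 4) = 2 := by decide
  have e4 : ((4 : Fin 5) + 1) = 0 ∧ ((4 : Fin 5) + 2) = 1 ∧ ((4 : Fin 5) + 3) = 2 ∧
    ((4 : Fin 5) + 4) = 3 := by decide
  rcases h with h | h | h | h | h | h | h | h | h | h <;>
  obtain ⟨h0, h1, h2, h3, h4⟩ := h <;>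
  first
  | exact ⟨0, by simp only [zero_add, h0, h1, h2, h3, h4]; decide⟩
  | exact ⟨1, by rw [e1.1, e1.2.1, e1.2.2.1, e1.2.2.2, h0, h1, h2, h3, h4]; decide⟩
  | exact ⟨2, by rw [e2.1, e2.2.1, e2.2.2.1, e2.2.2.2, h0, h1, h2, h3, h4]; decide⟩
  | exact ⟨3, by rw [e3.1, e3.2.1, e3.2.2.1, e3.2.2.2, h0, h1, h2, h3, h4]; decide⟩
  | exact ⟨4, by rw [e4.1, e4.2.1, e4.2.2.1, e4.2.2.2, h0, h1, h2, h3, h4]; decide⟩

theorem pat6 (w : Fin 6 → CT) (h : [w 0, w 1, w 2, w 3, w 4, w 5] ∈ lst6) :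
    ∃ k : Fin 6, [w k, w (k + 1), w (k + 2), w (k + 3), w (k + 4), w (k + 5)] =
      [m, q, m, q, m, q] := by
  simp only [lst6, List.mem_cons, List.cons.injEq, List.not_mem_nil, or_false, and_true] at h
  have e1 : ((1 : Fin 6) + 1) = 2 ∧ ((1 : Fin 6) + 2) = 3 ∧ ((1 : Fin 6) + 3) = 4 ∧
    ((1 : Fin 6) + 4) = 5 ∧ ((1 : Fin 6) + 5) = 0 := by decide
  rcases h with h | h <;>
  obtain ⟨h0, h1, h2, h3, h4, h5⟩ := h
  · exact ⟨0, by simp only [zero_add, h0, h1, h2, h3, h4, h5]⟩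
  · exact ⟨1, by rw [e1.1, e1.2.1, e1.2.2.1, e1.2.2.2.1, e1.2.2.2.2, h0, h1, h2, h3, h4, h5]⟩

/-- the counts bound the number of corners which count -/
theorem Rot.cnt_le {v : V} {n : ℕ} {x : Fin (n + 1) → V}
    {w : Fin (n + 1) → CT} (hT : Ts T D a b c) (h : Rot T D v n x w)
    (h3 : sv T D v + qv T D v ≤ 3) :
    (Finset.univ.filter (fun i => (w i).ct = true)).card ≤ 3 := by
  classical
  have h1 := h.count_s hT
  have h2 := h.count_q hT
  have e : Finset.univ.filter (fun i => (w i).ct = true) ⊆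
      Finset.univ.filter (fun i => w i = s1 ∨ w i = s2) ∪
        Finset.univ.filter (fun i => w i = q) := by
    intro i hi
    simp only [Finset.mem_filter, Finset.mem_univ, true_and, Finset.mem_union] at hi ⊢
    cases hw : w i
    · exact Or.inr rfl
    · exact Or.inl (Or.inl rfl)
    · exact Or.inl (Or.inr rfl)
    · rw [hw] at hi; exact absurd hi (by decide)
  have := (Finset.card_le_card e).trans (Finset.card_union_le _ _)
  omega

end Pool.Agent.H72.G4
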