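import Pool.Agent.H72.G4.Side

/-!
# Cutting a disc along a chord (existence of the two sides)
-/

set_option autoImplicit false

namespace Pool.Agent.H72.G4

open Relation Pool.Agent.H13.DA

variable {V : Type*} [DecidableEq V] {T : Finset (V × V × V)}

/-- add the triangle `x a w` to the `X` side -/
theorem Sd.addtri (hT : IsCx T) {x a w : V} (h : (x, a, w) ∈ T) (hb : ¬ Dir T a x)
    {X Y : Finset (V × V × V)} {K : V → V → Prop} {la lb la' : List V}
    (S : Sd (T \ tri x a w) X Y K la lb)
    (h1 : ¬ Dir Y w a) (h2 : ¬ Dir Y x w) (h3 : Dir X w a ∨ Dir X x w)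
    (hla : ∀ p q, Nx la' p q → Nx la p q ∨ (p = x ∧ q = a) ∨ (p = a ∧ q = w)) :
    Sd T (X ∪ tri x a w) Y K la' lb where
  un := by
    have e := S.un
    have e2 := tri_sub hT h
    calc T = (T \ tri x a w) ∪ tri x a w := (Finset.sdiff_union_of_subset e2).symm
      _ = (X ∪ Y) ∪ tri x a w := by rw [← e]
      _ = (X ∪ tri x a w) ∪ Y := Finset.union_right_comm _ _ _
  dj := by
    rw [Finset.disjoint_union_left]
    refine ⟨S.dj, ?_⟩
    have e : Y ⊆ T \ tri x a w := by rw [S.un]; exact Finset.subset_union_right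
    exact (Finset.disjoint_of_subset_left e Finset.sdiff_disjoint).symm
  cX := cx_union hT ((by rw [S.un]; exact Finset.subset_union_left :
    X ⊆ T \ tri x a w).trans Finset.sdiff_subset) (tri_sub hT h) S.cX (tri_isCx hT h)
  cY := S.cY
  nX := by
    rcases h3 with h3 | h3
    · exact conn_add S.nX (conn_tri _ _ _) h3 (dir_tri.2 (Or.inr (Or.inl ⟨rfl, rfl⟩)))
    · exact conn_add S.nX (conn_tri _ _ _) h3 (dir_tri.2 (Or.inr (Or.inr ⟨rfl, rfl⟩)))
  nY := S.nY
  fl := by
    intro p q h4 h5
    rcases dir_union.1 h4 with h4 | h4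
    · exact S.fl p q h4 h5
    · rcases dir_tri.1 h4 with ⟨rfl, rfl⟩ | ⟨rfl, rfl⟩ | ⟨rfl, rfl⟩
      · exact absurd (dir_mono ((by rw [S.un]; exact Finset.subset_union_right :
          Y ⊆ T \ tri p q w).trans Finset.sdiff_subset) h5) hb
      · exact absurd h5 h1
      · exact absurd h5 h2
  ea := by
    intro p q hpq
    rcases hla p q hpq with h4 | h4 | h4
    · exact dir_union.2 (Or.inl (S.ea p q h4))
    · exact dir_union.2 (Or.inr (dir_tri.2 (Or.inl h4)))
    · exact dir_union.2 (Or.inr (dir_tri.2 (Or.inr (Or.inl h4))))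
  eb := S.eb

/-- add a connected piece to the `X` side -/
theorem Sd.ext (hT : IsCx T) {T0 Z : Finset (V × V × V)} (hu : T = T0 ∪ Z) (hd : Disjoint T0 Z)
    (cZ : IsCx Z) (nZ : Conn Z) {X Y : Finset (V × V × V)} {K : V → V → Prop}
    {la lb la' : List V} (S : Sd T0 X Y K la lb) {r s : V} (h1 : Dir X r s) (h2 : Dir Z s r)
    (h3 : ∀ p q, Dir Z p q → ¬ Dir Y q p)
    (hla : ∀ p q, Nx la' p q → Nx la p q ∨ Dir Z p q) :
    Sd T (X ∪ Z) Y K la' lb where
  un := by rw [hu, S.un]; exact Finset.union_right_comm _ _ _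
  dj := by
    rw [Finset.disjoint_union_left]
    refine ⟨S.dj, ?_⟩
    have e : Y ⊆ T0 := by rw [S.un]; exact Finset.subset_union_right
    exact (Finset.disjoint_of_subset_left e hd).symm
  cX := cx_union hT ((by rw [S.un]; exact Finset.subset_union_left :
    X ⊆ T0).trans (by rw [hu]; exact Finset.subset_union_left))
    (by rw [hu]; exact Finset.subset_union_right) S.cX cZ
  cY := S.cY
  nX := conn_add S.nX nZ h1 h2
  nY := S.nY
  fl := by
    intro p q h4 h5
    rcases dir_union.1 h4 with h4 | h4
    · exact S.fl p q h4 h5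
    · exact absurd h5 (h3 p q h4)
  ea := by
    intro p q hpq
    rcases hla p q hpq with h4 | h4
    · exact dir_union.2 (Or.inl (S.ea p q h4))
    · exact dir_union.2 (Or.inr h4)
  eb := S.eb

omit [DecidableEq V] in
theorem dir_verts (hT : IsCx T) {a b : V} (h : Dir T a b) : a ∈ verts T ∧ b ∈ verts T := by
  obtain ⟨c, hc⟩ := h
  exact ⟨vert1 hc, vert2 hT hc⟩

theorem chord_sd (n : ℕ) : ∀ T : Finset (V × V × V), T.card ≤ n → Disc T →
    ∀ (x y a : V) (A B : List V), IsBd T (x :: a :: (A ++ y :: B)) → B ≠ [] →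
    Dir T x y → Dir T y x →
    ∃ X Y, Sd T X Y (fun p q => p = y ∧ q = x) (x :: a :: (A ++ [y])) (y :: (B ++ [x])) ∧
      Dir X y x ∧ Dir Y x y := by
  induction n with
  | zero =>
    intro T hn hD x y a A B _ _ hxy _
    obtain ⟨c, hc⟩ := hxy
    have : T.card ≠ 0 := Finset.card_ne_zero_of_mem hc
    omega
  | succ n ih =>
    intro T hn hD x y a A B hl hB hxy hyx
    have hT := hD.cx
    have hr : (x :: a :: (A ++ y :: B)) ~r (a :: ((A ++ y :: B) ++ [x])) := by
      have := List.IsRotated.refl (x :: a :: (A ++ y :: B))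
      exact ⟨1, by simp⟩
    have hl' := hl.rot hr
    have hbd : Bd T x a := (hl'.iff x a).2 (cyc_last a x _)
    obtain ⟨⟨w, h⟩, hb⟩ := hbd
    obtain ⟨n1, n2, n3⟩ := cx_ne hT h
    obtain ⟨h', h''⟩ := rot3 hT h
    have hT' := sdiff_tri_isCx hT h
    have hcard := card_sdiff_tri hT h
    have hb' : ¬ Dir T a x := fun ⟨c, hc⟩ => hb c hc
    have mform : ∀ m' : List V, IsBd T (a :: (m' ++ [x])) → A ++ y :: B = m' := by
      intro m' hm'
      have e := head_unique (hl'.unique hm') hl'.nodup
      exact List.append_inj_left' e rfl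
    have hnd := hl.nodup
    have hxa : y ≠ a := by
      rintro rfl
      simp at hnd
    have hyx' : y ≠ x := by
      rintro rfl
      simp at hnd
    have hnd3 := List.nodup_append.1 (List.nodup_cons.1 (List.nodup_cons.1 hnd).2).2
    have hyB : y ∉ B := (List.nodup_cons.1 hnd3.2.1).1
    have hyA : y ∉ A := fun hh => hnd3.2.2 y hh y (by simp) rfl
    -- the directed edges xy and yx are not in the triangle, if w ≠ y
    have keep1 : Dir (T \ tri x a w) x y := by
      rcases (dir_iff hT h x y).1 hxy with h1 | ⟨_, h1⟩ | ⟨h1, _⟩ | ⟨_, h1⟩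
      · exact h1
      · exact absurd h1 hxa
      · exact absurd h1 n1
      · exact absurd h1 hyx'
    have keep2 : w ≠ y → Dir (T \ tri x a w) y x := by
      intro hw
      rcases (dir_iff hT h y x).1 hyx with h1 | ⟨h1, _⟩ | ⟨h1, _⟩ | ⟨h1, _⟩
      · exact h1
      · exact absurd h1 hyx'
      · exact absurd h1 hxa
      · exact absurd h1.symm hw
    rcases disc_cases hD h hb with h0 | ⟨h1, h2, h3, h4⟩ | ⟨h1, h2, h3, h4⟩ | ⟨h1, h2, h3⟩ |
      ⟨X, Y, h1, hdj, h3, h4, h5, h6, h7⟩
    · -- (A)
      exfalso
      obtain ⟨c, hc⟩ := keep1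
      obtain ⟨hc1, hc2⟩ := Finset.mem_sdiff.1 hc
      exact hc2 (h0.subset hc1)
    · -- (B1)
      exfalso
      obtain ⟨c, hc⟩ := keep1
      exact h4 (vert1 hc)
    · -- (B2)
      obtain ⟨l1, hl1⟩ := disc_list h1
      obtain ⟨m2, hm2⟩ := hl1.form h2
      have hm : A ++ y :: B = w :: m2 := by
        apply mform
        exact bdB2 hT h hb h3 h4 hm2
      have hxw : Dir (T \ tri x a w) x w := h2.1
      have hwa : ¬ Dir T w a := fun ⟨c, hc⟩ => h3 c hc
      cases A with
      | nil =>
        simp only [List.nil_append, List.cons.injEq] at hm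
        obtain ⟨rfl, rfl⟩ := hm
        refine ⟨tri x a y, T \ tri x a y, ⟨?_, Finset.disjoint_sdiff, tri_isCx hT h, hT',
          conn_tri _ _ _, h1.conn, ?_, ?_, ?_⟩, dir_tri.2 (Or.inr (Or.inr ⟨rfl, rfl⟩)), hxw⟩
        · exact (Finset.union_sdiff_of_subset (tri_sub hT h)).symm
        · intro p q hp hq
          rcases dir_tri.1 hp with ⟨rfl, rfl⟩ | ⟨rfl, rfl⟩ | ⟨rfl, rfl⟩
          · exact absurd (dir_mono Finset.sdiff_subset hq) hb'
          · exact absurd (dir_mono Finset.sdiff_subset hq) hwa
          · exact ⟨rfl, rfl⟩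
        · intro p q hpq
          rcases hpq with ⟨rfl, rfl⟩ | hpq
          · exact dir_tri.2 (Or.inl ⟨rfl, rfl⟩)
          · exact dir_tri.2 (Or.inr (Or.inl ((nx_two _ _ _ _).1 hpq)))
        · intro p q hpq
          exact ((hm2.iff p q).2 (cyc_nx hpq)).1
      | cons z A =>
        simp only [List.cons_append, List.cons.injEq] at hm
        obtain ⟨rfl, rfl⟩ := hm
        have hwy : z ≠ y := by
          rintro rfl
          simp at hnd
        have hl2 : IsBd (T \ tri x a z) (x :: z :: (A ++ y :: B)) := by
          refine hm2.rot ?_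
          have e : z :: ((A ++ y :: B) ++ [x]) = (z :: (A ++ y :: B)) ++ [x] := by simp
          rw [e]
          have e2 := List.IsRotated.symm (⟨1, rfl⟩ :
            (x :: z :: (A ++ y :: B)) ~r (x :: z :: (A ++ y :: B)).rotate 1)
          simpa using e2
        obtain ⟨X, Y, S, d1, d2⟩ := ih _ (by omega) h1 x y z A B hl2 hB keep1 (keep2 hwy)
        have hXs : X ⊆ T \ tri x a z := by rw [S.un]; exact Finset.subset_union_left
        have hYs : Y ⊆ T \ tri x a z := by rw [S.un]; exact Finset.subset_union_right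
        have hxz : Dir X x z := S.ea x z (Or.inl ⟨rfl, rfl⟩)
        refine ⟨X ∪ tri x a z, Y, Sd.addtri hT h hb' S ?_ ?_ (Or.inr hxz) ?_,
          dir_union.2 (Or.inl d1), d2⟩
        · intro hd
          exact hwa (dir_mono (hYs.trans Finset.sdiff_subset) hd)
        · intro hd
          exact dir_clash hT' hXs hYs S.dj hxz hd
        · intro p q hpq
          rcases hpq with hpq | hpq
          · exact Or.inr (Or.inl hpq)
          · have hpq' : Nx (a :: z :: (A ++ [y])) p q := hpq
            rcases hpq' with hpq' | hpq'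
            · exact Or.inr (Or.inr hpq')
            · exact Or.inl (Or.inr hpq')
    · -- (C)
      obtain ⟨l1, hl1⟩ := disc_list h1
      obtain ⟨m', hm'⟩ := hl1.form2 h2 h3 n1.symm
      have hm : A ++ y :: B = m' := mform m' (bdC hT h hb hm')
      subst hm
      have hwy : w ≠ y := by
        rintro rfl
        have hn := hm'.nodup
        have e : a :: ((A ++ w :: B) ++ [x, w]) = (a :: (A ++ w :: B)) ++ [x, w] := by simp
        rw [e, List.nodup_append] at hn
        exact hn.2.2 w (by simp) w (by simp) rfl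
      have hl2 : IsBd (T \ tri x a w) (x :: w :: ((a :: A) ++ y :: B)) := by
        refine hm'.rot ?_
        have e : a :: ((A ++ y :: B) ++ [x, w]) = (a :: (A ++ y :: B)) ++ [x, w] := by simp
        rw [e]
        exact List.isRotated_append
      obtain ⟨X, Y, S, d1, d2⟩ := ih _ (by omega) h1 x y w (a :: A) B hl2 hB keep1 (keep2 hwy)
      have hXs : X ⊆ T \ tri x a w := by rw [S.un]; exact Finset.subset_union_left
      have hYs : Y ⊆ T \ tri x a w := by rw [S.un]; exact Finset.subset_union_right
      have hxw : Dir X x w := S.ea x w (Or.inl ⟨rfl, rfl⟩)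
      have hwa : Dir X w a := S.ea w a (Or.inr (Or.inl ⟨rfl, rfl⟩))
      refine ⟨X ∪ tri x a w, Y, Sd.addtri hT h hb' S ?_ ?_ (Or.inr hxw) ?_,
        dir_union.2 (Or.inl d1), d2⟩
      · intro hd
        exact dir_clash hT' hXs hYs S.dj hwa hd
      · intro hd
        exact dir_clash hT' hXs hYs S.dj hxw hd
      · intro p q hpq
        rcases hpq with hpq | hpq
        · exact Or.inr (Or.inl hpq)
        · exact Or.inl (Or.inr (Or.inr hpq))
    · -- (D)
      obtain ⟨l1, hl1⟩ := disc_list h3
      obtain ⟨l2, hl2⟩ := disc_list h4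
      obtain ⟨m1, hm1⟩ := hl1.form h5
      obtain ⟨m2, hm2⟩ := hl2.form h6
      have hm : A ++ y :: B = m1 ++ w :: m2 := by
        apply mform
        have := bdD hT h hb h1 h3.cx h4.cx h7 hm1 hm2
        have e : a :: ((m1 ++ w :: m2) ++ [x]) = a :: (m1 ++ w :: (m2 ++ [x])) := by simp
        rw [e]
        exact this
      have hXs : X ⊆ T \ tri x a w := by rw [h1]; exact Finset.subset_union_left
      have hYs : Y ⊆ T \ tri x a w := by rw [h1]; exact Finset.subset_union_right
      have vw : ∀ v, v ∈ verts X → v ∈ verts Y → v = w := by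
        intro v hv hv'
        have : v ∈ verts X ∩ verts Y := Finset.mem_inter.2 ⟨hv, hv'⟩
        rw [h7] at this
        exact Finset.mem_singleton.1 this
      have nXY : ∀ p q, Dir X p q → ¬ Dir Y q p := by
        intro p q hp hq
        obtain ⟨e1, e2⟩ := dir_verts h3.cx hp
        obtain ⟨e3, e4⟩ := dir_verts h4.cx hq
        have := vw p e1 e4
        have := vw q e2 e3
        exact dir_ne h3.cx hp (by rw [vw p e1 e4, vw q e2 e3])
      have hwa : Dir X w a := h5.1
      have hxw : Dir Y x w := h6.1
      have hxY : x ∈ verts Y := (dir_verts h4.cx hxw).1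
      have cZ : IsCx (X ∪ tri x a w) :=
        cx_union hT (hXs.trans Finset.sdiff_subset) (tri_sub hT h) h3.cx (tri_isCx hT h)
      have nZ : Conn (X ∪ tri x a w) :=
        conn_add h3.conn (conn_tri _ _ _) hwa (dir_tri.2 (Or.inr (Or.inl ⟨rfl, rfl⟩)))
      have hdZ : Disjoint Y (X ∪ tri x a w) := by
        rw [Finset.disjoint_union_right]
        exact ⟨hdj.symm, Finset.disjoint_of_subset_left hYs Finset.sdiff_disjoint⟩
      have huZ : T = Y ∪ (X ∪ tri x a w) := by
        calc T = (T \ tri x a w) ∪ tri x a w :=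
            (Finset.sdiff_union_of_subset (tri_sub hT h)).symm
          _ = (X ∪ Y) ∪ tri x a w := by rw [← h1]
          _ = Y ∪ (X ∪ tri x a w) := by
            rw [Finset.union_comm X Y, Finset.union_assoc]
      have caseY : ∀ m1' : List V, A = m1' → w = y → m2 = B → m1 = m1' →
          ∃ X Y, Sd T X Y (fun p q => p = y ∧ q = x) (x :: a :: (A ++ [y])) (y :: (B ++ [x])) ∧
            Dir X y x ∧ Dir Y x y := by
        rintro m1' rfl rfl rfl rfl
        refine ⟨X ∪ tri x a w, Y, ⟨?_, hdZ.symm, cZ, h4.cx, nZ, h4.conn, ?_, ?_, ?_⟩,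
          dir_union.2 (Or.inr (dir_tri.2 (Or.inr (Or.inr ⟨rfl, rfl⟩)))), hxw⟩
        · rw [Finset.union_comm]
          exact huZ
        · intro p q hp hq
          rcases dir_union.1 hp with hp | hp
          · exact absurd hq (nXY p q hp)
          · rcases dir_tri.1 hp with ⟨rfl, rfl⟩ | ⟨rfl, rfl⟩ | ⟨rfl, rfl⟩
            · exact absurd (dir_mono (hYs.trans Finset.sdiff_subset) hq) hb'
            · exact (dir_clash hT' hXs hYs hdj hwa hq).elim
            · exact ⟨rfl, rfl⟩
        · intro p q hpq
          rcases hpq with hpq | hpq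
          · exact dir_union.2 (Or.inr (dir_tri.2 (Or.inl hpq)))
          · exact dir_union.2 (Or.inl ((hm1.iff p q).2 (cyc_nx hpq)).1)
        · intro p q hpq
          exact ((hm2.iff p q).2 (cyc_nx hpq)).1
      rcases List.append_eq_append_iff.1 hm with ⟨as, e1, e2⟩ | ⟨bs, e1, e2⟩
      · cases as with
        | nil =>
          simp only [List.nil_append, List.cons.injEq] at e2
          exact caseY A rfl e2.1.symm e2.2.symm (by simpa using e1)
        | cons z as =>
          exfalso
          simp only [List.cons_append, List.cons.injEq] at e2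
          obtain ⟨rfl, e2⟩ := e2
          have hyX : y ∈ verts X := hm1.verts h3.cx (by rw [e1]; simp)
          have hwy : w ≠ y := by
            rintro rfl
            exact hyB (by rw [e2]; simp)
          obtain ⟨c, hc⟩ := keep1
          rw [h1] at hc
          rcases Finset.mem_union.1 hc with hc | hc
          · exact n3 (vw x (vert1 hc) hxY).symm
          · exact hwy (vw y hyX (vert2 h4.cx hc)).symm
      · cases bs with
        | nil =>
          simp only [List.nil_append, List.cons.injEq] at e2
          exact caseY A rfl e2.1 e2.2 (by simpa using e1.symm)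
        | cons z bs =>
          simp only [List.cons_append, List.cons.injEq] at e2
          obtain ⟨rfl, rfl⟩ := e2
          subst e1
          have hwy : w ≠ y := by
            rintro rfl
            exact hyA (by simp)
          have hwx : x ≠ w := n3.symm
          have toY : ∀ p q, (p = x ∨ q = x) → Dir (T \ tri x a w) p q → Dir Y p q := by
            intro p q hpq hd
            rw [h1] at hd
            rcases dir_union.1 hd with hd | hd
            · exfalso
              obtain ⟨f1, f2⟩ := dir_verts h3.cx hd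
              rcases hpq with rfl | rfl
              · exact hwx (vw _ f1 hxY)
              · exact hwx (vw _ f2 hxY)
            · exact hd
          have hl3 : IsBd Y (x :: w :: (bs ++ y :: B)) := by
            refine hm2.rot ?_
            have e : w :: ((bs ++ y :: B) ++ [x]) = (w :: (bs ++ y :: B)) ++ [x] := by simp
            rw [e]
            exact List.isRotated_append
          have hYc : Y.card ≤ n := by
            have : Y.card ≤ (T \ tri x a w).card := Finset.card_le_card hYs
            omega
          obtain ⟨X', Y', S, d1, d2⟩ := ih Y hYc h4 x y w bs B hl3 hB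
            (toY x y (Or.inl rfl) keep1) (toY y x (Or.inr rfl) (keep2 hwy))
          have sX' : X' ⊆ Y := by rw [S.un]; exact Finset.subset_union_left
          have sY' : Y' ⊆ Y := by rw [S.un]; exact Finset.subset_union_right
          have hxw' : Dir X' x w := S.ea x w (Or.inl ⟨rfl, rfl⟩)
          refine ⟨X' ∪ (X ∪ tri x a w), Y', Sd.ext hT huZ hdZ cZ nZ S hxw'
            (dir_union.2 (Or.inr (dir_tri.2 (Or.inr (Or.inr ⟨rfl, rfl⟩))))) ?_ ?_,
            dir_union.2 (Or.inl d1), d2⟩
          · intro p q hp hq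
            rcases dir_union.1 hp with hp | hp
            · exact nXY p q hp (dir_mono sY' hq)
            · rcases dir_tri.1 hp with ⟨rfl, rfl⟩ | ⟨rfl, rfl⟩ | ⟨rfl, rfl⟩
              · exact hb' (dir_mono ((sY'.trans hYs).trans Finset.sdiff_subset) hq)
              · exact dir_clash hT' hXs hYs hdj hwa (dir_mono sY' hq)
              · exact dir_clash h4.cx sX' sY' S.dj hxw' hq
          · intro p q hpq
            rcases hpq with hpq | hpq
            · exact Or.inr (dir_union.2 (Or.inr (dir_tri.2 (Or.inl hpq))))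
            · have e : a :: ((m1 ++ w :: bs) ++ [y]) = (a :: m1) ++ w :: (bs ++ [y]) := by simp
              have hpq' : Nx (a :: ((m1 ++ w :: bs) ++ [y])) p q := hpq
              rw [e, nx_append] at hpq'
              rcases hpq' with hpq' | hpq'
              · have hpq2 : Nx (a :: (m1 ++ [w])) p q := by simpa using hpq'
                exact Or.inr (dir_union.2 (Or.inl ((hm1.iff p q).2 (cyc_nx hpq2)).1))
              · exact Or.inl (Or.inr hpq')

end Pool.Agent.H72.G4
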