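import Pool.Agent.H72.G4.Row
import Pool.Agent.H13.G4.Bdg

/-!
# Definitions of the discharging

* `Qz` : the quad `a, o, f, i` with dummy `d`.
* `Sh` (H32) : an edge which is short in a real triangle, that is, not special.
* `MidS` : the spoke `a o` is on a mid corner of `a`.
* `Ask a d` : the inner vertex `a` (type `Z6` or `W6`) asks across the quad with dummy `d`.
* `Don a d b` : `b` is the donor.
* `Xr v b` : the inner vertex `v` of type `X1` requests from the end `b` of its special arc.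
* `pA`, `rA`, `rB` : asked corners and request patterns in a word.
-/

set_option autoImplicit false

namespace Pool.Agent.H72.G4

open Relation Pool.Agent.H13.DA Pool.Agent.H21.G4 Pool.Agent.H96.G4 Pool.Agent.H32.G4
open Pool.Agent.H13.G4
open CT

variable {V : Type*} [DecidableEq V]

/-- the directed quad `a, o, f, i` (one of the two orientations) with dummy `d` -/
structure Qz (T : Finset (V × V × V)) (D : V → V → Prop) (a o f i d : V) : Prop where
  nd : ¬ Re D d
  adj : ∀ y, Adj T d y ↔ y = a ∨ y = o ∨ y = f ∨ y = i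
  dir : (D a o ∧ D o f ∧ D f i ∧ D i a) ∨ (D o a ∧ D f o ∧ D i f ∧ D a i)

/-- the spoke `a o` is on a mid corner of `a` -/
def MidS (T : Finset (V × V × V)) (D : V → V → Prop) (a o : V) : Prop :=
  ∃ z, Re D z ∧ Face T a o z ∧ Mid D a o z

/-- `a` has the word of `Z6` or of `W6` -/
def Askr (T : Finset (V × V × V)) (D : V → V → Prop) (a : V) : Prop :=
  ∃ (x : Fin 6 → V) (w : Fin 6 → CT), Rot T D a 5 x w ∧
    ([w 0, w 1, w 2, w 3, w 4, w 5] = [m, q, m, q, m, q] ∨
      [w 0, w 1, w 2, w 3, w 4, w 5] = [m, q, m, q, q, q])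

/-- the inner vertex `a` asks across the quad with dummy `d` -/
def Ask (T X : Finset (V × V × V)) (D : V → V → Prop) (Z : List V) (a d : V) : Prop :=
  In X D Z a ∧ Askr T D a ∧ ∃ o f i, Qz T D a o f i d ∧ MidS T D a o ∧ MidS T D a i

/-- `b` is the donor for the ask of `a` across `d` -/
def Don (T : Finset (V × V × V)) (D : V → V → Prop) (Z : List V) (a d b : V) :
    Prop :=
  ∃ o f i, Qz T D a o f i d ∧ MidS T D a o ∧ MidS T D a i ∧
    ((b = o ∧ o ∈ Z) ∨ (o ∉ Z ∧ i ∉ Z ∧ b = f ∧ f ∈ Z) ∨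
      (o ∉ Z ∧ i ∉ Z ∧ f ∉ Z ∧ ((b = o ∧ Sh T D f i ∧ ¬ Sh T D o f) ∨
        (b = f ∧ ¬ Sh T D f i ∧ ¬ Sh T D o f))))

/-- the inner vertex `v` of type `X1` requests from `b`; `y` is the other end of its arc -/
def Xr (T X : Finset (V × V × V)) (D : V → V → Prop) (Z : List V) (v b : V) : Prop :=
  In X D Z v ∧ ∃ p r s t, X1 T D v p r s t ∧ (b = r ∨ b = s)

section words

variable {n : ℕ} (w : Fin (n + 1) → CT)

/-- asked corner -/
def pA (j : Fin (n + 1)) : Prop :=
  w j = q ∧ (((w (j - 1)).cr = true ∧ (w (j + 1)).cl = true) ∨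
    (w (j - 1) = s1 ∧ (w (j + 1)).cl = true) ∨ (w (j + 1) = s2 ∧ (w (j - 1)).cr = true))

/-- request pattern -/
def rA (j : Fin (n + 1)) : Prop := w j = s2 ∧ w (j + 1) = s2 ∧ (w (j + 1 + 1)).cl = true

/-- request pattern, mirrored -/
def rB (j : Fin (n + 1)) : Prop := w j = s1 ∧ w (j + 1) = s1 ∧ (w (j - 1)).cr = true

instance (j : Fin (n + 1)) : Decidable (pA w j) := by unfold pA; infer_instance
instance (j : Fin (n + 1)) : Decidable (rA w j) := by unfold rA; infer_instance
instance (j : Fin (n + 1)) : Decidable (rB w j) := by unfold rB; infer_instance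

end words

end Pool.Agent.H72.G4
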