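import Pool.Agent.H72.G4.Peel

/-!
# Removing a boundary edge
-/

set_option autoImplicit false

namespace Pool.Agent.H72.G4

open Relation Pool.Agent.H13.DA

variable {V : Type*} [DecidableEq V] {T : Finset (V × V × V)}

/-- **Removing a boundary edge** `v a` whose triangle `v a w` has its apex `w` off the boundary. -/
theorem edge_del (hD : Disc T) {v a w : V} {M : List V} (hl : IsBd T (v :: a :: M))
    (h : (v, a, w) ∈ T) (hw : w ∉ v :: a :: M) :
    Disc (T \ tri v a w) ∧ IsBd (T \ tri v a w) (v :: w :: a :: M) ∧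
      ¬ Adj (T \ tri v a w) v a ∧
      ∀ x y, Adj T x y ↔ Adj (T \ tri v a w) x y ∨ (x = v ∧ y = a) ∨ (x = a ∧ y = v) := by
  have hT := hD.cx
  have hnd := hl.nodup
  have hva : Bd T v a := (hl.iff v a).2 (Or.inl ⟨rfl, rfl⟩)
  have hb := hva.2
  obtain ⟨n1, n2, n3⟩ := cx_ne hT h
  obtain ⟨h', h''⟩ := rot3 hT h
  have hb' : ¬ Dir T a v := fun ⟨c, hc⟩ => hb c hc
  have hr : (v :: a :: M) ~r (a :: (M ++ [v])) := ⟨1, by simp⟩
  have hl' := hl.rot hr
  have mform : ∀ m' : List V, IsBd T (a :: (m' ++ [v])) → M = m' := by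
    intro m' hm'
    have e := head_unique (hl'.unique hm') hl'.nodup
    exact List.append_inj_left' e rfl
  rcases disc_cases hD h hb with h0 | ⟨h1, h2, h3, h4⟩ | ⟨h1, h2, h3, h4⟩ | ⟨h1, h2, h3⟩ |
    ⟨X, Y, h1, hdj, h3, h4, h5, h6, h7⟩
  · exfalso
    have hl2 : IsBd T [a, w, v] := by
      rw [h0]
      exact bdA n1 n2 n3
    have e := mform [w] hl2
    rw [e] at hw
    simp at hw
  · exfalso
    have hwv : Bd T w v := ⟨⟨a, h''⟩, h3⟩
    exact hw (bd_mem hl hwv).1
  · exfalso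
    have haw : Bd T a w := ⟨⟨v, h'⟩, h3⟩
    exact hw (bd_mem hl haw).2
  · obtain ⟨l1, hl1⟩ := disc_list h1
    obtain ⟨m2, hm2⟩ := hl1.form2 h2 h3 n1.symm
    have hm : M = m2 := mform m2 (bdC hT h hb hm2)
    subst hm
    have hna : ¬ Adj (T \ tri v a w) v a := by
      rintro (hd | hd)
      · exact dir_gone hT h hd
      · exact hb' (dir_mono Finset.sdiff_subset hd)
    refine ⟨h1, ?_, hna, ?_⟩
    · refine hm2.rot ?_
      have e : a :: (M ++ [v, w]) = (a :: M) ++ [v, w] := by simp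
      rw [e]
      refine List.isRotated_append.trans ?_
      have e2 : [v, w] ++ (a :: M) = v :: w :: a :: M := by simp
      rw [e2]
    · intro x y
      rw [adj_del hT h]
      have k1 : Adj (T \ tri v a w) w a := Or.inl h2.1
      have k2 : Adj (T \ tri v a w) v w := Or.inl h3.1
      constructor
      · rintro (q | ⟨rfl, rfl⟩ | ⟨rfl, rfl⟩ | ⟨rfl, rfl⟩ | ⟨rfl, rfl⟩ | ⟨rfl, rfl⟩ | ⟨rfl, rfl⟩)
        · exact Or.inl q
        · exact Or.inr (Or.inl ⟨rfl, rfl⟩)
        · exact Or.inl k1.symm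
        · exact Or.inl k2.symm
        · exact Or.inr (Or.inr ⟨rfl, rfl⟩)
        · exact Or.inl k1
        · exact Or.inl k2
      · rintro (q | ⟨rfl, rfl⟩ | ⟨rfl, rfl⟩)
        · exact Or.inl q
        · tauto
        · tauto
  · exfalso
    obtain ⟨l1, hl1⟩ := disc_list h3
    obtain ⟨m1, hm1⟩ := hl1.form h5
    obtain ⟨l2, hl2⟩ := disc_list h4
    obtain ⟨m2, hm2⟩ := hl2.form h6
    have hB := bdD hT h hb h1 h3.cx h4.cx h7 hm1 hm2
    refine hw (head_mem (hl.unique hB) ?_)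
    simp

/-- the triangle at a boundary edge -/
theorem edge_apex {l : List V} (hl : IsBd T l) {v a : V} (h : Cyc l v a) :
    ∃ w, (v, a, w) ∈ T := ((hl.iff v a).2 h).1

end Pool.Agent.H72.G4
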