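import Pool.Agent.H35.G4.Dis2
import Pool.Agent.H94.G4.W6r
import Pool.Agent.H65.G4.EngP
import Pool.Agent.H67.G4.Ctx

/-!
# Assembly: there is no minimal counterexample
-/

set_option autoImplicit false

namespace Pool.Agent.H72.G4

open Relation Pool.Agent.H13.DA Pool.Agent.H21.G4 Pool.Agent.H96.G4 Pool.Agent.H32.G4
open Pool.Agent.H13.G4 Pool.Agent.H35.G4
open CT

variable {V : Type*} [DecidableEq V] {T : Finset (V × V × V)} {D : V → V → Prop} {a b c : V}

/-- **There is no minimal counterexample**: Stage A / B (`exists_ctx`) gives a region in which all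
inner vertices are good and the 5-cycles are controlled; the discharging (`discharge`) with the
path contractions (`pcl_ok`, `row_W6_pca`) gives the contradiction. -/
theorem no_mcw [Infinite V] (hM : MCw T D a b c) (hT : Ts T D a b c) : False := by
  obtain ⟨X, Z, hC⟩ := Pool.Agent.H67.G4.exists_ctx fanT hM hT
  refine discharge hM hT hC (fun u hu n x w R h => ?_)
  rcases List.mem_append.1 h with h | h
  · exact Pool.Agent.H65.G4.pcl_ok hM hT hC hu R h
  · exact Pool.Agent.H94.G4.row_W6_pca hM hT hC u hu n x w R h

end Pool.Agent.H72.G4
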