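import Pool.Agent.H72.G4.Fill
import Pool.Agent.H13.G4.StarD
import Pool.Agent.H96.G4.Chg

/-!
# The rotation at an inner real vertex
-/

set_option autoImplicit false

namespace Pool.Agent.H72.G4

open Relation Pool.Agent.H13.DA Pool.Agent.H21.G4 Pool.Agent.H96.G4

section lists

variable {V : Type*}

theorem nx_filter (re : V → Prop) [DecidablePred re] : ∀ l : List V,
    (∀ a b, Nx l a b → re a ∨ re b) → ∀ x y, Nx (l.filter re) x y →
    re x ∧ re y ∧ (Nx l x y ∨ ∃ d, ¬ re d ∧ Nx l x d ∧ Nx l d y)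
  | [], _, x, y, h => h.elim
  | [a], _, x, y, h => by
    by_cases ha : re a
    · simp only [List.filter_cons, ha, decide_true, if_true, List.filter_nil] at h
      exact h.elim
    · simp only [List.filter_cons, ha, decide_false, List.filter_nil] at h
      exact h.elim
  | [a, b], hre, x, y, h => by
    by_cases ha : re a <;> by_cases hb : re b <;>
      simp only [List.filter_cons, ha, hb, decide_true, decide_false, if_true,
        List.filter_nil, Bool.false_eq_true, if_false] at h
    · rcases h with ⟨rfl, rfl⟩ | h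
      · exact ⟨ha, hb, Or.inl (Or.inl ⟨rfl, rfl⟩)⟩
      · exact h.elim
    · exact h.elim
    · exact h.elim
    · exact h.elim
  | a :: b :: c :: l, hre, x, y, h => by
    have h1 : ∀ p q, Nx (b :: c :: l) p q → Nx (a :: b :: c :: l) p q := fun p q k => Or.inr k
    have ih := nx_filter re (b :: c :: l) (fun p q k => hre p q (h1 p q k)) x y
    have lift : (re x ∧ re y ∧ (Nx (b :: c :: l) x y ∨
        ∃ d, ¬ re d ∧ Nx (b :: c :: l) x d ∧ Nx (b :: c :: l) d y)) →
        re x ∧ re y ∧ (Nx (a :: b :: c :: l) x y ∨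
        ∃ d, ¬ re d ∧ Nx (a :: b :: c :: l) x d ∧ Nx (a :: b :: c :: l) d y) := by
      rintro ⟨k1, k2, k3 | ⟨d, k3, k4, k5⟩⟩
      · exact ⟨k1, k2, Or.inl (h1 _ _ k3)⟩
      · exact ⟨k1, k2, Or.inr ⟨d, k3, h1 _ _ k4, h1 _ _ k5⟩⟩
    by_cases ha : re a
    · by_cases hb : re b
      · have e : (a :: b :: c :: l).filter re = a :: b :: (c :: l).filter re := by
          rw [List.filter_cons_of_pos (by simpa using ha), List.filter_cons_of_pos
            (by simpa using hb)]
        have e2 : (b :: c :: l).filter re = b :: (c :: l).filter re :=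
          List.filter_cons_of_pos (by simpa using hb)
        rw [e] at h
        rcases h with ⟨rfl, rfl⟩ | h
        · exact ⟨ha, hb, Or.inl (Or.inl ⟨rfl, rfl⟩)⟩
        · rw [e2] at ih
          exact lift (ih h)
      · have hc : re c := by
          rcases hre b c (Or.inr (Or.inl ⟨rfl, rfl⟩)) with k | k
          · exact absurd k hb
          · exact k
        have e : (a :: b :: c :: l).filter re = a :: c :: l.filter re := by
          rw [List.filter_cons_of_pos (by simpa using ha), List.filter_cons_of_neg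
            (by simpa using hb), List.filter_cons_of_pos (by simpa using hc)]
        have e2 : (b :: c :: l).filter re = c :: l.filter re := by
          rw [List.filter_cons_of_neg (by simpa using hb), List.filter_cons_of_pos
            (by simpa using hc)]
        rw [e] at h
        rcases h with ⟨rfl, rfl⟩ | h
        · exact ⟨ha, hc, Or.inr ⟨b, hb, Or.inl ⟨rfl, rfl⟩, Or.inr (Or.inl ⟨rfl, rfl⟩)⟩⟩
        · rw [e2] at ih
          exact lift (ih h)
    · have e : (a :: b :: c :: l).filter re = (b :: c :: l).filter re :=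
        List.filter_cons_of_neg (by simpa using ha)
      rw [e] at h
      exact lift (ih h)

theorem nx_getElem : ∀ (l : List V) (i : ℕ) (h : i + 1 < l.length),
    Nx l (l[i]'(by omega)) (l[i + 1]'h)
  | [], i, h => by simp at h
  | [a], i, h => by simp at h
  | a :: b :: l, 0, h => Or.inl ⟨rfl, rfl⟩
  | a :: b :: l, i + 1, h => Or.inr (nx_getElem (b :: l) i (by simpa using h))

theorem cyc_getElem (R : List V) (n : ℕ) (hn : R.length = n + 1) (i : Fin (n + 1)) :
    Cyc R (R[i.val]'(by omega)) (R[(i + 1).val]'(by have := (i + 1).isLt; omega)) := by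
  cases R with
  | nil => simp at hn
  | cons z m =>
    have hm : m.length = n := by simpa using hn
    have hlen : (z :: (m ++ [z])).length = n + 2 := by simp [hm]
    have key := nx_getElem (z :: (m ++ [z])) i.val (by have := i.isLt; omega)
    change Nx (z :: (m ++ [z])) _ _
    have e1 : (z :: (m ++ [z]))[i.val]'(by have := i.isLt; omega) =
        (z :: m)[i.val]'(by have := i.isLt; omega) := by
      have : z :: (m ++ [z]) = (z :: m) ++ [z] := rfl
      simp only [this]
      rw [List.getElem_append_left (by have := i.isLt; simp only [List.length_cons]; omega)]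
    have e2 : (z :: (m ++ [z]))[i.val + 1]'(by have := i.isLt; omega) =
        (z :: m)[(i + 1).val]'(by have := (i + 1).isLt; simp only [List.length_cons]; omega) := by
      have : z :: (m ++ [z]) = (z :: m) ++ [z] := rfl
      by_cases hi : i.val = n
      · have h2 : (i + 1).val = 0 := by
          rw [Fin.val_add_one]
          have : i = Fin.last n := Fin.ext hi
          simp [this]
        have e3 : (z :: m)[(i + 1).val]'(by have := (i + 1).isLt; simp only [List.length_cons]; omega) = z := by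
          simp [h2]
        rw [e3]
        simp only [this]
        rw [List.getElem_append_right (by simp [hm, hi])]
        simp
      · have h2 : (i + 1).val = i.val + 1 := by
          rw [Fin.val_add_one]
          have : i ≠ Fin.last n := fun h => hi (by rw [h]; rfl)
          simp [this]
        simp only [this]
        rw [List.getElem_append_left (by have := i.isLt; simp [hm]; omega)]
        simp [h2]
    rw [e1, e2] at key
    exact key

end lists

/-- corner types: quad, same direction with the left / right arc long, mid -/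
inductive CT
  | q | s1 | s2 | m
  deriving DecidableEq, Fintype

section rot

variable {V : Type*} [DecidableEq V] {T : Finset (V × V × V)} {D : V → V → Prop} {a b c : V}

/-- the corner at `v` between `x` and the next neighbour `y` has the given type -/
def Cor (T : Finset (V × V × V)) (D : V → V → Prop) (v x y : V) : CT → Prop
  | CT.q => (∃ d, ¬ Re D d ∧ (v, x, d) ∈ T ∧ (v, d, y) ∈ T) ∧
      ((D x v ∧ D v y) ∨ (D v x ∧ D y v))
  | CT.s1 => (v, x, y) ∈ T ∧ ((D v x ∧ D v y ∧ D y x) ∨ (D x v ∧ D y v ∧ D x y))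
  | CT.s2 => (v, x, y) ∈ T ∧ ((D v x ∧ D v y ∧ D x y) ∨ (D x v ∧ D y v ∧ D y x))
  | CT.m => (v, x, y) ∈ T ∧ ((D x v ∧ D v y ∧ D x y) ∨ (D v x ∧ D y v ∧ D y x))

/-- the rotation at `v` -/
structure Rot (T : Finset (V × V × V)) (D : V → V → Prop) (v : V) (n : ℕ)
    (x : Fin (n + 1) → V) (w : Fin (n + 1) → CT) : Prop where
  inj : Function.Injective x
  nb : ∀ u, Ar D v u ↔ ∃ i, u = x i
  cor : ∀ i, Cor T D v (x i) (x (i + 1)) (w i)
  nx : ∀ i y, Re D y → (v, x i, y) ∈ T → y = x (i + 1) ∧ w i ≠ CT.q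

theorem cor_real (hT : Ts T D a b c) {v x y : V} (h : (v, x, y) ∈ T) (hv : Re D v) (hx : Re D x)
    (hy : Re D y) : ∃ t, t ≠ CT.q ∧ Cor T D v x y t := by
  have cx := hT.pl.disc.cx
  have h1 : Ar D v x := hT.re _ _ (Or.inl ⟨y, h⟩) hv hx
  have h2 : Ar D x y := hT.re _ _ (Or.inl ⟨v, cx.rot h⟩) hx hy
  have h3 : Ar D y v := hT.re _ _ (Or.inl ⟨x, cx.rot (cx.rot h)⟩) hy hv
  rcases h1 with h1 | h1 <;> rcases h2 with h2 | h2 <;> rcases h3 with h3 | h3
  · exact absurd h3 (hT.pl.tri _ _ _ h1 h2)
  · exact ⟨CT.s2, by decide, h, Or.inl ⟨h1, h3, h2⟩⟩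
  · exact ⟨CT.m, by decide, h, Or.inr ⟨h1, h3, h2⟩⟩
  · exact ⟨CT.s1, by decide, h, Or.inl ⟨h1, h3, h2⟩⟩
  · exact ⟨CT.s1, by decide, h, Or.inr ⟨h1, h3, h2⟩⟩
  · exact ⟨CT.m, by decide, h, Or.inl ⟨h1, h3, h2⟩⟩
  · exact ⟨CT.s2, by decide, h, Or.inr ⟨h1, h3, h2⟩⟩
  · exact absurd h1 (hT.pl.tri _ _ _ h3 h2)

theorem cor_quad (hT : Ts T D a b c) {v x y d : V} (h : (v, x, d) ∈ T) (h' : (v, d, y) ∈ T)
    (hv : Re D v) (hx : Re D x) (hy : Re D y) (hd : ¬ Re D d) (hxy : x ≠ y) :
    Cor T D v x y CT.q := by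
  refine ⟨⟨d, hd, h, h'⟩, ?_⟩
  have cx := hT.pl.disc.cx
  have h1 : Ar D v x := hT.re _ _ (Or.inl ⟨d, h⟩) hv hx
  have h2 : Ar D y v := hT.re _ _ (Or.inl ⟨d, cx.rot (cx.rot h')⟩) hy hv
  have hdv : Adj T d v := Or.inl ⟨x, cx.rot (cx.rot h)⟩
  have hdx : Adj T d x := Or.inr ⟨v, cx.rot h⟩
  have hdy : Adj T d y := Or.inl ⟨v, cx.rot h'⟩
  obtain ⟨x1, x2, x3, x4, f1, f2, f3, f4, f5⟩ := hT.du d ((verts_adj cx).2 ⟨v, hdv⟩) hd
  have n13 : ¬ Ar D x1 x3 := by
    rintro (h | h)
    · exact hT.pl.tri _ _ _ h f3 f4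
    · exact hT.pl.tri _ _ _ f1 f2 h
  have n24 : ¬ Ar D x2 x4 := by
    rintro (h | h)
    · exact hT.pl.tri _ _ _ h f4 f1
    · exact hT.pl.tri _ _ _ f2 f3 h
  have g1 := (f5 v).1 hdv
  have g2 := (f5 x).1 hdx
  have g3 := (f5 y).1 hdy
  have vx : v ≠ x := ar_ne cx hT.pl h1
  have vy : v ≠ y := (ar_ne cx hT.pl h2).symm
  rcases g1 with rfl | rfl | rfl | rfl
  · rcases g2 with rfl | rfl | rfl | rfl
    · exact absurd rfl vx
    · rcases g3 with rfl | rfl | rfl | rfl
      · exact absurd rfl vy
      · exact absurd rfl hxy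
      · exact absurd (ar_symm h2) n13
      · exact Or.inr ⟨f1, f4⟩
    · exact absurd h1 n13
    · rcases g3 with rfl | rfl | rfl | rfl
      · exact absurd rfl vy
      · exact Or.inl ⟨f4, f1⟩
      · exact absurd (ar_symm h2) n13
      · exact absurd rfl hxy
  · rcases g2 with rfl | rfl | rfl | rfl
    · rcases g3 with rfl | rfl | rfl | rfl
      · exact absurd rfl hxy
      · exact absurd rfl vy
      · exact Or.inl ⟨f1, f2⟩
      · exact absurd (ar_symm h2) n24
    · exact absurd rfl vx
    · rcases g3 with rfl | rfl | rfl | rfl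
      · exact Or.inr ⟨f2, f1⟩
      · exact absurd rfl vy
      · exact absurd rfl hxy
      · exact absurd (ar_symm h2) n24
    · exact absurd h1 n24
  · rcases g2 with rfl | rfl | rfl | rfl
    · exact absurd (ar_symm h1) n13
    · rcases g3 with rfl | rfl | rfl | rfl
      · exact absurd h2 n13
      · exact absurd rfl hxy
      · exact absurd rfl vy
      · exact Or.inl ⟨f2, f3⟩
    · exact absurd rfl vx
    · rcases g3 with rfl | rfl | rfl | rfl
      · exact absurd h2 n13
      · exact Or.inr ⟨f3, f2⟩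
      · exact absurd rfl vy
      · exact absurd rfl hxy
  · rcases g2 with rfl | rfl | rfl | rfl
    · rcases g3 with rfl | rfl | rfl | rfl
      · exact absurd rfl hxy
      · exact absurd h2 n24
      · exact Or.inr ⟨f4, f3⟩
      · exact absurd rfl vy
    · exact absurd (ar_symm h1) n24
    · rcases g3 with rfl | rfl | rfl | rfl
      · exact Or.inl ⟨f3, f4⟩
      · exact absurd h2 n24
      · exact absurd rfl hxy
      · exact absurd rfl vy
    · exact absurd rfl vx

/-- **The rotation at an inner real vertex exists.** -/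
theorem exists_rot [Infinite V] (hT : Ts T D a b c) {v : V} (hv : ¬ Tr a b c v) (hvr : Re D v) :
    ∃ (n : ℕ) (x : Fin (n + 1) → V) (w : Fin (n + 1) → CT), Rot T D v n x w := by
  classical
  have cx := hT.pl.disc.cx
  have hvl : v ∉ [a, b, c] := by
    intro h
    apply hv
    simpa [Tr] using h
  obtain ⟨L0, l1, l2, l3, l4, l5⟩ := Pool.Agent.H13.G4.link hT.pl.disc hT.pl.bd
    (hT.pl.re_mem hvr) hvl
  -- a real neighbour as head
  obtain ⟨u, hu⟩ := hvr
  have huL : u ∈ L0 := (l5 u).1 (hT.pl.ar_adj hu)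
  have hur : Re D u := (ar_re hu).2
  obtain ⟨m, hm⟩ := rot_head huL
  set L := u :: m with hL
  have hnd : L.Nodup := hm.nodup_iff.1 l1
  have h3 : 3 ≤ L.length := by rw [← hm.perm.length_eq]; exact l2
  have htri : ∀ x y, (v, x, y) ∈ T ↔ Cyc L x y := fun x y => (l4 x y).trans (cyc_rot hm x y)
  have hadj : ∀ x, Adj T v x ↔ x ∈ L := fun x => (l5 x).trans hm.perm.mem_iff
  have hvr : Re D v := ⟨u, hu⟩
  -- dummies are not adjacent
  have hdd : ∀ x y, Cyc L x y → Re D x ∨ Re D y := by
    intro x y hxy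
    by_contra hcon
    push Not at hcon
    have h := (htri x y).2 hxy
    obtain ⟨x1, x2, x3, x4, f1, f2, f3, f4, f5⟩ := hT.du x (vert2 cx h) hcon.1
    have := (f5 y).1 (Or.inl ⟨v, cx.rot h⟩)
    apply hcon.2
    rcases this with rfl | rfl | rfl | rfl
    · exact ⟨_, Or.inl f1⟩
    · exact ⟨_, Or.inl f2⟩
    · exact ⟨_, Or.inl f3⟩
    · exact ⟨_, Or.inl f4⟩
  set R := L.filter (fun x => Re D x) with hR
  have eR : R = u :: m.filter (fun x => Re D x) := by
    rw [hR, hL, List.filter_cons_of_pos (by simpa using hur)]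
  have hRn : R.Nodup := hnd.filter _
  have hRmem : ∀ x, x ∈ R ↔ Ar D v x := by
    intro x
    rw [hR, List.mem_filter]
    constructor
    · rintro ⟨k1, k2⟩
      exact hT.re _ _ ((hadj x).2 k1) hvr (by simpa using k2)
    · intro k
      exact ⟨(hadj x).1 (hT.pl.ar_adj k), by simpa using (ar_re k).2⟩
  have hRc : ∀ x y, Cyc R x y → Re D x ∧ Re D y ∧ (Cyc L x y ∨
      ∃ d, ¬ Re D d ∧ Cyc L x d ∧ Cyc L d y) := by
    intro x y hxy
    rw [eR] at hxy
    have e : u :: (m.filter (fun x => Re D x) ++ [u]) =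
        (u :: (m ++ [u])).filter (fun x => Re D x) := by
      rw [List.filter_cons_of_pos (by simpa using hur), List.filter_append,
        List.filter_cons_of_pos (by simpa using hur), List.filter_nil]
    change Nx (u :: (m.filter (fun x => Re D x) ++ [u])) x y at hxy
    rw [e] at hxy
    exact nx_filter (fun x => Re D x) (u :: (m ++ [u])) hdd x y hxy
  obtain ⟨n, hn⟩ : ∃ n, R.length = n + 1 := ⟨R.length - 1, by rw [eR]; simp⟩
  let x : Fin (n + 1) → V := fun i => R[i.val]'(by have := i.isLt; omega)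
  have hxR : ∀ i, x i ∈ R := fun i => List.getElem_mem _
  have hcyc : ∀ i, Cyc R (x i) (x (i + 1)) := fun i => cyc_getElem R n hn i
  -- R has at least two elements: a neighbour of the other direction would do; use the corner
  have hcor : ∀ i, ∃ t, Cor T D v (x i) (x (i + 1)) t ∧
      ∀ y, Re D y → (v, x i, y) ∈ T → y = x (i + 1) ∧ t ≠ CT.q := by
    intro i
    obtain ⟨r1, r2, r3 | ⟨d, r3, r4, r5⟩⟩ := hRc _ _ (hcyc i)
    · obtain ⟨t, t1, t2⟩ := cor_real hT ((htri _ _).2 r3) hvr r1 r2
      refine ⟨t, t2, fun y _ hy => ⟨?_, t1⟩⟩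
      exact cx.uniq hy ((htri _ _).2 r3)
    · have hne : x i ≠ x (i + 1) := by
        intro e
        rw [← e] at r5
        exact cyc_no2 hnd h3 r4 r5
      refine ⟨CT.q, cor_quad hT ((htri _ _).2 r4) ((htri _ _).2 r5) hvr r1 r2 r3 hne, ?_⟩
      intro y hy1 hy2
      have := cx.uniq hy2 ((htri _ _).2 r4)
      subst this
      exact absurd hy1 r3
  choose w hw1 hw2 using hcor
  refine ⟨n, x, w, ⟨?_, ?_, hw1, hw2⟩⟩
  · intro i j hij
    have := (List.Nodup.getElem_inj_iff hRn).1 hij
    exact Fin.ext this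
  · intro y
    rw [← hRmem y]
    constructor
    · intro hy
      obtain ⟨i, hi, hi2⟩ := List.getElem_of_mem hy
      exact ⟨⟨i, by omega⟩, hi2.symm⟩
    · rintro ⟨i, rfl⟩
      exact hxR i

end rot

end Pool.Agent.H72.G4
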