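import Pool.Agent.H13.DA.ToHD

/-!
# Cutting a disc along a chord (sides)
-/

set_option autoImplicit false

namespace Pool.Agent.H72.G4

open Relation Pool.Agent.H13.DA

variable {V : Type*} [DecidableEq V] {T : Finset (V × V × V)}

/-- `T` is cut into `X` (containing the directed edges of the path `la`) and `Y` (path `lb`); the
edges between `X` and `Y` satisfy `K`. -/
structure Sd (T X Y : Finset (V × V × V)) (K : V → V → Prop) (la lb : List V) : Prop where
  un : T = X ∪ Y
  dj : Disjoint X Y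
  cX : IsCx X
  cY : IsCx Y
  nX : Conn X
  nY : Conn Y
  fl : ∀ a b, Dir X a b → Dir Y b a → K a b
  ea : ∀ a b, Nx la a b → Dir X a b
  eb : ∀ a b, Nx lb a b → Dir Y a b

omit [DecidableEq V] in
theorem dir_mono {X Y : Finset (V × V × V)} (h : X ⊆ Y) {a b : V} (hd : Dir X a b) : Dir Y a b := by
  obtain ⟨c, hc⟩ := hd
  exact ⟨c, h hc⟩

omit [DecidableEq V] in
theorem dir_clash (hT : IsCx T) {X Y : Finset (V × V × V)} (hX : X ⊆ T) (hY : Y ⊆ T)
    (hd : Disjoint X Y) {a b : V} (h1 : Dir X a b) (h2 : Dir Y a b) : False := by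
  obtain ⟨c, hc⟩ := h1
  obtain ⟨d, hd'⟩ := h2
  have e := hT.uniq (hX hc) (hY hd')
  subst e
  exact Finset.disjoint_left.1 hd hc hd'

theorem dir_union {X Y : Finset (V × V × V)} {a b : V} :
    Dir (X ∪ Y) a b ↔ Dir X a b ∨ Dir Y a b := by
  constructor
  · rintro ⟨c, hc⟩
    rcases Finset.mem_union.1 hc with h | h
    · exact Or.inl ⟨c, h⟩
    · exact Or.inr ⟨c, h⟩
  · rintro (⟨c, hc⟩ | ⟨c, hc⟩)
    · exact ⟨c, Finset.mem_union_left _ hc⟩
    · exact ⟨c, Finset.mem_union_right _ hc⟩

omit [DecidableEq V] in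
theorem dir_tri {a b c x y : V} :
    Dir (tri a b c) x y ↔ (x = a ∧ y = b) ∨ (x = b ∧ y = c) ∨ (x = c ∧ y = a) := by
  constructor
  · rintro ⟨z, hz⟩
    rw [mem_tri] at hz
    simp only [Prod.mk.injEq] at hz
    tauto
  · rintro (⟨rfl, rfl⟩ | ⟨rfl, rfl⟩ | ⟨rfl, rfl⟩)
    · exact ⟨c, mem_tri.2 (Or.inl rfl)⟩
    · exact ⟨a, mem_tri.2 (Or.inr (Or.inl rfl))⟩
    · exact ⟨b, mem_tri.2 (Or.inr (Or.inr rfl))⟩

omit [DecidableEq V] in
theorem reach_mono {X Y : Finset (V × V × V)} (h : X ⊆ Y) {s t : V × V × V}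
    (hr : ReflTransGen (Step X) s t) : ReflTransGen (Step Y) s t := by
  induction hr with
  | refl => exact ReflTransGen.refl
  | tail _ hs ih =>
    refine ih.tail ?_
    cases hs with
    | rot h1 => exact Step.rot (h h1)
    | flip h1 h2 => exact Step.flip (h h1) (h h2)

theorem conn_add {X Z : Finset (V × V × V)} (nX : Conn X) (nZ : Conn Z) {a b : V}
    (h1 : Dir X a b) (h2 : Dir Z b a) : Conn (X ∪ Z) := by
  obtain ⟨c, hc⟩ := h1
  obtain ⟨d, hd⟩ := h2
  have s1 : X ⊆ X ∪ Z := Finset.subset_union_left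
  have s2 : Z ⊆ X ∪ Z := Finset.subset_union_right
  have f1 : ReflTransGen (Step (X ∪ Z)) (a, b, c) (b, a, d) :=
    ReflTransGen.single (Step.flip (s1 hc) (s2 hd))
  have f2 : ReflTransGen (Step (X ∪ Z)) (b, a, d) (a, b, c) :=
    ReflTransGen.single (Step.flip (s2 hd) (s1 hc))
  intro s hs t ht
  rcases Finset.mem_union.1 hs with hs | hs
  · rcases Finset.mem_union.1 ht with ht | ht
    · exact reach_mono s1 (nX s hs t ht)
    · exact ((reach_mono s1 (nX s hs _ hc)).trans f1).trans (reach_mono s2 (nZ _ hd t ht))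
  · rcases Finset.mem_union.1 ht with ht | ht
    · exact ((reach_mono s2 (nZ s hs _ hd)).trans f2).trans (reach_mono s1 (nX _ hc t ht))
    · exact reach_mono s2 (nZ s hs t ht)

omit [DecidableEq V] in
theorem conn_tri (a b c : V) : Conn (tri a b c) := by
  have m1 : (a, b, c) ∈ tri a b c := mem_tri.2 (Or.inl rfl)
  have m2 : (b, c, a) ∈ tri a b c := mem_tri.2 (Or.inr (Or.inl rfl))
  have m3 : (c, a, b) ∈ tri a b c := mem_tri.2 (Or.inr (Or.inr rfl))
  have r1 : ReflTransGen (Step (tri a b c)) (a, b, c) (b, c, a) := ReflTransGen.single (Step.rot m1)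
  have r2 : ReflTransGen (Step (tri a b c)) (b, c, a) (c, a, b) := ReflTransGen.single (Step.rot m2)
  have r3 : ReflTransGen (Step (tri a b c)) (c, a, b) (a, b, c) := ReflTransGen.single (Step.rot m3)
  intro s hs t ht
  rw [mem_tri] at hs ht
  rcases hs with rfl | rfl | rfl <;> rcases ht with rfl | rfl | rfl
  · exact ReflTransGen.refl
  · exact r1
  · exact r1.trans r2
  · exact r2.trans r3
  · exact ReflTransGen.refl
  · exact r2
  · exact r3
  · exact r3.trans r1
  · exact ReflTransGen.refl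

omit [DecidableEq V] in
theorem cx_sub (hT : IsCx T) {X : Finset (V × V × V)} (hX : X ⊆ T)
    (hr : ∀ {a b c}, (a, b, c) ∈ X → (b, c, a) ∈ X) : IsCx X where
  rot := hr
  ne := fun h => hT.ne (hX h)
  uniq := fun h h' => hT.uniq (hX h) (hX h')

theorem cx_union (hT : IsCx T) {X Z : Finset (V × V × V)} (hX : X ⊆ T) (hZ : Z ⊆ T)
    (cX : IsCx X) (cZ : IsCx Z) : IsCx (X ∪ Z) := by
  refine cx_sub hT (Finset.union_subset hX hZ) ?_
  intro a b c h
  rcases Finset.mem_union.1 h with h | h
  · exact Finset.mem_union_left _ (cX.rot h)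
  · exact Finset.mem_union_right _ (cZ.rot h)

omit [DecidableEq V] in
theorem cyc_of_nx {l : List V} {a b x : V} {m1 m2 : List V} (hl : l = m1 ++ m2)
    (h : Nx m2 a b) (hx : True) : Nx l a b := by
  subst hl
  induction m1 with
  | nil => exact h
  | cons z m1 ih =>
    cases hm : m1 ++ m2 with
    | nil => 
      rw [List.append_eq_nil_iff] at hm
      rw [hm.2] at h
      exact h.elim
    | cons z' m' =>
      rw [List.cons_append, hm]
      rw [hm] at ih
      exact Or.inr ih

omit [DecidableEq V] in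
theorem nx_left {l : List V} {a b : V} {m1 m2 : List V} (hl : l = m1 ++ m2)
    (h : Nx m1 a b) : Nx l a b := by
  subst hl
  induction m1 with
  | nil => exact h.elim
  | cons z m1 ih =>
    cases m1 with
    | nil => exact h.elim
    | cons z' m' =>
      rcases h with h | h
      · exact Or.inl h
      · exact Or.inr (ih h)

omit [DecidableEq V] in
/-- consecutive elements of the linear list are consecutive in the cyclic one -/
theorem cyc_nx {x : V} {l : List V} {a b : V} (h : Nx (x :: l) a b) : Cyc (x :: l) a b :=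
  nx_left (m1 := x :: l) (m2 := [x]) (by simp) h

omit [DecidableEq V] in
theorem nx_mem {l : List V} {a b : V} (h : Nx l a b) : a ∈ l ∧ b ∈ l := by
  obtain ⟨u, v, rfl⟩ := nx_split h
  simp

end Pool.Agent.H72.G4
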