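import Pool.Agent.H72.G4.Chord

/-!
# Splitting a disc along a chord
-/

set_option autoImplicit false

namespace Pool.Agent.H72.G4

open Relation Pool.Agent.H13.DA

variable {V : Type*} [DecidableEq V] {T : Finset (V × V × V)}

theorem Sd.subX {X Y : Finset (V × V × V)} {K : V → V → Prop} {la lb : List V}
    (S : Sd T X Y K la lb) : X ⊆ T := by rw [S.un]; exact Finset.subset_union_left

theorem Sd.subY {X Y : Finset (V × V × V)} {K : V → V → Prop} {la lb : List V}
    (S : Sd T X Y K la lb) : Y ⊆ T := by rw [S.un]; exact Finset.subset_union_right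

theorem Sd.swap {X Y : Finset (V × V × V)} {K : V → V → Prop} {la lb : List V}
    (S : Sd T X Y K la lb) : Sd T Y X (fun p q => K q p) lb la where
  un := by rw [S.un]; exact Finset.union_comm _ _
  dj := S.dj.symm
  cX := S.cY
  cY := S.cX
  nX := S.nY
  nY := S.nX
  fl := fun a b h1 h2 => S.fl b a h2 h1
  ea := S.eb
  eb := S.ea

theorem Sd.bdX (hT : IsCx T) {l : List V} (hl : IsBd T l) {X Y : Finset (V × V × V)}
    {K : V → V → Prop} {la lb : List V} (S : Sd T X Y K la lb)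
    (hc : ∀ p q, Cyc l p q ↔ Nx la p q ∨ Nx lb p q)
    (hK : ∀ p q, K p q → Dir X p q ∧ Dir Y q p) {L : List V} (hn : L.Nodup) (h3 : 3 ≤ L.length)
    (hL : ∀ p q, Cyc L p q ↔ Nx la p q ∨ K p q) : IsBd X L where
  nodup := hn
  len := h3
  iff := by
    intro p q
    rw [hL, bd_dir]
    constructor
    · rintro ⟨h1, h2⟩
      by_cases h4 : Dir T q p
      · right
        rw [S.un] at h4
        rcases dir_union.1 h4 with h4 | h4
        · exact absurd h4 h2
        · exact S.fl p q h1 h4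
      · have h5 : Bd T p q := bd_dir.2 ⟨dir_mono S.subX h1, h4⟩
        rcases (hc p q).1 ((hl.iff p q).1 h5) with h6 | h6
        · exact Or.inl h6
        · exact (dir_clash hT S.subX S.subY S.dj h1 (S.eb p q h6)).elim
    · rintro (h1 | h1)
      · refine ⟨S.ea p q h1, fun h2 => ?_⟩
        have h5 : Bd T p q := (hl.iff p q).2 ((hc p q).2 (Or.inl h1))
        exact (bd_dir.1 h5).2 (dir_mono S.subX h2)
      · obtain ⟨h2, h4⟩ := hK p q h1
        exact ⟨h2, fun h5 => dir_clash hT S.subX S.subY S.dj h5 h4⟩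

theorem Sd.disc (hD : Disc T) {X Y : Finset (V × V × V)}
    {K : V → V → Prop} {la lb : List V} (S : Sd T X Y K la lb)
    (hK : ∀ p q, K p q → Dir X p q ∧ Dir Y q p)
    (bX : ∃ a b, Bd X a b) (bY : ∃ a b, Bd Y a b)
    (E : Finset (Sym2 V)) (hE : ∀ p q, K p q → s(p, q) ∈ E)
    (W : Finset V) (hW : ∀ v ∈ W, v ∈ verts X ∧ v ∈ verts Y) (hc : E.card + 1 ≤ W.card) :
    Disc X ∧ Disc Y ∧ verts X ∩ verts Y = W := by
  have hT := hD.cx
  have e1 := chi_union X Y S.dj
  rw [← S.un, hD.chi] at e1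
  have e2 := euler_le S.cX S.nX bX
  have e3 := euler_le S.cY S.nY bY
  have hEd : edges X ∩ edges Y ⊆ E := by
    intro e he
    obtain ⟨h1, h2⟩ := Finset.mem_inter.1 he
    induction e using Sym2.inductionOn with
    | hf p q =>
      rw [edge_iff] at h1 h2
      rcases h1 with h1 | h1 <;> rcases h2 with h2 | h2
      · exact (dir_clash hT S.subX S.subY S.dj h1 h2).elim
      · exact hE p q (S.fl p q h1 h2)
      · rw [Sym2.eq_swap]
        exact hE q p (S.fl q p h1 h2)
      · exact (dir_clash hT S.subX S.subY S.dj h1 h2).elim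
  have hWs : W ⊆ verts X ∩ verts Y := fun v hv => Finset.mem_inter.2 (hW v hv)
  have c1 := Finset.card_le_card hEd
  have c2 := Finset.card_le_card hWs
  have c3 : (verts X ∩ verts Y).card = W.card := by
    push_cast at *
    omega
  have c4 : chi X = 3 ∧ chi Y = 3 := by
    push_cast at *
    constructor <;> omega
  exact ⟨⟨S.cX, S.nX, bX, c4.1⟩, ⟨S.cY, S.nY, bY, c4.2⟩,
    (Finset.eq_of_subset_of_card_le hWs c3.le).symm⟩

omit [DecidableEq V] in
theorem cyc_split2 {x y : V} {A B : List V} (p q : V) :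
    Cyc (x :: (A ++ y :: B)) p q ↔ Nx (x :: (A ++ [y])) p q ∨ Nx (y :: (B ++ [x])) p q := by
  change Nx (x :: ((A ++ y :: B) ++ [x])) p q ↔ _
  have e : x :: ((A ++ y :: B) ++ [x]) = (x :: A) ++ y :: (B ++ [x]) := by simp
  rw [e, nx_append]
  rfl

omit [DecidableEq V] in
theorem bd_dirs {x y : V} {A B : List V} (hl : IsBd T (x :: (A ++ y :: B))) (hA : A ≠ [])
    (hB : B ≠ []) (h : Adj T x y) : Dir T x y ∧ Dir T y x := by
  have hnd := hl.nodup
  have k1 : ¬ Bd T x y := by
    intro hb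
    have h1 := (hl.iff x y).1 hb
    obtain ⟨a, A', rfl⟩ := List.exists_cons_of_ne_nil hA
    have h2 : Cyc (x :: ((a :: A') ++ y :: B)) x a := Or.inl ⟨rfl, rfl⟩
    have h3 := cyc_unique hnd h1 h2
    subst h3
    simp at hnd
  have k2 : ¬ Bd T y x := by
    intro hb
    have h1 := (hl.iff y x).1 hb
    obtain ⟨b, B', rfl⟩ := List.exists_cons_of_ne_nil hB
    have h2 : Cyc (x :: (A ++ y :: (b :: B'))) y b :=
      (cyc_split2 y b).2 (Or.inr (Or.inl ⟨rfl, rfl⟩))
    have h3 := cyc_unique hnd h1 h2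
    subst h3
    simp at hnd
  rw [bd_dir] at k1 k2
  rcases h with h | h
  · refine ⟨h, ?_⟩
    by_contra h2
    exact k1 ⟨h, h2⟩
  · refine ⟨?_, h⟩
    by_contra h2
    exact k2 ⟨h, h2⟩

/-- **Splitting a disc along a chord.** -/
theorem chord_split (hD : Disc T) {x y : V} {A B : List V} (hl : IsBd T (x :: (A ++ y :: B)))
    (hA : A ≠ []) (hB : B ≠ []) (h : Adj T x y) :
    ∃ X Y, T = X ∪ Y ∧ Disjoint X Y ∧ Disc X ∧ Disc Y ∧ IsBd X (x :: (A ++ [y])) ∧
      IsBd Y (y :: (B ++ [x])) ∧ verts X ∩ verts Y = {x, y} := by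
  obtain ⟨d1, d2⟩ := bd_dirs hl hA hB h
  obtain ⟨a, A', rfl⟩ := List.exists_cons_of_ne_nil hA
  obtain ⟨X, Y, S, e1, e2⟩ := chord_sd T.card T le_rfl hD x y a A' B hl hB d1 d2
  have hK : ∀ p q, (p = y ∧ q = x) → Dir X p q ∧ Dir Y q p := by
    rintro p q ⟨rfl, rfl⟩
    exact ⟨e1, e2⟩
  have hnd := hl.nodup
  have bX : IsBd X (x :: ((a :: A') ++ [y])) := by
    refine S.bdX hD.cx hl (fun p q => cyc_split2 p q) hK ?_ (by simp) ?_
    · have : (x :: ((a :: A') ++ y :: B)) = (x :: ((a :: A') ++ [y])) ++ B := by simp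
      rw [this] at hnd
      exact (List.nodup_append.1 hnd).1
    · intro p q
      exact cyc_form x y (a :: A') p q
  have bY : IsBd Y (y :: (B ++ [x])) := by
    refine S.swap.bdX hD.cx hl (fun p q => (cyc_split2 p q).trans or_comm) ?_ ?_ ?_ ?_
    · rintro p q ⟨rfl, rfl⟩
      exact ⟨e2, e1⟩
    · have hr : (x :: ((a :: A') ++ y :: B)) ~r ((y :: (B ++ [x])) ++ (a :: A')) := by
        have e : x :: ((a :: A') ++ y :: B) = (x :: a :: A') ++ (y :: B) := by simp
        rw [e]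
        refine List.isRotated_append.trans ?_
        have e3 : (y :: (B ++ [x])) ++ (a :: A') = (y :: B) ++ (x :: a :: A') := by simp
        rw [e3]
      exact (List.nodup_append.1 (hr.nodup_iff.1 hnd)).1
    · obtain ⟨b, B', rfl⟩ := List.exists_cons_of_ne_nil hB
      simp
    · intro p q
      rw [cyc_form y x B p q]
      constructor
      · rintro (h | ⟨h1, h2⟩)
        · exact Or.inl h
        · exact Or.inr ⟨h2, h1⟩
      · rintro (h | ⟨h1, h2⟩)
        · exact Or.inl h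
        · exact Or.inr ⟨h2, h1⟩
  have hxy : x ≠ y := dir_ne hD.cx d1
  obtain ⟨D1, D2, D3⟩ := S.disc hD hK ⟨y, x, (bX.iff y x).2 (cyc_last _ _ _)⟩
    ⟨x, y, (bY.iff x y).2 (cyc_last _ _ _)⟩ {s(x, y)}
    (by
      rintro p q ⟨rfl, rfl⟩
      rw [Finset.mem_singleton, Sym2.eq_swap]) {x, y}
    (by
      intro v hv
      obtain ⟨f1, f2⟩ := dir_verts S.cX e1
      obtain ⟨f3, f4⟩ := dir_verts S.cY e2
      rcases Finset.mem_insert.1 hv with rfl | hv
      · exact ⟨f2, f3⟩
      · rw [Finset.mem_singleton.1 hv]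
        exact ⟨f1, f4⟩)
    (by rw [Finset.card_singleton, Finset.card_pair hxy])
  exact ⟨X, Y, S.un, S.dj, D1, D2, bX, bY, D3⟩

end Pool.Agent.H72.G4
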