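import Pool.Agent.H72.G4.Split

/-!
# Cutting a disc along a path with one inner vertex
-/

set_option autoImplicit false

namespace Pool.Agent.H72.G4

open Relation Pool.Agent.H13.DA

variable {V : Type*} [DecidableEq V] {T : Finset (V × V × V)}

/-- the crossing edges for the cut `x - z - y` -/
def K2 (x y z : V) (p q : V) : Prop := (p = y ∧ q = z) ∨ (p = z ∧ q = x)

theorem dir_keep (hT : IsCx T) {i j w : V} (h : (j, i, w) ∈ T) {p q : V} (hd : Dir T p q)
    (h1 : ¬ (p = j ∧ q = i)) (h2 : ¬ (p = i ∧ q = w)) (h3 : ¬ (p = w ∧ q = j)) :
    Dir (T \ tri j i w) p q := by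
  rcases (dir_iff hT h p q).1 hd with h4 | h4 | h4 | h4
  · exact h4
  · exact absurd h4 h1
  · exact absurd h4 h2
  · exact absurd h4 h3

theorem two_sd (n : ℕ) : ∀ T : Finset (V × V × V), T.card ≤ n → Disc T →
    ∀ (x y z : V) (A B : List V), IsBd T (x :: (A ++ y :: B)) → z ∉ x :: (A ++ y :: B) →
    Dir T x z → Dir T z x → Dir T y z → Dir T z y →
    ∃ X Y, Sd T X Y (K2 x y z) (x :: (A ++ [y])) (y :: (B ++ [x])) ∧
      Dir X y z ∧ Dir X z x ∧ Dir Y z y ∧ Dir Y x z := by
  induction n with
  | zero =>
    intro T hn hD x y z A B _ _ hxy _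
    obtain ⟨c, hc⟩ := hxy
    have : T.card ≠ 0 := Finset.card_ne_zero_of_mem hc
    omega
  | succ n ih =>
    intro T hn hD x y z A B hl hz hxz hzx hyz hzy
    have hT := hD.cx
    have hnd := hl.nodup
    have zx : z ≠ x := by
      rintro rfl
      exact hz (by simp)
    have zy : z ≠ y := by
      rintro rfl
      exact hz (by simp)
    have hxy : x ≠ y := by
      rintro rfl
      simp at hnd
    have hnd3 := List.nodup_append.1 (List.nodup_cons.1 hnd).2
    have hyB : y ∉ B := (List.nodup_cons.1 hnd3.2.1).1
    have hyA : y ∉ A := fun hh => hnd3.2.2 y hh y (by simp) rfl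
    cases A with
    | nil =>
      have hr : (x :: ([] ++ y :: B)) ~r (y :: (B ++ [x])) := ⟨1, by simp⟩
      have hl' := hl.rot hr
      have hbd : Bd T x y := (hl'.iff x y).2 (cyc_last y x _)
      obtain ⟨⟨w, h⟩, hb⟩ := hbd
      obtain ⟨n1, n2, n3⟩ := cx_ne hT h
      obtain ⟨h', h''⟩ := rot3 hT h
      have hT' := sdiff_tri_isCx hT h
      have hcard := card_sdiff_tri hT h
      have hb' : ¬ Dir T y x := fun ⟨c, hc⟩ => hb c hc
      have mform : ∀ m' : List V, IsBd T (y :: (m' ++ [x])) → B = m' := by
        intro m' hm'
        have e := head_unique (hl'.unique hm') hl'.nodup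
        exact List.append_inj_left' e rfl
      have kxz : Dir (T \ tri x y w) x z := dir_keep hT h hxz (fun h => zy h.2)
        (fun h => hxy h.1) (fun h => zx h.2)
      have kzy : Dir (T \ tri x y w) z y := dir_keep hT h hzy (fun h => zx h.1)
        (fun h => zy h.1) (fun h => hxy h.2.symm)
      rcases disc_cases hD h hb with h0 | ⟨h1, h2, h3, h4⟩ | ⟨h1, h2, h3, h4⟩ | ⟨h1, h2, h3⟩ |
        ⟨X, Y, h1, hdj, h3, h4, h5, h6, h7⟩
      · exfalso
        obtain ⟨c, hc⟩ := kxz
        obtain ⟨hc1, hc2⟩ := Finset.mem_sdiff.1 hc
        exact hc2 (h0.subset hc1)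
      · exfalso
        obtain ⟨c, hc⟩ := kxz
        exact h4 (vert1 hc)
      · exfalso
        obtain ⟨c, hc⟩ := kzy
        exact h4 (vert2 hT' hc)
      · -- (C)
        obtain ⟨l1, hl1⟩ := disc_list h1
        obtain ⟨m', hm'⟩ := hl1.form2 h2 h3 n1.symm
        have hm : B = m' := mform m' (bdC hT h hb hm')
        subst hm
        by_cases hwz : w = z
        · subst hwz
          refine ⟨tri x y w, T \ tri x y w, ⟨?_, Finset.disjoint_sdiff, tri_isCx hT h, hT',
            conn_tri _ _ _, h1.conn, ?_, ?_, ?_⟩, dir_tri.2 (Or.inr (Or.inl ⟨rfl, rfl⟩)),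
            dir_tri.2 (Or.inr (Or.inr ⟨rfl, rfl⟩)), kzy, kxz⟩
          · exact (Finset.union_sdiff_of_subset (tri_sub hT h)).symm
          · intro p q hp hq
            rcases dir_tri.1 hp with ⟨rfl, rfl⟩ | ⟨rfl, rfl⟩ | ⟨rfl, rfl⟩
            · exact absurd (dir_mono Finset.sdiff_subset hq) hb'
            · exact Or.inl ⟨rfl, rfl⟩
            · exact Or.inr ⟨rfl, rfl⟩
          · intro p q hpq
            exact dir_tri.2 (Or.inl ((nx_two _ _ _ _).1 hpq))
          · intro p q hpq
            have e : y :: (B ++ [x, w]) = (y :: (B ++ [x])) ++ [w] := by simp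
            have hpq2 : Nx (y :: (B ++ [x, w])) p q := nx_left e hpq
            exact ((hm'.iff p q).2 (cyc_nx hpq2)).1
        · have kzx : Dir (T \ tri x y w) z x := dir_keep hT h hzx (fun h => zx h.1)
            (fun h => zy h.1) (fun h => hwz h.1.symm)
          have kyz : Dir (T \ tri x y w) y z := dir_keep hT h hyz (fun h => hxy h.1.symm)
            (fun h => hwz h.2.symm) (fun h => n2 h.1)
          have hl2 : IsBd (T \ tri x y w) (x :: ([w] ++ y :: B)) := by
            refine hm'.rot ?_
            have e : y :: (B ++ [x, w]) = (y :: B) ++ [x, w] := by simp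
            rw [e]
            exact List.isRotated_append
          have hz2 : z ∉ x :: ([w] ++ y :: B) := by
            intro hh
            apply hz
            simp only [List.cons_append, List.nil_append, List.mem_cons] at hh ⊢
            rcases hh with hh | hh | hh
            · exact Or.inl hh
            · exact absurd hh.symm hwz
            · exact Or.inr hh
          obtain ⟨X, Y, S, d1, d2, d3, d4⟩ := ih _ (by omega) h1 x y z [w] B hl2 hz2
            kxz kzx kyz kzy
          have hXs := S.subX
          have hYs := S.subY
          have hxw : Dir X x w := S.ea x w (Or.inl ⟨rfl, rfl⟩)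
          have hwa : Dir X w y := S.ea w y (Or.inr (Or.inl ⟨rfl, rfl⟩))
          refine ⟨X ∪ tri x y w, Y, Sd.addtri hT h hb' S ?_ ?_ (Or.inr hxw) ?_,
            dir_union.2 (Or.inl d1), dir_union.2 (Or.inl d2), d3, d4⟩
          · intro hd
            exact dir_clash hT' hXs hYs S.dj hwa hd
          · intro hd
            exact dir_clash hT' hXs hYs S.dj hxw hd
          · intro p q hpq
            exact Or.inr (Or.inl ((nx_two _ _ _ _).1 hpq))
      · -- (D)
        exfalso
        obtain ⟨l1, hl1⟩ := disc_list h3
        obtain ⟨l2, hl2⟩ := disc_list h4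
        obtain ⟨m1, hm1⟩ := hl1.form h5
        obtain ⟨m2, hm2⟩ := hl2.form h6
        have hm : B = m1 ++ w :: m2 := by
          apply mform
          have := bdD hT h hb h1 h3.cx h4.cx h7 hm1 hm2
          have e : y :: ((m1 ++ w :: m2) ++ [x]) = y :: (m1 ++ w :: (m2 ++ [x])) := by simp
          rw [e]
          exact this
        have vw : ∀ v, v ∈ verts X → v ∈ verts Y → v = w := by
          intro v hv hv'
          have : v ∈ verts X ∩ verts Y := Finset.mem_inter.2 ⟨hv, hv'⟩
          rw [h7] at this
          exact Finset.mem_singleton.1 this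
        have hyX : y ∈ verts X := hm1.verts h3.cx (by simp)
        have hxY : x ∈ verts Y := hm2.verts h4.cx (by simp)
        rw [h1] at kxz kzy
        have zY : z ∈ verts Y := by
          rcases dir_union.1 kxz with hd | hd
          · exact absurd (vw x (dir_verts h3.cx hd).1 hxY).symm n3
          · exact (dir_verts h4.cx hd).2
        have zX : z ∈ verts X := by
          rcases dir_union.1 kzy with hd | hd
          · exact (dir_verts h3.cx hd).1
          · exact absurd (vw y hyX (dir_verts h4.cx hd).2) n2
        have := vw z zX zY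
        subst this
        apply hz
        rw [hm]
        simp
    | cons a A =>
      have hr : (x :: ((a :: A) ++ y :: B)) ~r (a :: ((A ++ y :: B) ++ [x])) := ⟨1, by simp⟩
      have hl' := hl.rot hr
      have hbd : Bd T x a := (hl'.iff x a).2 (cyc_last a x _)
      obtain ⟨⟨w, h⟩, hb⟩ := hbd
      obtain ⟨n1, n2, n3⟩ := cx_ne hT h
      obtain ⟨h', h''⟩ := rot3 hT h
      have hT' := sdiff_tri_isCx hT h
      have hcard := card_sdiff_tri hT h
      have hb' : ¬ Dir T a x := fun ⟨c, hc⟩ => hb c hc
      have mform : ∀ m' : List V, IsBd T (a :: (m' ++ [x])) → A ++ y :: B = m' := by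
        intro m' hm'
        have e := head_unique (hl'.unique hm') hl'.nodup
        exact List.append_inj_left' e rfl
      have za : z ≠ a := by
        rintro rfl
        exact hz (by simp)
      have ya : y ≠ a := by
        rintro rfl
        exact hyA (by simp)
      have hzm : z ∉ A ++ y :: B := fun hh => hz (by simp only [List.cons_append, List.mem_cons]; exact Or.inr (Or.inr hh))
      have kxz : Dir (T \ tri x a w) x z := dir_keep hT h hxz (fun h => za h.2)
        (fun h => n1 h.1) (fun h => zx h.2)
      have kzy : Dir (T \ tri x a w) z y := dir_keep hT h hzy (fun h => zx h.1)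
        (fun h => za h.1) (fun h => hxy h.2.symm)
      have kyz : Dir (T \ tri x a w) y z := dir_keep hT h hyz (fun h => hxy h.1.symm)
        (fun h => ya h.1) (fun h => zx h.2)
      have kzx : w ≠ z → Dir (T \ tri x a w) z x := fun hw => dir_keep hT h hzx
        (fun h => zx h.1) (fun h => za h.1) (fun h => hw h.1.symm)
      rcases disc_cases hD h hb with h0 | ⟨h1, h2, h3, h4⟩ | ⟨h1, h2, h3, h4⟩ | ⟨h1, h2, h3⟩ |
        ⟨X, Y, h1, hdj, h3, h4, h5, h6, h7⟩
      · exfalso
        obtain ⟨c, hc⟩ := kxz
        obtain ⟨hc1, hc2⟩ := Finset.mem_sdiff.1 hc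
        exact hc2 (h0.subset hc1)
      · exfalso
        obtain ⟨c, hc⟩ := kxz
        exact h4 (vert1 hc)
      · -- (B2)
        obtain ⟨l1, hl1⟩ := disc_list h1
        obtain ⟨m2, hm2⟩ := hl1.form h2
        have hm : A ++ y :: B = w :: m2 := by
          apply mform
          exact bdB2 hT h hb h3 h4 hm2
        have hwz : w ≠ z := by
          rintro rfl
          exact hzm (by rw [hm]; simp)
        have hwa : ¬ Dir T w a := fun ⟨c, hc⟩ => h3 c hc
        cases A with
        | nil =>
          simp only [List.nil_append, List.cons.injEq] at hm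
          obtain ⟨rfl, rfl⟩ := hm
          have hl2 : IsBd (T \ tri x a y) (x :: ([] ++ y :: B)) := by
            refine hm2.rot ?_
            have e : y :: (B ++ [x]) = (y :: B) ++ [x] := by simp
            rw [e]
            exact List.isRotated_append
          have hz2 : z ∉ x :: ([] ++ y :: B) := by
            intro hh
            rcases List.mem_cons.1 hh with hh | hh
            · exact zx hh
            · exact hzm hh
          obtain ⟨X, Y, S, d1, d2, d3, d4⟩ := ih _ (by omega) h1 x y z [] B hl2 hz2
            kxz (kzx hwz) kyz kzy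
          have hxw : Dir X x y := S.ea x y (Or.inl ⟨rfl, rfl⟩)
          refine ⟨X ∪ tri x a y, Y, Sd.addtri hT h hb' S ?_ ?_ (Or.inr hxw) ?_,
            dir_union.2 (Or.inl d1), dir_union.2 (Or.inl d2), d3, d4⟩
          · intro hd
            exact hwa (dir_mono (S.subY.trans Finset.sdiff_subset) hd)
          · intro hd
            exact dir_clash hT' S.subX S.subY S.dj hxw hd
          · intro p q hpq
            rcases hpq with hpq | hpq
            · exact Or.inr (Or.inl hpq)
            · exact Or.inr (Or.inr ((nx_two _ _ _ _).1 hpq))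
        | cons u A =>
          simp only [List.cons_append, List.cons.injEq] at hm
          obtain ⟨rfl, rfl⟩ := hm
          have hl2 : IsBd (T \ tri x a u) (x :: ((u :: A) ++ y :: B)) := by
            refine hm2.rot ?_
            have e : u :: ((A ++ y :: B) ++ [x]) = (u :: (A ++ y :: B)) ++ [x] := by simp
            rw [e]
            exact List.isRotated_append
          have hz2 : z ∉ x :: ((u :: A) ++ y :: B) := by
            intro hh
            rcases List.mem_cons.1 hh with hh | hh
            · exact zx hh
            · exact hzm hh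
          obtain ⟨X, Y, S, d1, d2, d3, d4⟩ := ih _ (by omega) h1 x y z (u :: A) B hl2 hz2
            kxz (kzx hwz) kyz kzy
          have hxw : Dir X x u := S.ea x u (Or.inl ⟨rfl, rfl⟩)
          refine ⟨X ∪ tri x a u, Y, Sd.addtri hT h hb' S ?_ ?_ (Or.inr hxw) ?_,
            dir_union.2 (Or.inl d1), dir_union.2 (Or.inl d2), d3, d4⟩
          · intro hd
            exact hwa (dir_mono (S.subY.trans Finset.sdiff_subset) hd)
          · intro hd
            exact dir_clash hT' S.subX S.subY S.dj hxw hd
          · intro p q hpq
            rcases hpq with hpq | hpq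
            · exact Or.inr (Or.inl hpq)
            · have hpq' : Nx (a :: u :: (A ++ [y])) p q := hpq
              rcases hpq' with hpq' | hpq'
              · exact Or.inr (Or.inr hpq')
              · exact Or.inl (Or.inr hpq')
      · -- (C)
        obtain ⟨l1, hl1⟩ := disc_list h1
        obtain ⟨m', hm'⟩ := hl1.form2 h2 h3 n1.symm
        have hm : A ++ y :: B = m' := mform m' (bdC hT h hb hm')
        subst hm
        by_cases hwz : w = z
        · subst hwz
          have hl2 : IsBd (T \ tri x a w) (w :: a :: (A ++ y :: (B ++ [x]))) := by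
            refine hm'.rot ?_
            have e : a :: ((A ++ y :: B) ++ [x, w]) = (a :: (A ++ y :: (B ++ [x]))) ++ [w] := by
              simp
            rw [e]
            exact List.isRotated_append
          obtain ⟨X, Y, S, d1, d2⟩ := chord_sd _ _ le_rfl h1 w y a A (B ++ [x]) hl2 (by simp)
            kzy kyz
          have hXs := S.subX
          have hYs := S.subY
          have hwa : Dir X w a := S.ea w a (Or.inl ⟨rfl, rfl⟩)
          have hxw : Dir Y x w := by
            apply S.eb
            have e : y :: ((B ++ [x]) ++ [w]) = (y :: B) ++ x :: [w] := by simp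
            rw [e, nx_append]
            exact Or.inr ((nx_two _ _ _ _).2 ⟨rfl, rfl⟩)
          refine ⟨X ∪ tri x a w, Y, ⟨?_, ?_, ?_, S.cY, ?_, S.nY, ?_, ?_, ?_⟩,
            dir_union.2 (Or.inl d1), dir_union.2 (Or.inr (dir_tri.2 (Or.inr (Or.inr ⟨rfl, rfl⟩)))),
            d2, hxw⟩
          · have e2 := tri_sub hT h
            calc T = (T \ tri x a w) ∪ tri x a w := (Finset.sdiff_union_of_subset e2).symm
              _ = (X ∪ Y) ∪ tri x a w := by rw [← S.un]
              _ = (X ∪ tri x a w) ∪ Y := Finset.union_right_comm _ _ _
          · rw [Finset.disjoint_union_left]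
            exact ⟨S.dj, (Finset.disjoint_of_subset_left hYs Finset.sdiff_disjoint).symm⟩
          · exact cx_union hT (hXs.trans Finset.sdiff_subset) (tri_sub hT h) S.cX (tri_isCx hT h)
          · exact conn_add S.nX (conn_tri _ _ _) hwa (dir_tri.2 (Or.inr (Or.inl ⟨rfl, rfl⟩)))
          · intro p q hp hq
            rcases dir_union.1 hp with hp | hp
            · exact Or.inl (S.fl p q hp hq)
            · rcases dir_tri.1 hp with ⟨rfl, rfl⟩ | ⟨rfl, rfl⟩ | ⟨rfl, rfl⟩
              · exact absurd (dir_mono (hYs.trans Finset.sdiff_subset) hq) hb'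
              · exact (dir_clash hT' hXs hYs S.dj hwa hq).elim
              · exact Or.inr ⟨rfl, rfl⟩
          · intro p q hpq
            rcases hpq with hpq | hpq
            · exact dir_union.2 (Or.inr (dir_tri.2 (Or.inl hpq)))
            · exact dir_union.2 (Or.inl (S.ea p q (Or.inr hpq)))
          · intro p q hpq
            apply S.eb
            have e : y :: ((B ++ [x]) ++ [w]) = (y :: (B ++ [x])) ++ [w] := by simp
            exact nx_left e hpq
        · have hl2 : IsBd (T \ tri x a w) (x :: ((w :: a :: A) ++ y :: B)) := by
            refine hm'.rot ?_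
            have e : a :: ((A ++ y :: B) ++ [x, w]) = (a :: (A ++ y :: B)) ++ [x, w] := by simp
            rw [e]
            exact List.isRotated_append
          have hz2 : z ∉ x :: ((w :: a :: A) ++ y :: B) := by
            intro hh
            rcases List.mem_cons.1 hh with hh | hh
            · exact zx hh
            · rcases List.mem_cons.1 hh with hh | hh
              · exact hwz hh.symm
              · rcases List.mem_cons.1 hh with hh | hh
                · exact za hh
                · exact hzm hh
          obtain ⟨X, Y, S, d1, d2, d3, d4⟩ := ih _ (by omega) h1 x y z (w :: a :: A) B hl2 hz2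
            kxz (kzx hwz) kyz kzy
          have hXs := S.subX
          have hYs := S.subY
          have hxw : Dir X x w := S.ea x w (Or.inl ⟨rfl, rfl⟩)
          have hwa : Dir X w a := S.ea w a (Or.inr (Or.inl ⟨rfl, rfl⟩))
          refine ⟨X ∪ tri x a w, Y, Sd.addtri hT h hb' S ?_ ?_ (Or.inr hxw) ?_,
            dir_union.2 (Or.inl d1), dir_union.2 (Or.inl d2), d3, d4⟩
          · intro hd
            exact dir_clash hT' hXs hYs S.dj hwa hd
          · intro hd
            exact dir_clash hT' hXs hYs S.dj hxw hd
          · intro p q hpq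
            rcases hpq with hpq | hpq
            · exact Or.inr (Or.inl hpq)
            · exact Or.inl (Or.inr (Or.inr hpq))
      · -- (D)
        obtain ⟨l1, hl1⟩ := disc_list h3
        obtain ⟨l2, hl2⟩ := disc_list h4
        obtain ⟨m1, hm1⟩ := hl1.form h5
        obtain ⟨m2, hm2⟩ := hl2.form h6
        have hm : A ++ y :: B = m1 ++ w :: m2 := by
          apply mform
          have := bdD hT h hb h1 h3.cx h4.cx h7 hm1 hm2
          have e : a :: ((m1 ++ w :: m2) ++ [x]) = a :: (m1 ++ w :: (m2 ++ [x])) := by simp
          rw [e]
          exact this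
        have hwz : w ≠ z := by
          rintro rfl
          exact hzm (by rw [hm]; simp)
        have hXs : X ⊆ T \ tri x a w := by rw [h1]; exact Finset.subset_union_left
        have hYs : Y ⊆ T \ tri x a w := by rw [h1]; exact Finset.subset_union_right
        have vw : ∀ v, v ∈ verts X → v ∈ verts Y → v = w := by
          intro v hv hv'
          have : v ∈ verts X ∩ verts Y := Finset.mem_inter.2 ⟨hv, hv'⟩
          rw [h7] at this
          exact Finset.mem_singleton.1 this
        have nXY : ∀ p q, Dir X p q → ¬ Dir Y q p := by
          intro p q hp hq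
          obtain ⟨e1, e2⟩ := dir_verts h3.cx hp
          obtain ⟨e3, e4⟩ := dir_verts h4.cx hq
          exact dir_ne h3.cx hp (by rw [vw p e1 e4, vw q e2 e3])
        have hwa : Dir X w a := h5.1
        have hxw : Dir Y x w := h6.1
        have hxY : x ∈ verts Y := (dir_verts h4.cx hxw).1
        have cZ : IsCx (X ∪ tri x a w) :=
          cx_union hT (hXs.trans Finset.sdiff_subset) (tri_sub hT h) h3.cx (tri_isCx hT h)
        have nZ : Conn (X ∪ tri x a w) :=
          conn_add h3.conn (conn_tri _ _ _) hwa (dir_tri.2 (Or.inr (Or.inl ⟨rfl, rfl⟩)))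
        have hdZ : Disjoint Y (X ∪ tri x a w) := by
          rw [Finset.disjoint_union_right]
          exact ⟨hdj.symm, Finset.disjoint_of_subset_left hYs Finset.sdiff_disjoint⟩
        have huZ : T = Y ∪ (X ∪ tri x a w) := by
          calc T = (T \ tri x a w) ∪ tri x a w :=
              (Finset.sdiff_union_of_subset (tri_sub hT h)).symm
            _ = (X ∪ Y) ∪ tri x a w := by rw [← h1]
            _ = Y ∪ (X ∪ tri x a w) := by
              rw [Finset.union_comm X Y, Finset.union_assoc]
        have hYc : Y.card ≤ n := by
          have : Y.card ≤ (T \ tri x a w).card := Finset.card_le_card hYs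
          omega
        -- `x z` is in `Y`
        have toY : ∀ p q, (p ∈ verts X → p = w) → (p ≠ w) → Dir (T \ tri x a w) p q →
            Dir Y p q := by
          intro p q h8 h9 hd
          rw [h1] at hd
          rcases dir_union.1 hd with hd | hd
          · exact absurd (h8 (dir_verts h3.cx hd).1) h9
          · exact hd
        have yxz : Dir Y x z := toY x z (fun hv => vw x hv hxY) n3.symm kxz
        have hzY : z ∈ verts Y := (dir_verts h4.cx yxz).2
        have yzx : Dir Y z x := toY z x (fun hv => vw z hv hzY) hwz.symm (kzx hwz)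
        have yzy : Dir Y z y := toY z y (fun hv => vw z hv hzY) hwz.symm kzy
        have yyz : Dir Y y z := by
          have hd := kyz
          rw [h1] at hd
          rcases dir_union.1 hd with hd | hd
          · exact absurd (vw z (dir_verts h3.cx hd).2 hzY) hwz.symm
          · exact hd
        have hyY : y ∈ verts Y := (dir_verts h4.cx yzy).2
        have fin : ∀ A' : List V, IsBd Y (x :: (A' ++ y :: B)) → z ∉ x :: (A' ++ y :: B) →
            (∀ r s, Nx (x :: ((a :: A) ++ [y])) r s → Nx (x :: (A' ++ [y])) r s ∨
              Dir (X ∪ tri x a w) r s) → Nx (x :: (A' ++ [y])) x w →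
            ∃ X Y, Sd T X Y (K2 x y z) (x :: ((a :: A) ++ [y])) (y :: (B ++ [x])) ∧
              Dir X y z ∧ Dir X z x ∧ Dir Y z y ∧ Dir Y x z := by
          intro A' hl3 hz3 hla hxw3
          obtain ⟨X', Y', S, d1, d2, d3, d4⟩ := ih Y hYc h4 x y z A' B hl3 hz3
            yxz yzx yyz yzy
          have sX' := S.subX
          have sY' := S.subY
          have hxw' : Dir X' x w := S.ea x w hxw3
          refine ⟨X' ∪ (X ∪ tri x a w), Y', Sd.ext hT huZ hdZ cZ nZ S hxw'
            (dir_union.2 (Or.inr (dir_tri.2 (Or.inr (Or.inr ⟨rfl, rfl⟩))))) ?_ hla,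
            dir_union.2 (Or.inl d1), dir_union.2 (Or.inl d2), d3, d4⟩
          intro p q hp hq
          rcases dir_union.1 hp with hp | hp
          · exact nXY p q hp (dir_mono sY' hq)
          · rcases dir_tri.1 hp with ⟨rfl, rfl⟩ | ⟨rfl, rfl⟩ | ⟨rfl, rfl⟩
            · exact hb' (dir_mono ((sY'.trans hYs).trans Finset.sdiff_subset) hq)
            · exact dir_clash hT' hXs hYs hdj hwa (dir_mono sY' hq)
            · exact dir_clash h4.cx sX' sY' S.dj hxw' hq
        have hz4 : ∀ A' : List V, (∀ v ∈ A', v ∈ A ∨ v = w) → z ∉ x :: (A' ++ y :: B) := by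
          intro A' hA' hh
          rcases List.mem_cons.1 hh with hh | hh
          · exact zx hh
          · rcases List.mem_append.1 hh with hh | hh
            · rcases hA' z hh with hh | hh
              · exact hzm (List.mem_append.2 (Or.inl hh))
              · exact hwz hh.symm
            · exact hzm (List.mem_append.2 (Or.inr hh))
        have caseY : w = y → m2 = B → m1 = A →
            ∃ X Y, Sd T X Y (K2 x y z) (x :: ((a :: A) ++ [y])) (y :: (B ++ [x])) ∧
              Dir X y z ∧ Dir X z x ∧ Dir Y z y ∧ Dir Y x z := by
          rintro rfl rfl rfl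
          refine fin [] ?_ (hz4 [] (by simp)) ?_ (Or.inl ⟨rfl, rfl⟩)
          · refine hm2.rot ?_
            have e : w :: (m2 ++ [x]) = (w :: m2) ++ [x] := by simp
            rw [e]
            exact List.isRotated_append
          · intro p q hpq
            right
            rcases hpq with hpq | hpq
            · exact dir_union.2 (Or.inr (dir_tri.2 (Or.inl hpq)))
            · exact dir_union.2 (Or.inl ((hm1.iff p q).2 (cyc_nx hpq)).1)
        rcases List.append_eq_append_iff.1 hm with ⟨as, e1, e2⟩ | ⟨bs, e1, e2⟩
        · cases as with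
          | nil =>
            simp only [List.nil_append, List.cons.injEq] at e2
            exact caseY e2.1.symm e2.2.symm (by simpa using e1)
          | cons u as =>
            exfalso
            simp only [List.cons_append, List.cons.injEq] at e2
            obtain ⟨rfl, e2⟩ := e2
            have hyX : y ∈ verts X := hm1.verts h3.cx (by rw [e1]; simp)
            have hwy : w ≠ y := by
              rintro rfl
              exact hyB (by rw [e2]; simp)
            exact hwy (vw y hyX hyY).symm
        · cases bs with
          | nil =>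
            simp only [List.nil_append, List.cons.injEq] at e2
            exact caseY e2.1 e2.2 (by simpa using e1.symm)
          | cons u bs =>
            simp only [List.cons_append, List.cons.injEq] at e2
            obtain ⟨rfl, rfl⟩ := e2
            subst e1
            refine fin (w :: bs) ?_ (hz4 _ ?_) ?_ (Or.inl ⟨rfl, rfl⟩)
            · refine hm2.rot ?_
              have e : w :: ((bs ++ y :: B) ++ [x]) = (w :: (bs ++ y :: B)) ++ [x] := by simp
              rw [e]
              exact List.isRotated_append
            · intro v hv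
              left
              exact List.mem_append.2 (Or.inr hv)
            · intro p q hpq
              rcases hpq with hpq | hpq
              · exact Or.inr (dir_union.2 (Or.inr (dir_tri.2 (Or.inl hpq))))
              · have e : a :: ((m1 ++ w :: bs) ++ [y]) = (a :: m1) ++ w :: (bs ++ [y]) := by simp
                have hpq' : Nx (a :: ((m1 ++ w :: bs) ++ [y])) p q := hpq
                rw [e, nx_append] at hpq'
                rcases hpq' with hpq' | hpq'
                · have hpq2 : Nx (a :: (m1 ++ [w])) p q := by simpa using hpq'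
                  exact Or.inr (dir_union.2 (Or.inl ((hm1.iff p q).2 (cyc_nx hpq2)).1))
                · exact Or.inl (Or.inr hpq')

end Pool.Agent.H72.G4
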