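import Pool.Agent.H72.G4.Two

/-!
# Splitting a disc along a path of two edges between boundary vertices
-/

set_option autoImplicit false

namespace Pool.Agent.H72.G4

open Relation Pool.Agent.H13.DA

variable {V : Type*} [DecidableEq V] {T : Finset (V × V × V)}

omit [DecidableEq V] in
theorem bd_mem {l : List V} (hl : IsBd T l) {a b : V} (h : Bd T a b) : a ∈ l ∧ b ∈ l :=
  cyc_mem ((hl.iff a b).1 h)

omit [DecidableEq V] in
theorem inner_dirs {l : List V} (hl : IsBd T l) {a z : V} (hz : z ∉ l) (h : Adj T a z) :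
    Dir T a z ∧ Dir T z a := by
  rcases h with h | h
  · refine ⟨h, ?_⟩
    by_contra h2
    exact hz (bd_mem hl (bd_dir.2 ⟨h, h2⟩)).2
  · refine ⟨?_, h⟩
    by_contra h2
    exact hz (bd_mem hl (bd_dir.2 ⟨h, h2⟩)).1

omit [DecidableEq V] in
theorem cyc_two {x y z : V} (A : List V) (p q : V) :
    Cyc (x :: (A ++ [y, z])) p q ↔ Nx (x :: (A ++ [y])) p q ∨ K2 x y z p q := by
  change Nx (x :: ((A ++ [y, z]) ++ [x])) p q ↔ _
  have e : x :: ((A ++ [y, z]) ++ [x]) = (x :: A) ++ y :: [z, x] := by simp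
  rw [e, nx_append]
  change _ ∨ ((p = y ∧ q = z) ∨ (p = z ∧ q = x) ∨ False) ↔ _
  rw [or_false]
  exact Iff.rfl

omit [DecidableEq V] in
theorem cyc_two' {x y z : V} (B : List V) (p q : V) :
    Cyc (y :: (B ++ [x, z])) p q ↔ Nx (y :: (B ++ [x])) p q ∨ K2 x y z q p := by
  rw [cyc_two]
  constructor
  · rintro (h | h | h)
    · exact Or.inl h
    · exact Or.inr (Or.inr ⟨h.2, h.1⟩)
    · exact Or.inr (Or.inl ⟨h.2, h.1⟩)
  · rintro (h | h | h)
    · exact Or.inl h
    · exact Or.inr (Or.inr ⟨h.2, h.1⟩)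
    · exact Or.inr (Or.inl ⟨h.2, h.1⟩)

/-- **Splitting a disc along a path `x - z - y`** with `x`, `y` on the boundary and `z` not. -/
theorem two_chord_split (hD : Disc T) {x y z : V} {A B : List V}
    (hl : IsBd T (x :: (A ++ y :: B))) (hz : z ∉ x :: (A ++ y :: B))
    (hxz : Adj T x z) (hyz : Adj T y z) :
    ∃ X Y, T = X ∪ Y ∧ Disjoint X Y ∧ Disc X ∧ Disc Y ∧ IsBd X (x :: (A ++ [y, z])) ∧
      IsBd Y (y :: (B ++ [x, z])) ∧ verts X ∩ verts Y = {x, y, z} := by
  obtain ⟨d1, d2⟩ := inner_dirs hl hz hxz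
  obtain ⟨d3, d4⟩ := inner_dirs hl hz hyz
  obtain ⟨X, Y, S, e1, e2, e3, e4⟩ :=
    two_sd T.card T le_rfl hD x y z A B hl hz d1 d2 d3 d4
  have hK : ∀ p q, K2 x y z p q → Dir X p q ∧ Dir Y q p := by
    rintro p q (⟨rfl, rfl⟩ | ⟨rfl, rfl⟩)
    · exact ⟨e1, e3⟩
    · exact ⟨e2, e4⟩
  have hnd := hl.nodup
  have hzx : z ≠ x := fun h => hz (by simp [h])
  have hzy : z ≠ y := fun h => hz (by simp [h])
  have hzA : z ∉ A := fun h => hz (by simp [h])
  have hzB : z ∉ B := fun h => hz (by simp [h])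
  have hxy : x ≠ y := by
    rintro rfl
    simp at hnd
  have nA : (x :: (A ++ [y])).Nodup := by
    have : (x :: (A ++ y :: B)) = (x :: (A ++ [y])) ++ B := by simp
    rw [this] at hnd
    exact (List.nodup_append.1 hnd).1
  have nB : (y :: (B ++ [x])).Nodup := by
    have hr : (x :: (A ++ y :: B)) ~r ((y :: (B ++ [x])) ++ A) := by
      have e : x :: (A ++ y :: B) = (x :: A) ++ (y :: B) := by simp
      rw [e]
      refine List.isRotated_append.trans ?_
      have e3 : (y :: (B ++ [x])) ++ A = (y :: B) ++ (x :: A) := by simp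
      rw [e3]
    exact (List.nodup_append.1 (hr.nodup_iff.1 hnd)).1
  have nA' : (x :: (A ++ [y, z])).Nodup := by
    have e : x :: (A ++ [y, z]) = (x :: (A ++ [y])) ++ [z] := by simp
    rw [e, List.nodup_append]
    refine ⟨nA, List.nodup_singleton z, ?_⟩
    intro a ha b hb
    rw [List.mem_singleton.1 hb]
    rintro rfl
    simp only [List.mem_cons, List.mem_append, List.not_mem_nil, or_false] at ha
    rcases ha with h | h | h
    · exact hzx h
    · exact hzA h
    · exact hzy h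
  have nB' : (y :: (B ++ [x, z])).Nodup := by
    have e : y :: (B ++ [x, z]) = (y :: (B ++ [x])) ++ [z] := by simp
    rw [e, List.nodup_append]
    refine ⟨nB, List.nodup_singleton z, ?_⟩
    intro a ha b hb
    rw [List.mem_singleton.1 hb]
    rintro rfl
    simp only [List.mem_cons, List.mem_append, List.not_mem_nil, or_false] at ha
    rcases ha with h | h | h
    · exact hzy h
    · exact hzB h
    · exact hzx h
  have bX : IsBd X (x :: (A ++ [y, z])) :=
    S.bdX hD.cx hl (fun p q => cyc_split2 p q) hK nA' (by simp)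
      (fun p q => cyc_two A p q)
  have bY : IsBd Y (y :: (B ++ [x, z])) :=
    S.swap.bdX hD.cx hl (fun p q => (cyc_split2 p q).trans or_comm)
      (fun p q h => (hK q p h).symm) nB' (by simp) (fun p q => cyc_two' B p q)
  obtain ⟨D1, D2, D3⟩ := S.disc hD hK ⟨y, z, (bX.iff y z).2 ((cyc_two A y z).2
      (Or.inr (Or.inl ⟨rfl, rfl⟩)))⟩
    ⟨x, z, (bY.iff x z).2 ((cyc_two' B x z).2 (Or.inr (Or.inr ⟨rfl, rfl⟩)))⟩
    {s(y, z), s(z, x)}
    (by
      rintro p q (⟨rfl, rfl⟩ | ⟨rfl, rfl⟩)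
      · simp
      · simp) {x, y, z}
    (by
      intro v hv
      obtain ⟨f1, f2⟩ := dir_verts S.cX e1
      obtain ⟨f3, f4⟩ := dir_verts S.cY e3
      obtain ⟨f5, f6⟩ := dir_verts S.cX e2
      obtain ⟨f7, f8⟩ := dir_verts S.cY e4
      simp only [Finset.mem_insert, Finset.mem_singleton] at hv
      rcases hv with rfl | rfl | rfl
      · exact ⟨f6, f7⟩
      · exact ⟨f1, f4⟩
      · exact ⟨f2, f3⟩)
    (by
      have c1 : ({s(y, z), s(z, x)} : Finset (Sym2 V)).card ≤ 2 := Finset.card_le_two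
      have c2 : ({x, y, z} : Finset V).card = 3 := by
        rw [Finset.card_eq_three]
        exact ⟨x, y, z, hxy, hzx.symm, hzy.symm, rfl⟩
      omega)
  exact ⟨X, Y, S.un, S.dj, D1, D2, bX, bY, D3⟩

end Pool.Agent.H72.G4
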