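import Pool.Agent.H72.G4.Rot
import Pool.Agent.H13.G4.FanT

/-!
# Coverage and the words of the positive vertices
-/

set_option autoImplicit false

namespace Pool.Agent.H72.G4

open Relation Pool.Agent.H13.DA Pool.Agent.H21.G4 Pool.Agent.H96.G4

variable {V : Type*} [DecidableEq V] {T : Finset (V × V × V)} {D : V → V → Prop} {a b c : V}

/-- the left arc of the corner is covered -/
def CT.cl : CT → Bool
  | CT.q => true
  | CT.s1 => true
  | CT.s2 => false
  | CT.m => false

/-- the right arc of the corner is covered -/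
def CT.cr : CT → Bool
  | CT.q => true
  | CT.s1 => false
  | CT.s2 => true
  | CT.m => false

/-- the corner counts for the charge -/
def CT.ct : CT → Bool
  | CT.m => false
  | _ => true

/-- change of direction -/
def CT.ch : CT → Bool
  | CT.q => true
  | CT.m => true
  | _ => false

theorem Cor.ne_mid {v x y : V} {t : CT} (h : Cor T D v x y t) (ht : t ≠ CT.q) : (v, x, y) ∈ T := by
  cases t
  · exact absurd rfl ht
  · exact h.1
  · exact h.1
  · exact h.1

/-- if the left arc `v x` is not covered by the corner `(v, x, y)`, the apex `y` is not mid for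
the edge `v x` -/
theorem Cor.left (hT : Ts T D a b c) {v x y : V} {t : CT} (h : Cor T D v x y t)
    (ht : t.cl = false) : (v, x, y) ∈ T ∧ Ar D v y ∧ Ar D x y ∧ (D y x ↔ D y v) := by
  have as := hT.pl.asymm
  cases t
  · exact absurd ht (by decide)
  · exact absurd ht (by decide)
  · obtain ⟨h1, ⟨h2, h3, h4⟩ | ⟨h2, h3, h4⟩⟩ := h
    · exact ⟨h1, Or.inl h3, Or.inl h4, ⟨fun k => absurd k (as _ _ h4), fun k => absurd k (as _ _ h3)⟩⟩
    · exact ⟨h1, Or.inr h3, Or.inr h4, ⟨fun _ => h3, fun _ => h4⟩⟩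
  · obtain ⟨h1, ⟨h2, h3, h4⟩ | ⟨h2, h3, h4⟩⟩ := h
    · exact ⟨h1, Or.inl h3, Or.inl h4, ⟨fun k => absurd k (as _ _ h4), fun k => absurd k (as _ _ h3)⟩⟩
    · exact ⟨h1, Or.inr h3, Or.inr h4, ⟨fun _ => h3, fun _ => h4⟩⟩

/-- if the right arc `v y` is not covered by the corner `(v, x, y)`, the apex `x` is not mid for
the edge `v y` -/
theorem Cor.right (hT : Ts T D a b c) {v x y : V} {t : CT} (h : Cor T D v x y t)
    (ht : t.cr = false) : (v, x, y) ∈ T ∧ Ar D v x ∧ Ar D y x ∧ (D x y ↔ D x v) := by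
  have as := hT.pl.asymm
  cases t
  · exact absurd ht (by decide)
  · obtain ⟨h1, ⟨h2, h3, h4⟩ | ⟨h2, h3, h4⟩⟩ := h
    · exact ⟨h1, Or.inl h2, Or.inl h4, ⟨fun k => absurd k (as _ _ h4), fun k => absurd k (as _ _ h2)⟩⟩
    · exact ⟨h1, Or.inr h2, Or.inr h4, ⟨fun _ => h2, fun _ => h4⟩⟩
  · exact absurd ht (by decide)
  · obtain ⟨h1, ⟨h2, h3, h4⟩ | ⟨h2, h3, h4⟩⟩ := h
    · exact ⟨h1, Or.inr h2, Or.inr h4, ⟨fun _ => h2, fun _ => h4⟩⟩
    · exact ⟨h1, Or.inl h2, Or.inl h4, ⟨fun k => absurd k (as _ _ h4), fun k => absurd k (as _ _ h2)⟩⟩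

/-- **Coverage**: every arc at a good inner vertex is long in a source / sink corner or on a
quad. -/
theorem Rot.cover [Infinite V] (hM : MCw T D a b c) (hT : Ts T D a b c) {v : V}
    (hv : ¬ Tr a b c v) (hg : Good T D v) {n : ℕ} {x : Fin (n + 1) → V}
    {w : Fin (n + 1) → CT} (h : Rot T D v n x w) (i : Fin (n + 1)) :
    (w i).cr = true ∨ (w (i + 1)).cl = true := by
  by_contra hcon
  rw [not_or, Bool.not_eq_true, Bool.not_eq_true] at hcon
  obtain ⟨r1, r2, r3, r4⟩ := (h.cor i).right hT hcon.1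
  obtain ⟨l1, l2, l3, l4⟩ := (h.cor (i + 1)).left hT hcon.2
  have cx := hT.pl.disc.cx
  have hxy : Ar D (x (i + 1)) v := ar_symm ((h.nb _).2 ⟨i + 1, rfl⟩)
  exact no_contract Pool.Agent.H13.G4.fanT hM hT hv hg (cx.rot (cx.rot r1)) l1
    (ar_re r2).2 (ar_re l2).2 hxy r4 l4

/-- the neighbours of `v` which are adjacent are consecutive at a corner which is not a quad -/
theorem Rot.adj (hT : Ts T D a b c) {v : V} (hv : ¬ Tr a b c v) {n : ℕ} {x : Fin (n + 1) → V}
    {w : Fin (n + 1) → CT} (h : Rot T D v n x w) {i j : Fin (n + 1)} (hij : Ar D (x i) (x j)) :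
    (j = i + 1 ∧ w i ≠ CT.q) ∨ (i = j + 1 ∧ w j ≠ CT.q) := by
  have k1 : Ar D v (x i) := (h.nb _).2 ⟨i, rfl⟩
  have k2 : Ar D v (x j) := (h.nb _).2 ⟨j, rfl⟩
  rcases hT.fc v (x i) (x j) (hT.pl.ar_adj k1) (hT.pl.ar_adj hij)
    (hT.pl.ar_adj k2).symm with (k | k) | ⟨k, _⟩
  · obtain ⟨e1, e2⟩ := h.nx i _ (ar_re k2).2 k
    exact Or.inl ⟨h.inj e1, e2⟩
  · obtain ⟨e1, e2⟩ := h.nx j _ (ar_re k1).2 k
    exact Or.inr ⟨h.inj e1, e2⟩
  · exact absurd k hv

theorem Rot.count_s {v : V} {n : ℕ} {x : Fin (n + 1) → V}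
    {w : Fin (n + 1) → CT} (hT : Ts T D a b c) (h : Rot T D v n x w) :
    (Finset.univ.filter (fun i => w i = CT.s1 ∨ w i = CT.s2)).card ≤ sv T D v := by
  classical
  unfold sv
  refine Finset.card_le_card_of_injOn (fun i => (v, x i, x (i + 1))) ?_ ?_
  · intro i hi
    have hi' : w i = CT.s1 ∨ w i = CT.s2 := by simpa using hi
    have hc := h.cor i
    have r1 : Re D (x i) := (ar_re ((h.nb _).2 ⟨i, rfl⟩)).2
    have r2 : Re D (x (i + 1)) := (ar_re ((h.nb _).2 ⟨i + 1, rfl⟩)).2
    simp only [Finset.coe_filter, Set.mem_setOf_eq]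
    rcases hi' with hi' | hi'
    · rw [hi'] at hc
      obtain ⟨k1, ⟨k2, k3, _⟩ | ⟨k2, k3, _⟩⟩ := hc
      · exact ⟨k1, trivial, r1, r2, Or.inl ⟨k2, k3⟩⟩
      · exact ⟨k1, trivial, r1, r2, Or.inr ⟨k2, k3⟩⟩
    · rw [hi'] at hc
      obtain ⟨k1, ⟨k2, k3, _⟩ | ⟨k2, k3, _⟩⟩ := hc
      · exact ⟨k1, trivial, r1, r2, Or.inl ⟨k2, k3⟩⟩
      · exact ⟨k1, trivial, r1, r2, Or.inr ⟨k2, k3⟩⟩
  · intro i _ j _ hij
    simp only [Prod.mk.injEq, true_and] at hij
    exact h.inj hij.1

theorem Rot.count_q {v : V} {n : ℕ} {x : Fin (n + 1) → V}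
    {w : Fin (n + 1) → CT} (hT : Ts T D a b c) (h : Rot T D v n x w) :
    (Finset.univ.filter (fun i => w i = CT.q)).card ≤ qv T D v := by
  classical
  have cx := hT.pl.disc.cx
  have hex : ∀ i, ∃ d, w i = CT.q → (¬ Re D d ∧ (v, x i, d) ∈ T ∧ (v, d, x (i + 1)) ∈ T) := by
    intro i
    by_cases hi : w i = CT.q
    · have hc := h.cor i
      rw [hi] at hc
      obtain ⟨⟨d, hd⟩, _⟩ := hc
      exact ⟨d, fun _ => hd⟩
    · exact ⟨v, fun k => absurd k hi⟩
  choose d hd using hex
  unfold qv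
  refine Finset.card_le_card_of_injOn d ?_ ?_
  · intro i hi
    have hi' : w i = CT.q := by simpa using hi
    obtain ⟨k1, k2, k3⟩ := hd i hi'
    simp only [Finset.coe_filter, Set.mem_setOf_eq]
    exact ⟨vert3 cx k2, k1, Or.inl ⟨_, k3⟩⟩
  · intro i hi j hj hij
    have hi' : w i = CT.q := by simpa using hi
    have hj' : w j = CT.q := by simpa using hj
    obtain ⟨k1, k2, k3⟩ := hd i hi'
    obtain ⟨m1, m2, m3⟩ := hd j hj'
    rw [hij] at k3
    have := h.inj (cx.uniq k3 m3)
    exact add_right_cancel this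

/-- **The degree is at most `s + 2 q`.** -/
theorem Rot.deg_le [Infinite V] (hM : MCw T D a b c) (hT : Ts T D a b c) {v : V}
    (hv : ¬ Tr a b c v) (hg : Good T D v) {n : ℕ} {x : Fin (n + 1) → V}
    {w : Fin (n + 1) → CT} (h : Rot T D v n x w) : n + 1 ≤ sv T D v + 2 * qv T D v := by
  classical
  have h1 := h.count_s hT
  have h2 := h.count_q hT
  have hc := h.cover hM hT hv hg
  have e : (Finset.univ : Finset (Fin (n + 1))) =
      Finset.univ.filter (fun i => (w i).cr = true) ∪
        (Finset.univ.filter (fun i => (w (i + 1)).cl = true)) := by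
    ext i
    simp only [Finset.mem_univ, Finset.mem_union, Finset.mem_filter, true_and, true_iff]
    exact hc i
  have e1 : (Finset.univ.filter (fun i => (w (i + 1)).cl = true)).card =
      (Finset.univ.filter (fun i => (w i).cl = true)).card := by
    refine Finset.card_bij (fun i _ => i + 1) ?_ ?_ ?_
    · intro i hi
      simpa using hi
    · intro i _ j _ hij
      exact add_right_cancel hij
    · intro j hj
      refine ⟨j - 1, ?_, by simp⟩
      simpa using hj
  have e2 : Finset.univ.filter (fun i => (w i).cr = true) ⊆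
      Finset.univ.filter (fun i => w i = CT.q) ∪ Finset.univ.filter (fun i => w i = CT.s2) := by
    intro i hi
    simp only [Finset.mem_filter, Finset.mem_univ, true_and, Finset.mem_union] at hi ⊢
    cases hw : w i
    · exact Or.inl rfl
    · rw [hw] at hi; exact absurd hi (by decide)
    · exact Or.inr rfl
    · rw [hw] at hi; exact absurd hi (by decide)
  have e3 : Finset.univ.filter (fun i => (w i).cl = true) ⊆
      Finset.univ.filter (fun i => w i = CT.q) ∪ Finset.univ.filter (fun i => w i = CT.s1) := by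
    intro i hi
    simp only [Finset.mem_filter, Finset.mem_univ, true_and, Finset.mem_union] at hi ⊢
    cases hw : w i
    · exact Or.inl rfl
    · exact Or.inr rfl
    · rw [hw] at hi; exact absurd hi (by decide)
    · rw [hw] at hi; exact absurd hi (by decide)
  have e4 : Finset.univ.filter (fun i => w i = CT.s1 ∨ w i = CT.s2) =
      Finset.univ.filter (fun i => w i = CT.s1) ∪ Finset.univ.filter (fun i => w i = CT.s2) := by
    rw [Finset.filter_or]
  have e5 : Disjoint (Finset.univ.filter (fun i => w i = CT.s1))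
      (Finset.univ.filter (fun i => w i = CT.s2)) := by
    rw [Finset.disjoint_filter]
    intro i _ k1 k2
    rw [k1] at k2
    exact absurd k2 (by decide)
  rw [e4, Finset.card_union_of_disjoint e5] at h1
  have c0 : (Finset.univ : Finset (Fin (n + 1))).card = n + 1 := by simp
  have c1 := Finset.card_union_le (Finset.univ.filter (fun i => (w i).cr = true))
    (Finset.univ.filter (fun i => (w (i + 1)).cl = true))
  rw [← e, c0, e1] at c1
  have c2 := (Finset.card_le_card e2).trans (Finset.card_union_le _ _)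
  have c3 := (Finset.card_le_card e3).trans (Finset.card_union_le _ _)
  omega

end Pool.Agent.H72.G4
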