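import Pool.Agent.H72.G4.Words

/-!
# Finite classification of the words of positive vertices
-/

set_option autoImplicit false

namespace Pool.Agent.H72.G4

open CT

/-- number of corners which count -/
def cnt (l : List CT) : ℕ := (l.filter CT.ct).length

/-- parity of the direction changes -/
def par (l : List CT) : Bool := l.foldr (fun t b => xor t.ch b) false

/-- coverage of two consecutive corners -/
def cov (x y : CT) : Bool := x.cr || y.cl

/-- the list of words of length 4 -/
def lst4 : List (List CT) :=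
  [[m, q, m, q], [q, m, q, m], [q, q, m, q], [q, m, q, q], [m, q, q, q],
   [q, q, q, m], [m, s1, s1, q], [s1, s1, q, m], [s1, q, m, s1], [q, m, s1, s1],
   [q, s2, s2, m], [s2, s2, m, q], [s2, m, q, s2], [m, q, s2, s2], [s2, m, s1, q],
   [m, s1, q, s2], [s1, q, s2, m], [q, s2, m, s1]]

theorem words4_aux : ∀ w0 w1 w2 w3 : CT,
    (cov w0 w1 && cov w1 w2 && cov w2 w3 && cov w3 w0) = true →
    decide (cnt [w0, w1, w2, w3] ≤ 3) = true → par [w0, w1, w2, w3] = false →
    decide ([w0, w1, w2, w3] ∈ lst4) = true := by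
  decide +kernel

/-- the list of words of length 5 -/
def lst5 : List (List CT) :=
  [[m, q, m, s1, q], [q, m, s1, q, m], [m, s1, q, m, q], [s1, q, m, q, m],
   [q, m, q, m, s1], [q, s2, m, q, m], [s2, m, q, m, q], [m, q, m, q, s2],
   [q, m, q, s2, m], [m, q, s2, m, q]]

theorem words5_aux : ∀ w0 w1 w2 w3 w4 : CT,
    (cov w0 w1 && cov w1 w2 && cov w2 w3 && cov w3 w4 && cov w4 w0) = true →
    decide (cnt [w0, w1, w2, w3, w4] ≤ 3) = true → par [w0, w1, w2, w3, w4] = false →
    decide ([w0, w1, w2, w3, w4] ∈ lst5) = true := by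
  decide +kernel

/-- the list of words of length 6 -/
def lst6 : List (List CT) :=
  [[m, q, m, q, m, q], [q, m, q, m, q, m]]

theorem words6_aux : ∀ w0 w1 w2 w3 w4 w5 : CT,
    (cov w0 w1 && cov w1 w2 && cov w2 w3 && cov w3 w4 && cov w4 w5 && cov w5 w0) = true →
    decide (cnt [w0, w1, w2, w3, w4, w5] ≤ 3) = true → par [w0, w1, w2, w3, w4, w5] = false →
    decide ([w0, w1, w2, w3, w4, w5] ∈ lst6) = true := by
  decide +kernel

end Pool.Agent.H72.G4
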